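import Pool.Agent.Helper21.LR.Stmts2

/-!
MP_6358c9_nt (Laurent-Roy): modules LR-MEET1, LR-DEFQ, LR-EQ.
-/

open MvPolynomial

namespace Pool.Agent.Helper93.LRM

open Pool.Agent.Helper21.LR

/-- a complex polynomial vanishing at all integer points vanishes at all points -/
theorem zero_of_int {ι : Type*} (P : MvPolynomial ι ℂ)
    (h : ∀ u : ι → ℤ, eval (fun i => (u i : ℂ)) P = 0) : P = 0 := by
  apply funext_set (fun _ => Set.range (fun n : ℤ => (n : ℂ)))
    (fun _ => Set.infinite_range_of_injective Int.cast_injective)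
  intro x hx
  choose u hu using fun i => hx i (Set.mem_univ i)
  have : x = fun i => (u i : ℂ) := by funext i; exact (hu i).symm
  rw [this, h u, map_zero]

theorem eval_genSub {m : ℕ} (r : ℕ) (ξ : Fin m → ℂ) (u : Fin r × Fin m → ℂ)
    (G : MvPolynomial (Fin r × Fin (m+1)) ℤ) :
    eval u (genSub r ξ G) = aeval (thr ξ u) G := by
  have : ((aeval u : MvPolynomial (Fin r × Fin m) ℂ →ₐ[ℂ] ℂ).restrictScalars ℤ).comp
      (genSub r ξ) = aeval (thr ξ u) := by
    apply MvPolynomial.algHom_ext
    rintro ⟨i, j⟩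
    simp only [genSub, thr, AlgHom.comp_apply, aeval_X]
    refine Fin.cases ?_ (fun j => ?_) j
    · simp [mul_comm]
    · simp
  have h2 := congrArg (fun φ => φ G) this
  simp only [AlgHom.comp_apply, AlgHom.restrictScalars_apply] at h2
  exact h2

/-- integer version of `thr`: the value is an integer polynomial in `ξ` -/
noncomputable def thrInt {m r : ℕ} (u : Fin r × Fin m → ℤ) :
    MvPolynomial (Fin r × Fin (m+1)) ℤ →ₐ[ℤ] MvPolynomial (Fin m) ℤ :=
  aeval (fun ij => Fin.cases (motive := fun _ => MvPolynomial (Fin m) ℤ)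
    (-∑ j, C (u (ij.1, j)) * X j) (fun j => C (u (ij.1, j))) ij.2)

theorem aeval_thrInt {m r : ℕ} (u : Fin r × Fin m → ℤ) (ξ : Fin m → ℂ)
    (G : MvPolynomial (Fin r × Fin (m+1)) ℤ) :
    aeval ξ (thrInt u G) = aeval (thr ξ (fun ij => (u ij : ℂ))) G := by
  have : (aeval ξ : MvPolynomial (Fin m) ℤ →ₐ[ℤ] ℂ).comp (thrInt u) =
      aeval (thr ξ (fun ij => (u ij : ℂ))) := by
    apply MvPolynomial.algHom_ext
    rintro ⟨i, j⟩
    simp only [thrInt, thr, AlgHom.comp_apply, aeval_X]
    refine Fin.cases ?_ (fun j => ?_) j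
    · simp
    · simp
  exact congrArg (fun φ => φ G) this

/-- vanishing on all tuples through `ξ` implies vanishing on all tuples through `p` -/
theorem vanish_of_onV {m r : ℕ} {ξ p : Fin m → ℂ} (hp : OnV ξ p)
    (G : MvPolynomial (Fin r × Fin (m+1)) ℤ)
    (h : ∀ u : Fin r × Fin m → ℂ, aeval (thr ξ u) G = 0) (u : Fin r × Fin m → ℂ) :
    aeval (thr p u) G = 0 := by
  rw [← eval_genSub]
  have : genSub r p G = 0 := by
    apply zero_of_int
    intro v
    rw [eval_genSub, ← aeval_thrInt]
    apply hp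
    rw [aeval_thrInt]
    exact h _
  rw [this, map_zero]

theorem chow_vanish {m r : ℕ} {ξ : Fin m → ℂ} {F : MvPolynomial (Fin (r+1) × Fin (m+1)) ℤ}
    (hF : IsChow r ξ F) (u : Fin (r+1) × Fin m → ℂ) : aeval (thr ξ u) F = 0 :=
  (hF.2 F).2 dvd_rfl u

/-- a Chow form is homogeneous -/
theorem chow_homog {m r : ℕ} {ξ : Fin m → ℂ} {F : MvPolynomial (Fin (r+1) × Fin (m+1)) ℤ}
    (hF : IsChow r ξ F) : F.IsHomogeneous F.totalDegree := by
  classical
  set F2 : MvPolynomial (Fin (r+1) × Fin (m+1)) ℤ := aeval (fun ij => C 2 * X ij) F with hF2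
  have hcoef : ∀ α, F2.coeff α = 2 ^ (α.degree) * F.coeff α := by
    intro α
    have h1 : ∀ G : MvPolynomial (Fin (r+1) × Fin (m+1)) ℤ,
        (aeval (fun ij => C 2 * X ij) G : MvPolynomial (Fin (r+1) × Fin (m+1)) ℤ).coeff α =
          2 ^ (α.degree) * G.coeff α := by
      intro G
      induction G using MvPolynomial.induction_on' with
      | monomial β c =>
        rw [aeval_monomial]
        have : (β.prod fun ij k => (C 2 * X ij : MvPolynomial (Fin (r+1) × Fin (m+1)) ℤ) ^ k) =
            monomial β (2 ^ β.degree) := by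
          rw [MvPolynomial.monomial_eq]
          simp only [mul_pow, Finsupp.prod_mul]
          congr 1
          rw [Finsupp.prod, Finset.prod_pow_eq_pow_sum, ← C_pow]
          rfl
        rw [this, algebraMap_eq, C_mul_monomial, coeff_monomial, coeff_monomial]
        split_ifs with h
        · subst h; ring
        · simp
      | add p q hp hq =>
        rw [map_add, coeff_add, coeff_add, hp, hq]; ring
    exact h1 F
  have hdvd : F ∣ F2 := by
    rw [← hF.2]
    intro u
    have : aeval (thr ξ u) F2 = aeval (thr ξ (fun ij => 2 * u ij)) F := by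
      rw [hF2]
      have h3 : (aeval (thr ξ u) : MvPolynomial _ ℤ →ₐ[ℤ] ℂ).comp
        (aeval (fun ij => (C 2 * X ij : MvPolynomial (Fin (r+1) × Fin (m+1)) ℤ))) =
        aeval (thr ξ (fun ij => 2 * u ij)) := by
        apply MvPolynomial.algHom_ext
        rintro ⟨i, j⟩
        simp only [thr, AlgHom.comp_apply, aeval_X, map_mul]
        refine Fin.cases ?_ (fun j => ?_) j
        · simp [Finset.mul_sum, mul_assoc]
        · simp
      exact congrArg (fun φ => φ F) h3
    rw [this]
    exact chow_vanish hF _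
  obtain ⟨c, hc⟩ := hdvd
  have hF0 := hF.1
  have hF20 : F2 ≠ 0 := by
    intro h
    apply hF0
    ext α
    have := hcoef α
    rw [h, coeff_zero] at this
    rw [coeff_zero]
    rcases mul_eq_zero.1 this.symm with h | h
    · exact absurd h (by positivity)
    · exact h
  have hc0 : c ≠ 0 := by rintro rfl; exact hF20 (by rw [hc, mul_zero])
  have hsupp : F2.support = F.support := by
    ext α
    simp only [mem_support_iff, ne_eq, hcoef α, mul_eq_zero, not_or]
    constructor
    · exact fun h => h.2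
    · exact fun h => ⟨by positivity, h⟩
  have htd : F2.totalDegree = F.totalDegree := by
    rw [totalDegree, totalDegree, hsupp]
  have hctd : c.totalDegree = 0 := by
    rw [hc, totalDegree_mul_of_isDomain hF0 hc0] at htd
    omega
  rw [totalDegree_eq_zero_iff_eq_C] at hctd
  set k := c.coeff 0
  have hkey : ∀ α ∈ F.support, (2:ℤ) ^ (α.degree) = k := by
    intro α hα
    have h1 := hcoef α
    rw [hc, hctd, mul_comm, coeff_C_mul] at h1
    rw [mem_support_iff] at hα
    exact (mul_right_cancel₀ hα h1).symm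
  obtain ⟨β, hβ, hβ2⟩ : ∃ β ∈ F.support, F.totalDegree = β.degree := by
    obtain ⟨β, hβ, h⟩ := Finset.exists_mem_eq_sup F.support (support_nonempty.2 hF0)
      (fun s => s.degree)
    exact ⟨β, hβ, h⟩
  intro α hα
  have h1 := hkey α (mem_support_iff.2 hα)
  have h2 := hkey β hβ
  have h3 : α.degree = β.degree := by
    have : (2:ℤ) ^ α.degree = 2 ^ β.degree := by rw [h1, h2]
    exact Int.pow_right_injective (by norm_num) this
  rw [hβ2, ← h3, Finsupp.degree_eq_weight_one]
  rfl

theorem homog_scale {ι : Type*} {F : MvPolynomial ι ℤ} {d : ℕ} (hF : F.IsHomogeneous d)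
    (c : ℂ) (u : ι → ℂ) : aeval (fun i => c * u i) F = c ^ d * aeval u F := by
  have h1 : (map (Int.castRingHom ℂ) F).IsHomogeneous d := hF.map _
  have key : ∀ v : ι → ℂ, aeval v F = eval v (map (Int.castRingHom ℂ) F) := by
    intro v
    rw [eval_map]
    rfl
  rw [key, key]
  rw [eval_eq, eval_eq, Finset.mul_sum]
  apply Finset.sum_congr rfl
  intro α hα
  have hdeg : ∑ i ∈ α.support, α i = d := by
    have := h1 (mem_support_iff.1 hα)
    have e : α.degree = Finsupp.weight 1 α := by rw [Finsupp.degree_eq_weight_one]; rfl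
    rw [← this, ← e]
    rfl
  have : ∏ i ∈ α.support, (c * u i) ^ α i = c ^ d * ∏ i ∈ α.support, u i ^ α i := by
    simp only [mul_pow]
    rw [Finset.prod_mul_distrib, Finset.prod_pow_eq_pow_sum, hdeg]
  rw [this]
  ring

theorem meet1 : SMeet1 := by
  classical
  intro m r ξ F hV u hM
  obtain ⟨p, ⟨hp0, hp⟩, hpu⟩ := hM
  have hF := hV.chow
  obtain ⟨l, hl⟩ : ∃ l, p l ≠ 0 := by
    by_contra h
    push Not at h
    exact hp0 (funext h)
  set D := F.totalDegree with hD
  have hhom := chow_homog hF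
  set sub : Fin (r+1) × Fin (m+1) → MvPolynomial (Fin (m+1)) ℂ :=
    fun ij => if ij.2 = l then -∑ j ∈ Finset.univ.erase l, C (u (ij.1, j)) * X j
      else C (u ij) * X l with hsub
  set H : MvPolynomial (Fin (m+1)) ℂ := aeval sub F with hH
  have hHhom : H.IsHomogeneous D := by
    have := hhom.aeval (n := 1) sub (by
      intro ij
      rw [hsub]
      dsimp only
      split_ifs with h
      · apply IsHomogeneous.neg
        apply IsHomogeneous.sum
        intro j _
        exact (isHomogeneous_X _ _).C_mul _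
      · exact (isHomogeneous_X _ _).C_mul _)
    rwa [one_mul] at this
  have hev : ∀ x : Fin (m+1) → ℂ, eval x H = aeval (fun ij => eval x (sub ij)) F := by
    intro x
    have : ((aeval x : MvPolynomial (Fin (m+1)) ℂ →ₐ[ℂ] ℂ).restrictScalars ℤ).comp
        (aeval sub) = aeval (fun ij => eval x (sub ij)) := by
      apply MvPolynomial.algHom_ext
      intro ij
      simp
    exact congrArg (fun φ => φ F) this
  have hzero : ∀ x ∈ {x | OnV ξ x}, eval (Fin.cons 1 x : Fin (m+1) → ℂ) H = 0 := by
    intro y hy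
    rw [hev]
    set U : Fin (r+1) × Fin (m+1) → ℂ := fun ij => eval (Fin.cons 1 y : Fin (m+1) → ℂ) (sub ij)
      with hU
    have hUsum : ∀ i, ∑ j, U (i, j) * (Fin.cons 1 y : Fin (m+1) → ℂ) j = 0 := by
      intro i
      rw [← Finset.add_sum_erase _ _ (Finset.mem_univ l)]
      have h1 : U (i, l) = -∑ j ∈ Finset.univ.erase l, u (i, j) *
          (Fin.cons 1 y : Fin (m+1) → ℂ) j := by
        rw [hU, hsub]
        simp
      have h2 : ∑ j ∈ Finset.univ.erase l, U (i, j) * (Fin.cons 1 y : Fin (m+1) → ℂ) j =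
          ∑ j ∈ Finset.univ.erase l, u (i, j) * (Fin.cons 1 y : Fin (m+1) → ℂ) j *
            (Fin.cons 1 y : Fin (m+1) → ℂ) l := by
        apply Finset.sum_congr rfl
        intro j hj
        have : U (i, j) = u (i, j) * (Fin.cons 1 y : Fin (m+1) → ℂ) l := by
          rw [hU, hsub]
          simp only [(Finset.mem_erase.1 hj).1, if_false, map_mul, eval_C, eval_X]
        rw [this]; ring
      rw [h1, h2, ← Finset.sum_mul]
      ring
    have hUthr : U = thr y (fun ij => U (ij.1, ij.2.succ)) := by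
      funext ⟨i, j⟩
      refine Fin.cases ?_ (fun j => ?_) j
      · have := hUsum i
        rw [Fin.sum_univ_succ] at this
        simp only [Fin.cons_zero, mul_one, Fin.cons_succ] at this
        simp only [thr, Fin.cases_zero]
        linear_combination this
      · simp only [thr, Fin.cases_succ]
    rw [hUthr]
    exact vanish_of_onV hy F (chow_vanish hF) _
  have h0 := hp D H hHhom hzero
  rw [hev] at h0
  have hup : (fun ij => eval p (sub ij)) = fun ij => p l * u ij := by
    funext ⟨i, j⟩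
    rw [hsub]
    dsimp only
    split_ifs with h
    · subst h
      have := hpu i
      rw [← Finset.add_sum_erase _ _ (Finset.mem_univ j)] at this
      simp only [map_neg, map_sum, map_mul, eval_C, eval_X]
      linear_combination -this
    · simp only [map_mul, eval_C, eval_X]
      ring
  rw [hup, homog_scale hhom] at h0
  rcases mul_eq_zero.1 h0 with h | h
  · exact absurd (pow_eq_zero_iff (by rintro h0; rw [h0, pow_zero] at h; exact one_ne_zero h) |>.1 h) hl
  · exact h

theorem clear_den {ι : Type*} (f : MvPolynomial ι ℚ) :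
    ∃ (n : ℤ) (Q : MvPolynomial ι ℤ), n ≠ 0 ∧ map (Int.castRingHom ℚ) Q = C (n : ℚ) * f := by
  induction f using MvPolynomial.induction_on' with
  | monomial β c =>
    refine ⟨c.den, monomial β c.num, by exact_mod_cast c.den_nz, ?_⟩
    rw [map_monomial, C_mul_monomial]
    congr 1
    simp [Rat.den_mul_eq_num]
  | add p q hp hq =>
    obtain ⟨n1, Q1, h1, e1⟩ := hp
    obtain ⟨n2, Q2, h2, e2⟩ := hq
    refine ⟨n1 * n2, C n2 * Q1 + C n1 * Q2, mul_ne_zero h1 h2, ?_⟩
    rw [map_add, map_mul, map_mul, e1, e2]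
    rw [map_C, map_C, eq_intCast, eq_intCast, Int.cast_mul, C_mul]
    ring

theorem aeval_mapQ {ι : Type*} (Q : MvPolynomial ι ℤ) (x : ι → ℂ) :
    aeval x (map (Int.castRingHom ℚ) Q) = aeval x Q := by
  exact aeval_map_algebraMap ℚ x Q

theorem defQ : SDefQ := by
  intro m ξ
  obtain ⟨S, hS⟩ : (RingHom.ker (aeval ξ : MvPolynomial (Fin m) ℚ →ₐ[ℚ] ℂ)).FG :=
    IsNoetherian.noetherian _
  refine ⟨S, Set.ext fun x => ⟨?_, ?_⟩⟩
  · intro hx f hf
    have hfI : f ∈ RingHom.ker (aeval ξ : MvPolynomial (Fin m) ℚ →ₐ[ℚ] ℂ) := by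
      rw [← hS]
      exact Ideal.subset_span hf
    obtain ⟨n, Q, hn, e⟩ := clear_den f
    have h1 : aeval ξ Q = 0 := by
      rw [← aeval_mapQ, e, map_mul]
      have : aeval ξ f = 0 := hfI
      rw [this, mul_zero]
    have h2 := hx Q h1
    rw [← aeval_mapQ, e, map_mul, aeval_C] at h2
    rcases mul_eq_zero.1 h2 with h | h
    · exfalso
      apply hn
      have : ((n : ℚ) : ℂ) = 0 := h
      exact_mod_cast this
    · exact h
  · intro hx Q hQ
    have hle : RingHom.ker (aeval ξ : MvPolynomial (Fin m) ℚ →ₐ[ℚ] ℂ) ≤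
        RingHom.ker (aeval x : MvPolynomial (Fin m) ℚ →ₐ[ℚ] ℂ) := by
      rw [← hS]
      exact Ideal.span_le.2 fun f hf => hx f hf
    have : map (Int.castRingHom ℚ) Q ∈ RingHom.ker (aeval ξ : MvPolynomial (Fin m) ℚ →ₐ[ℚ] ℂ) := by
      show aeval ξ _ = 0
      rw [aeval_mapQ]; exact hQ
    have h3 : aeval x (map (Int.castRingHom ℚ) Q) = 0 := hle this
    rw [aeval_mapQ] at h3
    exact h3

/-- a family of coordinates independent at `η` and a spanning index set -/
theorem indep_coords {m : ℕ} (η : Fin m → ℂ) :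
    ∃ J : Set (Fin m), AlgebraicIndependent ℤ (fun j : J => η j) ∧ J.encard = trd η := by
  obtain ⟨B, hB⟩ := (AlgebraicIndependent.matroid ℤ ℂ).exists_isBasis (Set.range η)
  have hBsub : B ⊆ Set.range η := hB.subset
  have hsurj : Set.SurjOn η Set.univ B := by
    intro b hb
    obtain ⟨j, hj⟩ := hBsub hb
    exact ⟨j, Set.mem_univ _, hj⟩
  obtain ⟨J, -, hJ⟩ := hsurj.exists_bijOn_subset
  have hBi : AlgebraicIndependent ℤ ((↑) : B → ℂ) :=
    AlgebraicIndependent.matroid_indep_iff.1 hB.indep
  refine ⟨J, ?_, ?_⟩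
  · have h3 := hBi.comp (fun j : J => (⟨η j, hJ.mapsTo j.2⟩ : B)) (by
      intro a b hab
      exact Subtype.ext (hJ.injOn a.2 b.2 (congrArg Subtype.val hab)))
    exact h3
  · rw [trd, rk, ← hB.encard_eq_eRk, ← hJ.image_eq, hJ.injOn.encard_image]

theorem eqv : SEq := by
  classical
  intro m r r' ξ η F F' hξ hη hV hr Q hQ
  by_contra hne
  obtain ⟨J, hJη, hJc⟩ := indep_coords η
  have hJξ : AlgebraicIndependent ℤ (fun j : J => ξ j) := by
    rw [algebraicIndependent_iff]
    intro P hP
    have h1 : aeval ξ (rename ((↑) : J → Fin m) P) = 0 := by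
      rw [aeval_rename]; exact hP
    have h2 := hV _ h1
    rw [aeval_rename] at h2
    exact (algebraicIndependent_iff.1 hJη) P h2
  have hrange : Set.range (fun j : J => ξ j) = ξ '' J := by
    ext z; simp
  have hind : (AlgebraicIndependent.matroid ℤ ℂ).Indep (ξ '' J) :=
    AlgebraicIndependent.matroid_indep_iff.2 hJξ.image
  have hinj : Set.InjOn ξ J := Set.injOn_iff_injective.2 hJξ.injective
  have hcard : (ξ '' J).encard = J.encard := hinj.encard_image
  have hbasis : (AlgebraicIndependent.matroid ℤ ℂ).IsBasis (ξ '' J) (Set.range ξ) := by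
    apply hind.isBasis_of_eRk_ge (Set.toFinite _) (Set.image_subset_range _ _)
    rw [hind.eRk_eq_encard, hcard, hJc, hη.dim]
    have := hξ.dim
    rw [trd, rk] at this
    rw [this]
    exact_mod_cast hr
  have halg : IsAlgebraic (Algebra.adjoin ℤ (ξ '' J)) (aeval ξ Q) := by
    rw [AlgebraicIndependent.isAlgebraic_adjoin_iff_of_matroid_isBasis hbasis]
    have hmem : aeval ξ Q ∈ Algebra.adjoin ℤ (Set.range ξ) := by
      rw [Algebra.adjoin_range_eq_range_aeval]
      exact ⟨Q, rfl⟩
    exact isAlgebraic_algebraMap (⟨_, hmem⟩ : Algebra.adjoin ℤ (Set.range ξ))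
  obtain ⟨p, hp0, hp⟩ := halg.exists_nonzero_coeff_and_aeval_eq_zero
    (mem_nonZeroDivisors_of_ne_zero hne)
  -- lift the coefficients
  have hsurj : ∀ c : Algebra.adjoin ℤ (ξ '' J), ∃ P : MvPolynomial J ℤ,
      aeval (fun j : J => ξ j) P = (c : ℂ) := by
    rintro ⟨c, hc⟩
    rw [← hrange, Algebra.adjoin_range_eq_range_aeval] at hc
    obtain ⟨P, hP⟩ := hc
    exact ⟨P, hP⟩
  choose L hL using hsurj
  set T : MvPolynomial (Fin m) ℤ :=
    ∑ k ∈ Finset.range (p.natDegree + 1), rename ((↑) : J → Fin m) (L (p.coeff k)) * Q ^ k with hT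
  have hTx : ∀ x : Fin m → ℂ, aeval x T =
      ∑ k ∈ Finset.range (p.natDegree + 1), aeval (fun j : J => x j) (L (p.coeff k)) *
        (aeval x Q) ^ k := by
    intro x
    rw [hT, map_sum]
    apply Finset.sum_congr rfl
    intro k _
    rw [map_mul, map_pow, aeval_rename]
    rfl
  have hTξ : aeval ξ T = 0 := by
    rw [hTx]
    rw [Polynomial.aeval_eq_sum_range] at hp
    rw [← hp]
    apply Finset.sum_congr rfl
    intro k _
    rw [hL, Algebra.smul_def]
    rfl
  have hTη := hV T hTξ
  rw [hTx, Finset.sum_range_succ'] at hTη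
  have hz : ∑ k ∈ Finset.range p.natDegree, aeval (fun j : J => η j) (L (p.coeff (k+1))) *
      (aeval η Q) ^ (k+1) = 0 := by
    apply Finset.sum_eq_zero
    intro k _
    rw [hQ, pow_succ, mul_zero, mul_zero]
  rw [hz, zero_add, pow_zero, mul_one] at hTη
  have hL0 : L (p.coeff 0) = 0 := (algebraicIndependent_iff.1 hJη) _ hTη
  apply hp0
  have := hL (p.coeff 0)
  rw [hL0, map_zero] at this
  exact Subtype.ext this.symm

end Pool.Agent.Helper93.LRM
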