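import Pool.Agent.Helper93.QuotBAOmega

/-!
# The interval algebra of `ω₁` is isomorphic to all its uncountable quotients
-/

open Cardinal Ordinal TopologicalSpace Set Topology
open scoped symmDiff

namespace Pool.Agent.Helper93.QuotBA

section Ideals

variable {B : Type} [BooleanAlgebra B]

theorem cbIdeal_zero : cbIdeal B 0 = ⊥ := by
  rw [cbIdeal, limitRecOn_zero]

theorem cbIdeal_succ (β : Ordinal.{0}) : cbIdeal B (β + 1) = succIdeal (cbIdeal B β) := by
  rw [cbIdeal, limitRecOn_add_one]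
  rfl

theorem cbIdeal_limit {l : Ordinal.{0}} (hl : Order.IsSuccLimit l) :
    cbIdeal B l = ⨆ γ : Set.Iio l, cbIdeal B γ.1 := by
  rw [cbIdeal, limitRecOn_limit _ _ _ _ hl]
  rfl

end Ideals

section Main

variable {X : Type} [TopologicalSpace X]

/-- The ideal of all clopen sets missing the point `x`. -/
def pointIdeal (x : X) : Ideal (AsBoolRing (Clopens X)) where
  carrier := {b | x ∉ ofBoolRing b}
  zero_mem' := fun h => h
  add_mem' := by
    intro a b ha hb h
    rcases h with h | h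
    · exact ha h.1
    · exact hb h.1
  smul_mem' := by
    intro a b hb h
    exact hb h.2

theorem mem_zeroSet_iff {J : Ideal (AsBoolRing (Clopens X))} {x : X} :
    x ∈ zeroSet J ↔ J ≤ pointIdeal x :=
  ⟨fun h b hb => h (ofBoolRing b) hb, fun h b hb => h hb⟩

theorem zeroSet_bot : zeroSet (⊥ : Ideal (AsBoolRing (Clopens X))) = Set.univ := by
  ext x
  simp [mem_zeroSet_iff]

theorem zeroSet_iSup {ι : Type*} (J : ι → Ideal (AsBoolRing (Clopens X))) :
    zeroSet (⨆ i, J i) = ⋂ i, zeroSet (J i) := by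
  ext x
  simp [mem_zeroSet_iff]

variable [CompactSpace X] [T2Space X] [TotallyDisconnectedSpace X]

/-- The closed set of the ideal `I β`. -/
noncomputable def Z (X : Type) [TopologicalSpace X] (β : Ordinal.{0}) : Set X :=
  zeroSet (cbIdeal (Clopens X) β)

omit [T2Space X] [TotallyDisconnectedSpace X] [CompactSpace X] in
theorem Z_zero : Z X 0 = Set.univ := by
  rw [Z, cbIdeal_zero, zeroSet_bot]

theorem Z_succ (β : Ordinal.{0}) : Z X (β + 1) = Z X β \ isolated (Z X β) := by
  rw [Z, cbIdeal_succ, zeroSet_succIdeal]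
  rfl

omit [T2Space X] [TotallyDisconnectedSpace X] [CompactSpace X] in
theorem Z_limit {l : Ordinal.{0}} (hl : Order.IsSuccLimit l) :
    Z X l = ⋂ γ : Set.Iio l, Z X γ.1 := by
  rw [Z, cbIdeal_limit hl, zeroSet_iSup]
  rfl

theorem Z_antitone {γ β : Ordinal.{0}} (h : γ ≤ β) : Z X β ⊆ Z X γ := by
  induction β using Ordinal.limitRecOn generalizing γ with
  | zero =>
    rw [nonpos_iff_eq_zero.1 h]
  | add_one β ih =>
    rcases h.lt_or_eq with h1 | h1
    · rw [Order.lt_add_one_iff] at h1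
      refine Subset.trans ?_ (ih h1)
      rw [Z_succ]
      exact sdiff_subset
    · rw [h1]
  | limit l hl ih =>
    rcases h.lt_or_eq with h1 | h1
    · rw [Z_limit hl]
      exact iInter_subset (fun γ : Set.Iio l => Z X γ.1) ⟨γ, h1⟩
    · rw [h1]

omit [T2Space X] [TotallyDisconnectedSpace X] [CompactSpace X] in
theorem isClosed_Z (β : Ordinal.{0}) : IsClosed (Z X β) := isClosed_zeroSet _

end Main

section Omega

variable {X : Type} [LinearOrder X] [WellFoundedLT X] [OrderTop X] [TopologicalSpace X]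
  [OrderTopology X] [CompactSpace X]

theorem IsOm.not_countable_Z (h : IsOm X) {β : Ordinal.{0}} (hβ : β < ω₁) :
    ¬ (Z X β).Countable := by
  induction β using Ordinal.limitRecOn with
  | zero =>
    rw [Z_zero]
    exact fun hc => h.not_countable (hc.mono (Set.subset_univ _))
  | add_one β ih =>
    have hβ' : β < ω₁ := (Order.lt_add_one_iff.2 le_rfl).trans hβ
    rw [Z_succ]
    apply h.not_countable_of_unbounded
    intro ξ hξ
    obtain ⟨x, s, hx, hxG, hs1, hs2, hs3⟩ := h.exists_seq (G := fun _ => Z X β)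
      (fun _ => ih hβ') hξ
    exact ⟨s, ⟨lub_mem hx hs3 (isClosed_Z β) fun n => ⟨n, le_rfl, hxG n⟩,
      lub_not_isolated hx hs3 hxG⟩, hs1, hs2⟩
  | limit l hl ih =>
    rw [Z_limit hl]
    apply h.not_countable_of_unbounded
    intro ξ hξ
    have hcl : Countable (Set.Iio l) := by
      have h1 : l.card < ℵ₁ := by
        rw [← Cardinal.lt_ord]
        simpa using hβ
      rw [← succ_aleph0, Order.lt_succ_iff] at h1
      rw [← mk_le_aleph0_iff, Cardinal.mk_Iio_ordinal]
      exact Cardinal.lift_le_aleph0.2 h1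
    have hne : Nonempty (Set.Iio l) := ⟨⟨0, hl.bot_lt⟩⟩
    obtain ⟨f, hf⟩ := exists_surjective_nat (Set.Iio l)
    obtain ⟨x, s, hx, hxG, hs1, hs2, hs3⟩ := h.exists_seq
      (G := fun n => Z X (f n.unpair.1).1)
      (fun n => ih _ (f n.unpair.1).2 ((f n.unpair.1).2.trans hβ)) hξ
    refine ⟨s, mem_iInter.2 fun γ => ?_, hs1, hs2⟩
    apply lub_mem hx hs3 (isClosed_Z _)
    intro n
    obtain ⟨k, hk⟩ := hf γ
    refine ⟨Nat.pair k n, Nat.right_le_pair k n, ?_⟩
    have h1 := hxG (Nat.pair k n)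
    simp only [Nat.unpair_pair, hk] at h1
    exact h1

theorem IsOm.notMem_Z (h : IsOm X) : ∀ (a : X) (β : Ordinal.{0}),
    typein (α := X) (· < ·) a < β → a ≠ ⊤ → a ∉ Z X β := by
  intro a
  induction a using WellFoundedLT.induction with
  | ind a ih =>
  intro β hβ hat ha
  have h1 : a ∈ Z X (typein (α := X) (· < ·) a + 1) :=
    Z_antitone (by rwa [← Order.succ_eq_add_one, Order.succ_le_iff]) ha
  rw [Z_succ] at h1
  apply h1.2
  refine ⟨Iic a, isOpen_Iic' a, ?_⟩
  ext y
  constructor
  · rintro ⟨hy1, hy2⟩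
    by_contra hne
    have hlt : y < a := lt_of_le_of_ne hy2 hne
    exact ih y hlt _ ((typein_lt_typein (α := X) (· < ·)).2 hlt) (hlt.trans_le le_top).ne hy1
  · rintro rfl
    exact ⟨h1.1, le_rfl⟩

theorem IsOm.Z_omega1 (h : IsOm X) : Z X ω₁ = {⊤} := by
  have htop : ⊤ ∈ Z X ω₁ := by
    rw [Z_limit (isSuccLimit_omega 1)]
    exact mem_iInter.2 fun γ => h.top_mem (isClosed_Z _) (h.not_countable_Z γ.2)
  refine Subset.antisymm (fun a ha => ?_) (singleton_subset_iff.2 htop)
  by_contra hat
  refine h.notMem_Z a ω₁ ?_ hat ha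
  have h1 : (typein (α := X) (· < ·) a).card ≤ ℵ₀ := by
    have h2 : (typein (α := X) (· < ·) a).card = #(Iio a) := rfl
    rw [h2]
    exact mk_le_aleph0_iff.2 (h.countable a hat)
  rw [← Order.lt_succ_iff, succ_aleph0, ← Cardinal.lt_ord] at h1
  simpa using h1

/-- Property (P) for the clopen algebra of `ω₁ + 1`. -/
theorem IsOm.propertyP (h : IsOm X) : PropertyP (Clopens X) := by
  intro J hJ
  have h1 : ¬ (zeroSet J).Countable := by
    intro hc
    have h2 := h.countable_clopens (isClosed_zeroSet J) hc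
    have h3 : Countable (QuotAlg (Clopens X) J) := (quotIso J).injective.countable
    exact not_countable_iff.2 hJ h3
  obtain ⟨e⟩ := h.homeo (isClosed_zeroSet J) h1
  exact ⟨(quotIso J).trans (clopensCongr e)⟩

theorem IsOm.mk_atoms (h : IsOm X) : #{a : Clopens X // IsAtom a} = ℵ₁ := by
  have hX : #X = ℵ₁ := by
    have h1 : (typeLT X).card = #X := rfl
    rw [← h1, typeLT_eq h]
    simp
  apply le_antisymm
  · rw [← hX]
    have h1 : ∀ a : {a : Clopens X // IsAtom a}, ∃ x : X, (a.1 : Set X) = {x} :=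
      fun a => isAtom_iff.1 a.2
    choose f hf using h1
    refine mk_le_of_injective (f := f) fun a b hab => ?_
    apply Subtype.ext
    apply Clopens.ext
    rw [hf a, hf b, hab]
  · rw [← succ_aleph0, Order.succ_le_iff]
    by_contra hcon
    rw [not_lt, mk_le_aleph0_iff] at hcon
    let S : Set X := {x | ∃ a : {a : Clopens X // IsAtom a}, (a.1 : Set X) = {x} ∧ x ≠ ⊤}
    have hS : S.Countable := by
      have h1 : ∀ a : {a : Clopens X // IsAtom a}, ∃ x : X, (a.1 : Set X) = {x} :=
        fun a => isAtom_iff.1 a.2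
      choose f hf using h1
      refine (countable_range f).mono ?_
      rintro x ⟨a, ha, -⟩
      refine ⟨a, ?_⟩
      have := (hf a).symm.trans ha
      exact singleton_eq_singleton_iff.1 this
    obtain ⟨ξ, hξ, hb⟩ := h.bounded hS (by
      rintro ⟨a, -, h1⟩
      exact h1 rfl)
    have hne : (Ioi ξ).Nonempty := ⟨⊤, hξ⟩
    let y := WellFounded.min (wellFounded_lt (α := X)) _ hne
    have hy : ξ < y := WellFounded.min_mem _ _ hne
    have hyt : y ≠ ⊤ := by
      intro h1
      apply h.not_countable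
      refine (h.Iic_countable hξ.ne).mono fun z hz => ?_
      by_contra h2
      refine WellFounded.not_lt_min (wellFounded_lt (α := X)) (Ioi ξ) (not_le.1 h2 : ξ < z) ?_
      show z < y
      rw [h1]
      exact hz
    have hcl : IsClopen ({y} : Set X) := by
      refine ⟨isClosed_singleton, ?_⟩
      have h1 : ({y} : Set X) = Ioi ξ ∩ Iic y := by
        ext z
        constructor
        · rintro rfl
          exact ⟨hy, le_rfl⟩
        · rintro ⟨h1, h2⟩
          exact le_antisymm h2 (not_lt.1 fun h3 => WellFounded.not_lt_min _ _ h1 h3)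
      rw [h1]
      exact isOpen_Ioi.inter (isOpen_Iic' y)
    have h1 := hb y ⟨⟨⟨{y}, hcl⟩, isAtom_singleton hcl⟩, rfl, hyt⟩
    exact absurd h1 (not_le.2 hy)

theorem mk_atoms_congr {B C : Type} [BooleanAlgebra B] [BooleanAlgebra C] (e : B ≃o C) :
    #{a : B // IsAtom a} = #{a : C // IsAtom a} :=
  mk_congr (e.toEquiv.subtypeEquiv fun a => (e.isAtom_iff a).symm)

theorem IsOm.quot_iso (h : IsOm X) {β : Ordinal.{0}} (hβ : β < ω₁) :
    Nonempty (QuotAlg (Clopens X) (cbIdeal (Clopens X) β) ≃o Clopens X) := by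
  obtain ⟨e⟩ := h.homeo (isClosed_zeroSet (cbIdeal (Clopens X) β)) (h.not_countable_Z hβ)
  exact ⟨(quotIso _).trans (clopensCongr e)⟩

theorem IsOm.hasCardinalSequence (h : IsOm X) : HasCardinalSequence (Clopens X) ℵ₁ ω₁ := by
  have hZ : zeroSet (cbIdeal (Clopens X) ω₁) = {⊤} := h.Z_omega1
  have hcs : CompactSpace (zeroSet (cbIdeal (Clopens X) ω₁)) :=
    isCompact_iff_compactSpace.1 (isClosed_zeroSet _).isCompact
  have hsub : Subsingleton (zeroSet (cbIdeal (Clopens X) ω₁)) := by
    rw [hZ]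
    infer_instance
  have hfin : Finite (Clopens (zeroSet (cbIdeal (Clopens X) ω₁))) :=
    Finite.of_injective (fun b => (b : Set (zeroSet (cbIdeal (Clopens X) ω₁))))
      SetLike.coe_injective
  refine ⟨⟨ω₁ + 1, ?_⟩, ⟨?_, ?_⟩, ?_, ?_⟩
  · rw [cbIdeal_succ, Ideal.eq_top_iff_one]
    have h1 : (1 : AsBoolRing (Clopens X)) = toBoolRing ⊤ := rfl
    rw [h1, mem_succIdeal_iff, hZ]
    exact (finite_singleton _).subset inter_subset_right
  · exact Finite.of_equiv _ (quotIso (cbIdeal (Clopens X) ω₁)).symm.toEquiv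
  · intro ρ hρ
    by_contra hlt
    rw [not_le] at hlt
    obtain ⟨e⟩ := h.quot_iso hlt
    have h1 : Finite (QuotAlg (Clopens X) (cbIdeal (Clopens X) ρ)) := hρ
    have h2 : Finite (Clopens X) := Finite.of_equiv _ e.toEquiv
    have h3 : #{a : Clopens X // IsAtom a} < ℵ₀ := lt_aleph0_of_finite _
    rw [h.mk_atoms] at h3
    exact absurd h3 (not_lt.2 aleph0_lt_aleph_one.le)
  · intro β hβ
    obtain ⟨e⟩ := h.quot_iso hβ
    rw [mk_atoms_congr e, h.mk_atoms]
  · rw [mk_atoms_congr (quotIso (cbIdeal (Clopens X) ω₁)), Cardinal.eq_one_iff_unique]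
    have ht : (⊤ : X) ∈ zeroSet (cbIdeal (Clopens X) ω₁) := by
      rw [hZ]
      rfl
    constructor
    · refine ⟨fun a b => ?_⟩
      obtain ⟨x, hx⟩ := isAtom_iff.1 a.2
      obtain ⟨y, hy⟩ := isAtom_iff.1 b.2
      apply Subtype.ext
      apply Clopens.ext
      rw [hx, hy, Subsingleton.elim x y]
    · have hcl : IsClopen ({⟨⊤, ht⟩} : Set (zeroSet (cbIdeal (Clopens X) ω₁))) := by
        have : ({⟨⊤, ht⟩} : Set (zeroSet (cbIdeal (Clopens X) ω₁))) = Set.univ := by
          ext z
          exact ⟨fun _ => trivial, fun _ => Subsingleton.elim _ _⟩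
        rw [this]
        exact isClopen_univ
      exact ⟨⟨⟨_, hcl⟩, isAtom_singleton hcl⟩⟩

end Omega

/-- The ordinal `ω₁ + 1`. -/
abbrev Om1 : Type := (ω₁ + 1 : Ordinal.{0}).ToType

/-- There is a Boolean algebra with property (P) and cardinal sequence `⟨ℵ₁, ℵ₁, ..., 1⟩` of
length `ω₁`. -/
theorem exists_algebra : ∃ (B : Type) (_ : BooleanAlgebra B),
    PropertyP B ∧ HasCardinalSequence B ℵ₁ ω₁ := by
  let top : Om1 := ToType.mk ⟨ω₁, by simp⟩
  have htop : ∀ a : Om1, a ≤ top := by
    intro a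
    rw [← ToType.mk.apply_symm_apply a]
    refine ToType.mk.le_iff_le.2 ?_
    have h1 : (ToType.mk.symm a).1 < ω₁ + 1 := (ToType.mk.symm a).2
    have h2 : (ToType.mk.symm a).1 ≤ ω₁ := Order.lt_add_one_iff.1 h1
    exact h2
  let inst1 : OrderTop Om1 := { top := top, le_top := htop }
  have hne : Nonempty Om1 := ⟨top⟩
  let inst2 : OrderBot Om1 := WellFoundedLT.toOrderBot Om1
  let inst3 : TopologicalSpace Om1 := Preorder.topology Om1
  have inst4 : OrderTopology Om1 := ⟨rfl⟩
  let inst5 := WellFoundedLT.conditionallyCompleteLinearOrderBot Om1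
  have inst6 : CompactSpace Om1 := by
    have h1 : IsCompact (Icc inst2.bot top) := isCompact_Icc
    have h2 : Icc inst2.bot top = Set.univ := by
      ext a
      exact ⟨fun _ => trivial, fun _ => ⟨inst2.bot_le a, htop a⟩⟩
    rw [h2] at h1
    exact ⟨h1⟩
  have hom : IsOm Om1 := by
    have hcard : ∀ a : Om1, #(Iio a) = (typein (α := Om1) (· < ·) a).card := fun a => rfl
    constructor
    · intro a ha
      rw [← le_aleph0_iff_set_countable, hcard, ← Order.lt_succ_iff, succ_aleph0, ← Cardinal.lt_ord]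
      have h1 : a < top := lt_of_le_of_ne (htop a) ha
      have h2 := (typein_lt_typein (α := Om1) (· < ·)).2 h1
      have h3 : typein (α := Om1) (· < ·) top = ω₁ := by
        have := ToType.mk.symm_apply_apply (⟨ω₁, by simp⟩ : Set.Iio (ω₁ + 1))
        exact congrArg Subtype.val this
      rw [h3] at h2
      simpa using h2
    · intro hc
      rw [← le_aleph0_iff_set_countable] at hc
      have h3 : typein (α := Om1) (· < ·) top = ω₁ := by
        have := ToType.mk.symm_apply_apply (⟨ω₁, by simp⟩ : Set.Iio (ω₁ + 1))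
        exact congrArg Subtype.val this
      have h4 : #(Iio (⊤ : Om1)) = ℵ₁ := by
        have h5 := hcard top
        rw [h3] at h5
        refine Eq.trans (?_ : _ = #(Iio top)) (h5.trans (by simp))
        rfl
      rw [h4] at hc
      exact absurd hc (not_le.2 aleph0_lt_aleph_one)
  exact ⟨Clopens Om1, inferInstance, hom.propertyP, hom.hasCardinalSequence⟩

end Pool.Agent.Helper93.QuotBA
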