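import Mathlib

/-!
# Homogeneous evaluation of polynomials and iterates of rational functions
-/

set_option autoImplicit false

open Finset Polynomial

namespace Pool.Agent.Helper93.RatODE

variable {K : Type*} [Field K]

/-- the form of degree `n` attached to `P`, evaluated at `(u, w)` -/
noncomputable def hev (P : K[X]) (n : ℕ) {S : Type*} [CommRing S] [Algebra K S] (u w : S) : S :=
  ∑ j ∈ range (n + 1), algebraMap K S (P.coeff j) * u ^ j * w ^ (n - j)

section ring

variable {S T : Type*} [CommRing S] [Algebra K S] [CommRing T] [Algebra K T]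

lemma hev_map (φ : S →ₐ[K] T) (P : K[X]) (n : ℕ) (u w : S) :
    φ (hev P n u w) = hev P n (φ u) (φ w) := by
  simp [hev, map_sum]

lemma hev_zero_poly (n : ℕ) (u w : S) : hev (0 : K[X]) n u w = 0 := by
  simp [hev]

lemma hev_add (P Q : K[X]) (n : ℕ) (u w : S) : hev (P + Q) n u w = hev P n u w + hev Q n u w := by
  simp [hev, add_mul, sum_add_distrib]

lemma hev_C_mul (c : K) (P : K[X]) (n : ℕ) (u w : S) :
    hev (C c * P) n u w = algebraMap K S c * hev P n u w := by
  simp [hev, mul_sum, mul_assoc]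

lemma hev_smul_arg (P : K[X]) (n : ℕ) (c u w : S) :
    hev P n (c * u) (c * w) = c ^ n * hev P n u w := by
  unfold hev
  rw [mul_sum]
  apply sum_congr rfl
  intro j hj
  rw [mem_range] at hj
  have : c ^ n = c ^ j * c ^ (n - j) := by rw [← pow_add]; congr 1; omega
  rw [this, mul_pow, mul_pow]
  ring

lemma hev_right_zero (P : K[X]) (n : ℕ) (u : S) :
    hev P n u 0 = algebraMap K S (P.coeff n) * u ^ n := by
  unfold hev
  rw [sum_range_succ, sum_eq_zero]
  · simp
  · intro j hj
    rw [mem_range] at hj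
    rw [zero_pow (by omega), mul_zero]

end ring

section field

variable {L : Type*} [Field L] [Algebra K L]

lemma hev_eq (P : K[X]) (n : ℕ) (hP : P.natDegree ≤ n) (u w : L) (hw : w ≠ 0) :
    hev P n u w = w ^ n * aeval (u / w) P := by
  rw [aeval_eq_sum_range' (n := n + 1) (by omega)]
  unfold hev
  rw [mul_sum]
  apply sum_congr rfl
  intro j hj
  rw [mem_range] at hj
  rw [Algebra.smul_def, div_pow]
  have : w ^ n = w ^ j * w ^ (n - j) := by rw [← pow_add]; congr 1; omega
  rw [this]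
  field_simp

lemma hev_eq_eval (P : K[X]) (n : ℕ) (hP : P.natDegree ≤ n) (u w : K) (hw : w ≠ 0) :
    hev P n u w = w ^ n * P.eval (u / w) := by
  rw [hev_eq P n hP u w hw, coe_aeval_eq_eval]

/-- two coprime forms have no common zero -/
lemma hev_no_common_zero {P Q : K[X]} (h : IsCoprime P Q) {n m : ℕ} (hP : P.natDegree ≤ n)
    (hQ : Q.natDegree ≤ m) (htop : P.coeff n ≠ 0 ∨ Q.coeff m ≠ 0) {u w : L}
    (h1 : hev P n u w = 0) (h2 : hev Q m u w = 0) : u = 0 ∧ w = 0 := by
  by_cases hw : w = 0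
  · subst hw
    refine ⟨?_, rfl⟩
    rw [hev_right_zero] at h1 h2
    rcases htop with h | h
    · rcases mul_eq_zero.mp h1 with h3 | h3
      · exact absurd ((map_eq_zero _).mp h3) h
      · exact eq_zero_of_pow_eq_zero h3
    · rcases mul_eq_zero.mp h2 with h3 | h3
      · exact absurd ((map_eq_zero _).mp h3) h
      · exact eq_zero_of_pow_eq_zero h3
  · exfalso
    rw [hev_eq P n hP u w hw] at h1
    rw [hev_eq Q m hQ u w hw] at h2
    have h3 : aeval (u / w) P = 0 := by
      rcases mul_eq_zero.mp h1 with h | h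
      · exact absurd h (pow_ne_zero _ hw)
      · exact h
    have h4 : aeval (u / w) Q = 0 := by
      rcases mul_eq_zero.mp h2 with h | h
      · exact absurd h (pow_ne_zero _ hw)
      · exact h
    obtain ⟨a, b, hab⟩ := h
    have h5 := congrArg (aeval (u / w)) hab
    rw [map_add, map_mul, map_mul, h3, h4, mul_zero, mul_zero, add_zero, map_one] at h5
    exact zero_ne_one h5

end field

section poly

lemma hev_eval (P : K[X]) (n : ℕ) (U W : K[X]) (y : K) :
    (hev P n U W).eval y = hev P n (U.eval y) (W.eval y) := by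
  have := hev_map (aeval y : K[X] →ₐ[K] K) P n U W
  simpa [coe_aeval_eq_eval] using this

lemma hev_natDegree_coeff (P : K[X]) (n : ℕ) {U W : K[X]} {q : ℕ} (hU : U.natDegree ≤ q)
    (hW : W.natDegree ≤ q) :
    (hev P n U W).natDegree ≤ n * q ∧ (hev P n U W).coeff (n * q) = hev P n (U.coeff q) (W.coeff q) := by
  have hterm : ∀ j ∈ range (n + 1),
      (algebraMap K K[X] (P.coeff j) * U ^ j * W ^ (n - j)).natDegree ≤ n * q ∧
      (algebraMap K K[X] (P.coeff j) * U ^ j * W ^ (n - j)).coeff (n * q) =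
        algebraMap K K (P.coeff j) * U.coeff q ^ j * W.coeff q ^ (n - j) := by
    intro j hj
    rw [mem_range] at hj
    have h1 : (U ^ j).natDegree ≤ j * q := natDegree_pow_le_of_le j hU
    have h2 : (W ^ (n - j)).natDegree ≤ (n - j) * q := natDegree_pow_le_of_le (n - j) hW
    have h3 : (algebraMap K K[X] (P.coeff j) * U ^ j).natDegree ≤ j * q :=
      (natDegree_C_mul_le _ _).trans h1
    have h4 : n * q = j * q + (n - j) * q := by rw [← add_mul]; congr 1; omega
    constructor
    · rw [h4]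
      exact natDegree_mul_le_of_le h3 h2
    · rw [h4, coeff_mul_add_eq_of_natDegree_le h3 h2, coeff_pow_of_natDegree_le hW]
      rw [← C_eq_algebraMap, coeff_C_mul, coeff_pow_of_natDegree_le hU]
      simp
  constructor
  · unfold hev
    exact natDegree_sum_le_of_forall_le _ _ fun j hj => (hterm j hj).1
  · unfold hev
    rw [finsetSum_coeff]
    exact sum_congr rfl fun j hj => (hterm j hj).2

lemma hev_natDegree (P : K[X]) (n : ℕ) {U W : K[X]} {q : ℕ} (hU : U.natDegree ≤ q)
    (hW : W.natDegree ≤ q) : (hev P n U W).natDegree ≤ n * q :=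
  (hev_natDegree_coeff P n hU hW).1

lemma hev_coeff (P : K[X]) (n : ℕ) {U W : K[X]} {q : ℕ} (hU : U.natDegree ≤ q)
    (hW : W.natDegree ≤ q) : (hev P n U W).coeff (n * q) = hev P n (U.coeff q) (W.coeff q) :=
  (hev_natDegree_coeff P n hU hW).2

/-- top coefficients of a pair of forms composed with a pair -/
lemma hev_coeff_ne {P Q : K[X]} (h : IsCoprime P Q) {n m : ℕ} (hP : P.natDegree ≤ n)
    (hQ : Q.natDegree ≤ m) (htop : P.coeff n ≠ 0 ∨ Q.coeff m ≠ 0) {U W : K[X]} {q : ℕ}
    (hU : U.natDegree ≤ q) (hW : W.natDegree ≤ q) (hmax : U.coeff q ≠ 0 ∨ W.coeff q ≠ 0) :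
    (hev P n U W).coeff (n * q) ≠ 0 ∨ (hev Q m U W).coeff (m * q) ≠ 0 := by
  by_contra hcon
  push Not at hcon
  rw [hev_coeff P n hU hW, hev_coeff Q m hU hW] at hcon
  have := hev_no_common_zero h hP hQ htop hcon.1 hcon.2
  rcases hmax with h | h
  · exact h this.1
  · exact h this.2

lemma hev_isCoprime {P Q : K[X]} (h : IsCoprime P Q) {n m : ℕ} (hP : P.natDegree ≤ n)
    (hQ : Q.natDegree ≤ m) (htop : P.coeff n ≠ 0 ∨ Q.coeff m ≠ 0) {U W : K[X]} (hUW : IsCoprime U W) :
    IsCoprime (hev P n U W) (hev Q m U W) := by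
  have key : ∀ z : K[X], Irreducible z → z ∣ hev P n U W → z ∣ hev Q m U W → False := by
    intro z hz h1 h2
    have : Fact (Irreducible z) := ⟨hz⟩
    have h1' : AdjoinRoot.mk z (hev P n U W) = 0 := AdjoinRoot.mk_eq_zero.mpr h1
    have h2' : AdjoinRoot.mk z (hev Q m U W) = 0 := AdjoinRoot.mk_eq_zero.mpr h2
    have e1 := hev_map (AdjoinRoot.mkₐ z : K[X] →ₐ[K] AdjoinRoot z) P n U W
    have e2 := hev_map (AdjoinRoot.mkₐ z : K[X] →ₐ[K] AdjoinRoot z) Q m U W
    rw [AdjoinRoot.coe_mkₐ] at e1 e2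
    rw [h1'] at e1
    rw [h2'] at e2
    have := hev_no_common_zero h hP hQ htop e1.symm e2.symm
    obtain ⟨a, b, hab⟩ := hUW
    have h5 := congrArg (AdjoinRoot.mk z) hab
    rw [map_add, map_mul, map_mul, this.1, this.2, mul_zero, mul_zero, add_zero, map_one] at h5
    exact zero_ne_one h5
  apply isCoprime_of_irreducible_dvd
  · rintro ⟨h1, h2⟩
    exact key X irreducible_X (h1 ▸ dvd_zero _) (h2 ▸ dvd_zero _)
  · intro z hz h1 h2
    exact key z hz h1 h2

end poly

section comp

variable {L : Type*} [Field L] [Algebra K L]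

lemma hev_comp (P : K[X]) (n : ℕ) {U W : K[X]} {q : ℕ} (hU : U.natDegree ≤ q)
    (hW : W.natDegree ≤ q) (u w : L) :
    hev (hev P n U W) (n * q) u w = hev P n (hev U q u w) (hev W q u w) := by
  by_cases hw : w = 0
  · subst hw
    rw [hev_right_zero, hev_right_zero, hev_right_zero, hev_coeff P n hU hW]
    have h1 := hev_map (Algebra.ofId K L) P n (U.coeff q) (W.coeff q)
    rw [Algebra.ofId_apply, Algebra.ofId_apply, Algebra.ofId_apply] at h1
    rw [h1, mul_comm (algebraMap K L (U.coeff q)), mul_comm (algebraMap K L (W.coeff q)),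
      hev_smul_arg, mul_comm, ← pow_mul, mul_comm q n]
  · rw [hev_eq _ _ (hev_natDegree P n hU hW) u w hw, hev_eq U q hU u w hw, hev_eq W q hW u w hw,
      hev_smul_arg]
    have h1 := hev_map (aeval (u / w) : K[X] →ₐ[K] L) P n U W
    rw [h1, ← pow_mul, mul_comm q n]

end comp

section iterates

/-- the pair of polynomials `(U, W)` with `f^m = U / W` -/
noncomputable def iter (P Q : K[X]) (d : ℕ) : ℕ → K[X] × K[X]
  | 0 => (X, 1)
  | m + 1 => (hev P d (iter P Q d m).1 (iter P Q d m).2, hev Q d (iter P Q d m).1 (iter P Q d m).2)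

variable {P Q : K[X]} {d : ℕ}

lemma iter_natDegree (m : ℕ) :
    (iter P Q d m).1.natDegree ≤ d ^ m ∧ (iter P Q d m).2.natDegree ≤ d ^ m := by
  induction m with
  | zero => simp [iter]
  | succ m ih =>
    rw [pow_succ, mul_comm]
    exact ⟨hev_natDegree P d ih.1 ih.2, hev_natDegree Q d ih.1 ih.2⟩

lemma iter_coeff (h : IsCoprime P Q) (hP : P.natDegree ≤ d) (hQ : Q.natDegree ≤ d)
    (htop : P.coeff d ≠ 0 ∨ Q.coeff d ≠ 0) (m : ℕ) :
    (iter P Q d m).1.coeff (d ^ m) ≠ 0 ∨ (iter P Q d m).2.coeff (d ^ m) ≠ 0 := by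
  induction m with
  | zero => left; simp [iter]
  | succ m ih =>
    rw [pow_succ, mul_comm]
    exact hev_coeff_ne h hP hQ htop (iter_natDegree m).1 (iter_natDegree m).2 ih

lemma iter_isCoprime (h : IsCoprime P Q) (hP : P.natDegree ≤ d) (hQ : Q.natDegree ≤ d)
    (htop : P.coeff d ≠ 0 ∨ Q.coeff d ≠ 0) (m : ℕ) :
    IsCoprime (iter P Q d m).1 (iter P Q d m).2 := by
  induction m with
  | zero => exact isCoprime_one_right
  | succ m ih => exact hev_isCoprime h hP hQ htop ih

lemma iter_orbit (hP : P.natDegree ≤ d) (hQ : Q.natDegree ≤ d) (x : ℕ → K) (i m : ℕ)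
    (hx : ∀ j < m, Q.eval (x (i + j)) ≠ 0 ∧ x (i + j + 1) = P.eval (x (i + j)) / Q.eval (x (i + j))) :
    (iter P Q d m).2.eval (x i) ≠ 0 ∧
      (iter P Q d m).1.eval (x i) / (iter P Q d m).2.eval (x i) = x (i + m) := by
  induction m with
  | zero => simp [iter]
  | succ m ih =>
    obtain ⟨h1, h2⟩ := ih fun j hj => hx j (by omega)
    obtain ⟨h3, h4⟩ := hx m (by omega)
    have e1 : (iter P Q d (m + 1)).1.eval (x i) =
        (iter P Q d m).2.eval (x i) ^ d * P.eval (x (i + m)) := by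
      change (hev P d (iter P Q d m).1 (iter P Q d m).2).eval (x i) = _
      rw [hev_eval, hev_eq_eval P d hP _ _ h1, h2]
    have e2 : (iter P Q d (m + 1)).2.eval (x i) =
        (iter P Q d m).2.eval (x i) ^ d * Q.eval (x (i + m)) := by
      change (hev Q d (iter P Q d m).1 (iter P Q d m).2).eval (x i) = _
      rw [hev_eval, hev_eq_eval Q d hQ _ _ h1, h2]
    refine ⟨?_, ?_⟩
    · rw [e2]; exact mul_ne_zero (pow_ne_zero _ h1) h3
    · rw [e1, e2, ← add_assoc, h4]
      rw [mul_div_mul_left _ _ (pow_ne_zero _ h1)]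

/-- **Iterates of a rational function** along orbits. -/
theorem exists_iterate (h : IsCoprime P Q) (hP : P.natDegree ≤ d) (hQ : Q.natDegree ≤ d)
    (hmax : max P.natDegree Q.natDegree = d) (hd : 1 ≤ d) (m : ℕ) :
    ∃ U W : K[X], IsCoprime U W ∧ U.natDegree ≤ d ^ m ∧ W.natDegree ≤ d ^ m ∧
      (U.coeff (d ^ m) ≠ 0 ∨ W.coeff (d ^ m) ≠ 0) ∧
      (∀ x : ℕ → K, (∀ i, Q.eval (x i) ≠ 0 ∧ x (i + 1) = P.eval (x i) / Q.eval (x i)) →
        ∀ i, W.eval (x i) ≠ 0 ∧ U.eval (x i) / W.eval (x i) = x (i + m)) ∧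
      (∀ (x : ℕ → K) (i : ℕ), (∀ j < m, Q.eval (x (i + j)) ≠ 0 ∧
          x (i + j + 1) = P.eval (x (i + j)) / Q.eval (x (i + j))) →
        W.eval (x i) ≠ 0 ∧ U.eval (x i) / W.eval (x i) = x (i + m)) := by
  have htop : P.coeff d ≠ 0 ∨ Q.coeff d ≠ 0 := by
    rcases max_choice P.natDegree Q.natDegree with h1 | h1
    · left
      rw [hmax] at h1
      rw [h1]
      change P.leadingCoeff ≠ 0
      rw [leadingCoeff_ne_zero]
      rintro rfl
      rw [natDegree_zero] at h1; omega
    · right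
      rw [hmax] at h1
      rw [h1]
      change Q.leadingCoeff ≠ 0
      rw [leadingCoeff_ne_zero]
      rintro rfl
      rw [natDegree_zero] at h1; omega
  refine ⟨(iter P Q d m).1, (iter P Q d m).2, iter_isCoprime h hP hQ htop m, (iter_natDegree m).1,
    (iter_natDegree m).2, iter_coeff h hP hQ htop m, ?_, ?_⟩
  · intro x hx i
    exact iter_orbit hP hQ x i m fun j _ => hx (i + j)
  · intro x i hx
    exact iter_orbit hP hQ x i m hx

end iterates

end Pool.Agent.Helper93.RatODE
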