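import Pool.Agent.Helper93.RatHev

/-!
# Constant cross ratios along an orbit force isotriviality
-/

set_option autoImplicit false

open Finset Polynomial

namespace Pool.Agent.Helper93.RatODE

section more

variable {K : Type*} [Field K]

lemma hev_mul {L : Type*} [Field L] [Algebra K L] {F G : K[X]} {n m : ℕ} (hF : F.natDegree ≤ n)
    (hG : G.natDegree ≤ m) (u w : L) :
    hev (F * G) (n + m) u w = hev F n u w * hev G m u w := by
  by_cases hw : w = 0
  · subst hw
    rw [hev_right_zero, hev_right_zero, hev_right_zero, coeff_mul_add_eq_of_natDegree_le hF hG,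
      map_mul, pow_add]
    ring
  · rw [hev_eq _ _ (natDegree_mul_le.trans (Nat.add_le_add hF hG)) u w hw, hev_eq F n hF u w hw,
      hev_eq G m hG u w hw, map_mul, pow_add]
    ring

lemma hev_linear {S : Type*} [CommRing S] [Algebra K S] (a b : K) (u w : S) :
    hev (C a * X + C b) 1 u w = algebraMap K S a * u + algebraMap K S b * w := by
  unfold hev
  rw [sum_range_succ, sum_range_one]
  simp only [coeff_add, coeff_C_mul, coeff_X_zero, coeff_X_one, coeff_C_zero, coeff_C_succ, mul_zero,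
    zero_add, mul_one, add_zero, pow_zero, Nat.sub_self, pow_one, Nat.sub_zero]
  ring

/-- `hev` is the evaluation of Mathlib's homogenisation. -/
lemma aeval_homogenize {S : Type*} [CommRing S] [Algebra K S] (P : K[X]) (n : ℕ) (v : Fin 2 → S) :
    MvPolynomial.aeval v (P.homogenize n) = hev P n (v 0) (v 1) := by
  unfold Polynomial.homogenize hev
  rw [map_sum, Finset.Nat.sum_antidiagonal_eq_sum_range_succ_mk]
  apply sum_congr rfl
  intro j hj
  rw [MvPolynomial.aeval_monomial, Finsupp.update_eq_add_single (by simp),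
    Finsupp.prod_add_index' (by simp) (by intros; rw [pow_add]), Finsupp.prod_single_index (by simp),
    Finsupp.prod_single_index (by simp)]
  ring

end more

section iso

variable {k K : Type*} [Field k] [Field K] [Algebra k K]

/-- `hev` of the image polynomial -/
lemma hev_map_poly {S : Type*} [CommRing S] [Algebra K S] [Algebra k S] [IsScalarTower k K S]
    (P : k[X]) (n : ℕ) (u w : S) :
    hev (P.map (algebraMap k K)) n u w = hev P n u w := by
  unfold hev
  apply sum_congr rfl
  intro j _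
  rw [coeff_map, ← IsScalarTower.algebraMap_apply]

/-- **Constant cross ratios along an orbit force isotriviality.** -/
theorem exists_conj_of_cross {P Q : K[X]} {d : ℕ} (hd : 1 ≤ d) (hPQ : IsCoprime P Q)
    (hP : P.natDegree ≤ d) (hQ : Q.natDegree ≤ d) (htop : P.coeff d ≠ 0 ∨ Q.coeff d ≠ 0)
    (x : ℕ → K)
    (hx : ∀ i ≤ 2 * d, Q.eval (x i) ≠ 0 ∧ x (i + 1) = P.eval (x i) / Q.eval (x i))
    (hinj : ∀ i ≤ 2 * d, ∀ j ≤ 2 * d, x i = x j → i = j)
    (hcross : ∀ i ≤ 2 * d + 1, ∃ c : k,
      algebraMap k K c = (x i - x 0) * (x 1 - x 2) / ((x i - x 2) * (x 1 - x 0))) :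
    ∃ (A : Matrix (Fin 2) (Fin 2) K) (P' Q' : k[X]) (c : K), A.det ≠ 0 ∧ c ≠ 0 ∧
      P'.natDegree ≤ d ∧ Q'.natDegree ≤ d ∧
      IsCoprime (P'.map (algebraMap k K)) (Q'.map (algebraMap k K)) ∧
      (P'.coeff d ≠ 0 ∨ Q'.coeff d ≠ 0) ∧
      (hev P d (C (A 0 0) * X + C (A 0 1)) (C (A 1 0) * X + C (A 1 1)) : K[X]) =
        C c * (C (A 0 0) * P'.map (algebraMap k K) + C (A 0 1) * Q'.map (algebraMap k K)) ∧
      (hev Q d (C (A 0 0) * X + C (A 0 1)) (C (A 1 0) * X + C (A 1 1)) : K[X]) =
        C c * (C (A 1 0) * P'.map (algebraMap k K) + C (A 1 1) * Q'.map (algebraMap k K)) := by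
  classical
  have h01 : x 1 - x 0 ≠ 0 := by
    intro h
    have := hinj 1 (by omega) 0 (by omega) (sub_eq_zero.mp h)
    omega
  have h12 : x 1 - x 2 ≠ 0 := by
    intro h
    have := hinj 1 (by omega) 2 (by omega) (sub_eq_zero.mp h)
    omega
  have h02 : x 0 - x 2 ≠ 0 := by
    intro h
    have := hinj 0 (by omega) 2 (by omega) (sub_eq_zero.mp h)
    omega
  -- the Moebius matrix
  obtain ⟨m11, hm11⟩ : ∃ m, m = x 1 - x 2 := ⟨_, rfl⟩
  obtain ⟨m12, hm12⟩ : ∃ m, m = -(x 0 * (x 1 - x 2)) := ⟨_, rfl⟩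
  obtain ⟨m21, hm21⟩ : ∃ m, m = x 1 - x 0 := ⟨_, rfl⟩
  obtain ⟨m22, hm22⟩ : ∃ m, m = -(x 2 * (x 1 - x 0)) := ⟨_, rfl⟩
  set δ := m11 * m22 - m12 * m21 with hδ
  have hδ0 : δ ≠ 0 := by
    have : δ = (x 1 - x 2) * (x 1 - x 0) * (x 0 - x 2) := by
      rw [hδ, hm11, hm12, hm21, hm22]; ring
    rw [this]
    exact mul_ne_zero (mul_ne_zero h12 h01) h02
  set a : ℕ → K := fun i => m11 * x i + m12 with ha
  set b : ℕ → K := fun i => m21 * x i + m22 with hb
  have ha' : ∀ i, a i = (x i - x 0) * (x 1 - x 2) := fun i => by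
    simp only [ha, hm11, hm12]; ring
  have hb' : ∀ i, b i = (x i - x 2) * (x 1 - x 0) := fun i => by
    simp only [hb, hm21, hm22]; ring
  -- the conjugated map
  set U0 : K[X] := C m22 * X + C (-m12) with hU0
  set W0 : K[X] := C (-m21) * X + C m11 with hW0
  have dU0 : U0.natDegree ≤ 1 := natDegree_linear_le
  have dW0 : W0.natDegree ≤ 1 := natDegree_linear_le
  have hUW : IsCoprime U0 W0 := by
    refine ⟨C (δ⁻¹ * m21), C (δ⁻¹ * m22), ?_⟩
    have : C (δ⁻¹ * m21) * U0 + C (δ⁻¹ * m22) * W0 = C (δ⁻¹ * δ) := by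
      rw [hU0, hW0, hδ]
      simp only [C_mul, C_neg, C_sub]
      ring
    rw [this, inv_mul_cancel₀ hδ0, C_1]
  have htopUW : U0.coeff 1 ≠ 0 ∨ W0.coeff 1 ≠ 0 := by
    right
    have : W0.coeff 1 = -(x 1 - x 0) := by rw [hW0]; simp [hm21]
    rw [this]
    exact neg_ne_zero.mpr h01
  set P1 : K[X] := hev P d U0 W0 with hP1
  set Q1 : K[X] := hev Q d U0 W0 with hQ1
  have dP1 : P1.natDegree ≤ d := by
    have := hev_natDegree P d dU0 dW0
    rwa [mul_one] at this
  have dQ1 : Q1.natDegree ≤ d := by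
    have := hev_natDegree Q d dU0 dW0
    rwa [mul_one] at this
  have cop1 : IsCoprime P1 Q1 := hev_isCoprime hPQ hP hQ htop hUW
  have top1 : P1.coeff d ≠ 0 ∨ Q1.coeff d ≠ 0 := by
    have := hev_coeff_ne hPQ hP hQ htop dU0 dW0 htopUW
    rwa [mul_one] at this
  set Pt : K[X] := C m11 * P1 + C m12 * Q1 with hPt
  set Qt : K[X] := C m21 * P1 + C m22 * Q1 with hQt
  have dPt : Pt.natDegree ≤ d :=
    natDegree_add_le_of_degree_le ((natDegree_C_mul_le _ _).trans dP1)
      ((natDegree_C_mul_le _ _).trans dQ1)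
  have dQt : Qt.natDegree ≤ d :=
    natDegree_add_le_of_degree_le ((natDegree_C_mul_le _ _).trans dP1)
      ((natDegree_C_mul_le _ _).trans dQ1)
  have eP1 : C δ * P1 = C m22 * Pt + C (-m12) * Qt := by
    rw [hPt, hQt, hδ]; simp only [C_mul, C_neg, C_sub]; ring
  have eQ1 : C δ * Q1 = C (-m21) * Pt + C m11 * Qt := by
    rw [hPt, hQt, hδ]; simp only [C_mul, C_neg, C_sub]; ring
  have copt : IsCoprime Pt Qt := by
    obtain ⟨s, t, hst⟩ := cop1
    refine ⟨C δ⁻¹ * (s * C m22 + t * C (-m21)), C δ⁻¹ * (s * C (-m12) + t * C m11), ?_⟩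
    have h1 : C δ⁻¹ * C δ = (1 : K[X]) := by rw [← C_mul, inv_mul_cancel₀ hδ0, C_1]
    linear_combination (C δ⁻¹ * C δ) * hst - (C δ⁻¹ * s) * eP1 - (C δ⁻¹ * t) * eQ1 + h1
  have topt : Pt.coeff d ≠ 0 ∨ Qt.coeff d ≠ 0 := by
    by_contra hcon
    push Not at hcon
    have h1 := congrArg (fun p => coeff p d) eP1
    have h2 := congrArg (fun p => coeff p d) eQ1
    simp only [coeff_add, coeff_C_mul, hcon.1, hcon.2, mul_zero, add_zero] at h1 h2
    rcases top1 with h | h
    · rcases mul_eq_zero.mp h1 with h3 | h3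
      · exact hδ0 h3
      · exact h h3
    · rcases mul_eq_zero.mp h2 with h3 | h3
      · exact hδ0 h3
      · exact h h3
  -- the points
  choose! t ht using hcross
  set al : ℕ → k := fun i => if b i = 0 then 1 else t i with hal
  set be : ℕ → k := fun i => if b i = 0 then 0 else 1 with hbe
  set s : ℕ → K := fun i => if b i = 0 then a i else b i with hs
  have hab : ∀ i, a i ≠ 0 ∨ b i ≠ 0 := by
    intro i
    by_contra hcon
    push Not at hcon
    have h1 : m22 * a i - m12 * b i = δ * x i := by simp only [ha, hb, hδ]; ring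
    have h2 : -m21 * a i + m11 * b i = δ := by simp only [ha, hb, hδ]; ring
    rw [hcon.1, hcon.2] at h2
    apply hδ0
    rw [← h2]; ring
  have hs0 : ∀ i, s i ≠ 0 := by
    intro i
    simp only [hs]
    split_ifs with h
    · rcases hab i with h1 | h1
      · exact h1
      · exact absurd h h1
    · exact h
  have hsa : ∀ i ≤ 2 * d + 1, a i = s i * algebraMap k K (al i) := by
    intro i hi
    simp only [hs, hal]
    split_ifs with h
    · simp
    · rw [ht i hi, ← ha', ← hb']
      field_simp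
  have hsb : ∀ i ≤ 2 * d + 1, b i = s i * algebraMap k K (be i) := by
    intro i hi
    simp only [hs, hbe]
    split_ifs with h
    · simp [h]
    · simp
  -- values of the conjugated map
  have hval1 : ∀ (R : K[X]) (i : ℕ), R.natDegree ≤ d → hev (hev R d U0 W0) d (a i) (b i) =
      δ ^ d * R.eval (x i) := by
    intro R i hR
    have h1 := hev_comp R d dU0 dW0 (a i) (b i)
    rw [mul_one] at h1
    rw [h1, hU0, hW0, hev_linear, hev_linear]
    have e1 : algebraMap K K m22 * a i + algebraMap K K (-m12) * b i = δ * x i := by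
      simp only [ha, hb, hδ, Algebra.algebraMap_self, RingHom.id_apply]; ring
    have e2 : algebraMap K K (-m21) * a i + algebraMap K K m11 * b i = δ * 1 := by
      simp only [ha, hb, hδ, Algebra.algebraMap_self, RingHom.id_apply]; ring
    rw [e1, e2, hev_smul_arg, hev_eq_eval R d hR _ _ one_ne_zero]
    simp
  have hvalP : ∀ i ≤ 2 * d, hev Pt d (a i) (b i) = δ ^ d * Q.eval (x i) * a (i + 1) := by
    intro i hi
    obtain ⟨hQ0, hx1⟩ := hx i hi
    rw [hPt, hev_add, hev_C_mul, hev_C_mul, hP1, hQ1, hval1 P i hP, hval1 Q i hQ]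
    simp only [ha, hx1, Algebra.algebraMap_self, RingHom.id_apply]
    field_simp
  have hvalQ : ∀ i ≤ 2 * d, hev Qt d (a i) (b i) = δ ^ d * Q.eval (x i) * b (i + 1) := by
    intro i hi
    obtain ⟨hQ0, hx1⟩ := hx i hi
    rw [hQt, hev_add, hev_C_mul, hev_C_mul, hP1, hQ1, hval1 P i hP, hval1 Q i hQ]
    simp only [hb, hx1, Algebra.algebraMap_self, RingHom.id_apply]
    field_simp
  -- the same in terms of the constants
  have hkey : ∀ i ≤ 2 * d, ∃ κ : K, hev Pt d (algebraMap k K (al i)) (algebraMap k K (be i)) =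
      κ * algebraMap k K (al (i + 1)) ∧
      hev Qt d (algebraMap k K (al i)) (algebraMap k K (be i)) = κ * algebraMap k K (be (i + 1)) := by
    intro i hi
    have h1 := hvalP i hi
    have h2 := hvalQ i hi
    rw [hsa i (by omega), hsb i (by omega), hev_smul_arg, hsa (i + 1) (by omega)] at h1
    rw [hsa i (by omega), hsb i (by omega), hev_smul_arg, hsb (i + 1) (by omega)] at h2
    have h3 := pow_ne_zero d (hs0 i)
    refine ⟨δ ^ d * Q.eval (x i) * s (i + 1) / s i ^ d, ?_, ?_⟩
    · field_simp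
      linear_combination h1
    · field_simp
      linear_combination h2
  -- a functional
  obtain ⟨φ, hφ⟩ : ∃ φ : Module.Dual k K, φ (Pt.coeff d) ≠ 0 ∨ φ (Qt.coeff d) ≠ 0 := by
    by_contra hcon
    push Not at hcon
    rcases topt with h | h
    · exact h ((Module.forall_dual_apply_eq_zero_iff k _).mp fun φ => (hcon φ).1)
    · exact h ((Module.forall_dual_apply_eq_zero_iff k _).mp fun φ => (hcon φ).2)
  let app : K[X] → k[X] := fun F => ∑ j ∈ range (d + 1), C (φ (F.coeff j)) * X ^ j
  have app_coeff : ∀ (F : K[X]) (j : ℕ), j ≤ d → (app F).coeff j = φ (F.coeff j) := by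
    intro F j hj
    change (∑ j ∈ range (d + 1), C (φ (F.coeff j)) * X ^ j).coeff j = _
    rw [finsetSum_coeff, sum_eq_single j]
    · simp
    · intro i _ hi
      rw [coeff_C_mul_X_pow, if_neg (Ne.symm hi)]
    · intro h; exact absurd (mem_range.mpr (by omega)) h
  have app_deg : ∀ F : K[X], (app F).natDegree ≤ d := by
    intro F
    apply natDegree_sum_le_of_forall_le
    intro i hi
    refine (natDegree_C_mul_X_pow_le _ _).trans ?_
    rw [mem_range] at hi
    omega
  have app_hev : ∀ (F : K[X]) (u w c : k),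
      φ (hev F d (algebraMap k K u) (algebraMap k K w) * algebraMap k K c) =
        hev (app F) d u w * c := by
    intro F u w c
    unfold hev
    rw [sum_mul, sum_mul, map_sum]
    apply sum_congr rfl
    intro j hj
    rw [mem_range] at hj
    rw [app_coeff F j (by omega)]
    have : algebraMap K K (F.coeff j) * algebraMap k K u ^ j * algebraMap k K w ^ (d - j) *
        algebraMap k K c = (u ^ j * w ^ (d - j) * c) • F.coeff j := by
      rw [Algebra.smul_def, map_mul, map_mul, map_pow, map_pow, Algebra.algebraMap_self,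
        RingHom.id_apply]
      ring
    rw [this, map_smul, smul_eq_mul, Algebra.algebraMap_self, RingHom.id_apply]
    ring
  set P' := app Pt with hP'
  set Q' := app Qt with hQ'
  have hsys : ∀ i ≤ 2 * d, hev P' d (al i) (be i) * be (i + 1) = hev Q' d (al i) (be i) * al (i + 1) := by
    intro i hi
    obtain ⟨κ, h1, h2⟩ := hkey i hi
    rw [← app_hev, ← app_hev, h1, h2]
    congr 1
    ring
  set PK := P'.map (algebraMap k K) with hPK
  set QK := Q'.map (algebraMap k K) with hQK
  have dPK : PK.natDegree ≤ d := natDegree_map_le.trans (app_deg _)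
  have dQK : QK.natDegree ≤ d := natDegree_map_le.trans (app_deg _)
  have hsysK : ∀ i ≤ 2 * d, hev PK d (algebraMap k K (al i)) (algebraMap k K (be i)) *
      algebraMap k K (be (i + 1)) = hev QK d (algebraMap k K (al i)) (algebraMap k K (be i)) *
      algebraMap k K (al (i + 1)) := by
    intro i hi
    have h1 := congrArg (algebraMap k K) (hsys i hi)
    rw [map_mul, map_mul] at h1
    have h2 := hev_map (Algebra.ofId k K) P' d (al i) (be i)
    have h3 := hev_map (Algebra.ofId k K) Q' d (al i) (be i)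
    rw [Algebra.ofId_apply, Algebra.ofId_apply, Algebra.ofId_apply] at h2 h3
    rw [h2, h3] at h1
    rw [hPK, hQK, hev_map_poly, hev_map_poly]
    exact h1
  -- the resultant-like polynomial vanishes
  set R : K[X] := PK * Qt - QK * Pt with hR
  have dR : R.natDegree ≤ d + d :=
    (natDegree_sub_le_of_le (natDegree_mul_le.trans (Nat.add_le_add dPK dQt))
      (natDegree_mul_le.trans (Nat.add_le_add dQK dPt))).trans (max_self _).le
  have hRval : ∀ i ≤ 2 * d, hev R (d + d) (algebraMap k K (al i)) (algebraMap k K (be i)) = 0 := by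
    intro i hi
    obtain ⟨κ, h1, h2⟩ := hkey i hi
    have h3 := hsysK i hi
    have e1 : R = PK * Qt + C (-1) * (QK * Pt) := by
      rw [hR, C_neg, C_1]; ring
    rw [e1, hev_add, hev_C_mul, hev_mul dPK dQt, hev_mul dQK dPt, h1, h2]
    rw [Algebra.algebraMap_self, RingHom.id_apply]
    linear_combination κ * h3
  have hR0 : R = 0 := by
    have hb2 : ∀ i ≤ 2 * d, b i = 0 ↔ i = 2 := by
      intro i hi
      rw [hb', mul_eq_zero]
      constructor
      · rintro (h | h)
        · exact hinj i hi 2 (by omega) (sub_eq_zero.mp h)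
        · exact absurd h h01
      · rintro rfl; left; ring
    have htopR : R.coeff (d + d) = 0 := by
      have h1 := hRval 2 (by omega)
      have h2 : b 2 = 0 := (hb2 2 (by omega)).mpr rfl
      simp only [hal, hbe, if_pos h2, map_one, map_zero, hev_right_zero, one_pow, mul_one,
        Algebra.algebraMap_self, RingHom.id_apply] at h1
      exact h1
    by_contra hRne
    have hdeg : R.natDegree < d + d := by
      refine lt_of_le_of_ne dR ?_
      intro h
      rw [← h] at htopR
      exact hRne (leadingCoeff_eq_zero.mp htopR)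
    apply hRne
    set I := (range (2 * d + 1)).erase 2 with hI
    have hinjt : Set.InjOn (fun i => a i / b i) (I : Set ℕ) := by
      intro i hi j hj hij
      simp only [hI, coe_erase, coe_range, Set.mem_sdiff, Set.mem_Iio, Set.mem_singleton_iff] at hi hj
      have bi : b i ≠ 0 := fun h => hi.2 ((hb2 i (by omega)).mp h)
      have bj : b j ≠ 0 := fun h => hj.2 ((hb2 j (by omega)).mp h)
      simp only at hij
      rw [div_eq_div_iff bi bj] at hij
      have h1 : δ * (x i - x j) = 0 := by
        have : a i * b j - a j * b i = δ * (x i - x j) := by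
          simp only [ha, hb, hδ]; ring
        rw [← this, hij]; ring
      rcases mul_eq_zero.mp h1 with h | h
      · exact absurd h hδ0
      · exact hinj i (by omega) j (by omega) (sub_eq_zero.mp h)
    apply eq_zero_of_natDegree_lt_card_of_eval_eq_zero' R (I.image fun i => a i / b i)
    · intro y hy
      obtain ⟨i, hi, rfl⟩ := mem_image.mp hy
      rw [hI, mem_erase, mem_range] at hi
      have bi : b i ≠ 0 := fun h => hi.1 ((hb2 i (by omega)).mp h)
      have h1 := hRval i (by omega)
      simp only [hal, hbe, if_neg bi, map_one] at h1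
      rw [hev_eq_eval R _ dR _ _ one_ne_zero, ht i (by omega), ← ha', ← hb'] at h1
      simpa using h1
    · rw [card_image_of_injOn hinjt, hI, card_erase_of_mem (mem_range.mpr (by omega)), card_range]
      omega
  have hcomm : PK * Qt = QK * Pt := sub_eq_zero.mp hR0
  obtain ⟨e, heP, heQ⟩ : ∃ e : K[X], PK = e * Pt ∧ QK = e * Qt := by
    obtain ⟨s', t', hst⟩ := copt
    refine ⟨s' * PK + t' * QK, ?_, ?_⟩
    · linear_combination (-PK) * hst + t' * hcomm
    · linear_combination (-QK) * hst - s' * hcomm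
  have hKtop : PK.coeff d ≠ 0 ∨ QK.coeff d ≠ 0 := by
    rw [hPK, hQK, coeff_map, coeff_map, hP', hQ', app_coeff _ _ le_rfl, app_coeff _ _ le_rfl]
    rcases hφ with h | h
    · left; exact (_root_.map_ne_zero _).mpr h
    · right; exact (_root_.map_ne_zero _).mpr h
  have he0 : e ≠ 0 := by
    rintro rfl
    rw [zero_mul] at heP heQ
    rw [heP, heQ] at hKtop
    simp at hKtop
  have hedeg : e.natDegree = 0 := by
    rcases topt with h | h
    · have h1 : Pt.natDegree = d := natDegree_eq_of_le_of_coeff_ne_zero dPt h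
      have hPt0 : Pt ≠ 0 := by rintro h2; rw [h2, coeff_zero] at h; exact h rfl
      have h2 := natDegree_mul he0 hPt0
      rw [← heP, h1] at h2
      omega
    · have h1 : Qt.natDegree = d := natDegree_eq_of_le_of_coeff_ne_zero dQt h
      have hQt0 : Qt ≠ 0 := by rintro h2; rw [h2, coeff_zero] at h; exact h rfl
      have h2 := natDegree_mul he0 hQt0
      rw [← heQ, h1] at h2
      omega
  obtain ⟨c', hc'⟩ : ∃ c', e = C c' := ⟨e.coeff 0, eq_C_of_natDegree_eq_zero hedeg⟩
  have hc0 : c' ≠ 0 := by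
    rintro rfl; rw [hc', C_0] at he0; exact he0 rfl
  have hcc : C (δ * c')⁻¹ * (C δ * C c') = (1 : K[X]) := by
    rw [← C_mul, ← C_mul, inv_mul_cancel₀ (mul_ne_zero hδ0 hc0), C_1]
  refine ⟨!![m22, -m12; -m21, m11], P', Q', (δ * c')⁻¹, ?_, inv_ne_zero (mul_ne_zero hδ0 hc0),
    app_deg _, app_deg _, ?_, ?_, ?_, ?_⟩
  · rw [Matrix.det_fin_two_of]
    have : m22 * m11 - -m12 * -m21 = δ := by rw [hδ]; ring
    rw [this]; exact hδ0
  · rw [← hPK, ← hQK, heP, heQ, hc']
    have hu : IsUnit (C c' : K[X]) := isUnit_C.mpr hc0.isUnit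
    exact (isCoprime_mul_unit_left hu Pt Qt).mpr copt
  · rcases hφ with h | h
    · left; rw [hP', app_coeff _ _ le_rfl]; exact h
    · right; rw [hQ', app_coeff _ _ le_rfl]; exact h
  · simp only [Matrix.of_apply, Matrix.cons_val', Matrix.cons_val_zero, Matrix.cons_val_one,
      Matrix.cons_val_fin_one]
    change P1 = C (δ * c')⁻¹ * (C m22 * PK + C (-m12) * QK)
    rw [heP, heQ, hc']
    linear_combination (-P1) * hcc + (C (δ * c')⁻¹ * C c') * eP1
  · simp only [Matrix.of_apply, Matrix.cons_val', Matrix.cons_val_zero, Matrix.cons_val_one,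
      Matrix.cons_val_fin_one]
    change Q1 = C (δ * c')⁻¹ * (C (-m21) * PK + C m11 * QK)
    rw [heP, heQ, hc']
    linear_combination (-Q1) * hcc + (C (δ * c')⁻¹ * C c') * eQ1

/-- The same, evaluated at pairs in field extensions. -/
theorem exists_conj_of_cross' {P Q : K[X]} {d : ℕ} (hd : 1 ≤ d) (hPQ : IsCoprime P Q)
    (hP : P.natDegree ≤ d) (hQ : Q.natDegree ≤ d) (htop : P.coeff d ≠ 0 ∨ Q.coeff d ≠ 0)
    (x : ℕ → K)
    (hx : ∀ i ≤ 2 * d, Q.eval (x i) ≠ 0 ∧ x (i + 1) = P.eval (x i) / Q.eval (x i))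
    (hinj : ∀ i ≤ 2 * d, ∀ j ≤ 2 * d, x i = x j → i = j)
    (hcross : ∀ i ≤ 2 * d + 1, ∃ c : k,
      algebraMap k K c = (x i - x 0) * (x 1 - x 2) / ((x i - x 2) * (x 1 - x 0))) :
    ∃ (A : Matrix (Fin 2) (Fin 2) K) (P' Q' : k[X]) (c : K), A.det ≠ 0 ∧ c ≠ 0 ∧
      P'.natDegree ≤ d ∧ Q'.natDegree ≤ d ∧
      IsCoprime (P'.map (algebraMap k K)) (Q'.map (algebraMap k K)) ∧
      (P'.coeff d ≠ 0 ∨ Q'.coeff d ≠ 0) ∧
      ∀ v : Fin 2 → K, ![hev P d (A.mulVec v 0) (A.mulVec v 1), hev Q d (A.mulVec v 0) (A.mulVec v 1)] =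
        c • A.mulVec ![hev (P'.map (algebraMap k K)) d (v 0) (v 1),
          hev (Q'.map (algebraMap k K)) d (v 0) (v 1)] := by
  obtain ⟨A, P', Q', c, hA, hc, dP', dQ', hcop, htop', h1, h2⟩ :=
    exists_conj_of_cross hd hPQ hP hQ htop x hx hinj hcross
  refine ⟨A, P', Q', c, hA, hc, dP', dQ', hcop, htop', ?_⟩
  intro v
  have e0 : A.mulVec v 0 = A 0 0 * v 0 + A 0 1 * v 1 := by
    simp [Matrix.mulVec, dotProduct, Fin.sum_univ_two]
  have e1 : A.mulVec v 1 = A 1 0 * v 0 + A 1 1 * v 1 := by
    simp [Matrix.mulVec, dotProduct, Fin.sum_univ_two]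
  have key : ∀ R : K[X], hev R d (A.mulVec v 0) (A.mulVec v 1) =
      hev (hev R d (C (A 0 0) * X + C (A 0 1)) (C (A 1 0) * X + C (A 1 1)) : K[X]) d (v 0) (v 1) := by
    intro R
    have h3 := hev_comp R d (q := 1) (U := C (A 0 0) * X + C (A 0 1))
      (W := C (A 1 0) * X + C (A 1 1)) natDegree_linear_le natDegree_linear_le (v 0) (v 1)
    rw [mul_one] at h3
    rw [h3, hev_linear, hev_linear, e0, e1]
    simp only [Algebra.algebraMap_self, RingHom.id_apply]
  rw [key, key, h1, h2]
  simp only [hev_C_mul, hev_add, Algebra.algebraMap_self, RingHom.id_apply]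
  ext i
  fin_cases i
  · simp
  · simp

/-- The polynomial identities of `exists_conj_of_cross`, evaluated at pairs in a field extension `L`, in
the language of forms in two variables. -/
theorem conj_aeval {L : Type*} [Field L] [Algebra K L] [Algebra k L] [IsScalarTower k K L]
    {P Q : K[X]} {d : ℕ} {A : Matrix (Fin 2) (Fin 2) K} {P' Q' : k[X]} {c : K}
    (h1 : (hev P d (C (A 0 0) * X + C (A 0 1)) (C (A 1 0) * X + C (A 1 1)) : K[X]) =
        C c * (C (A 0 0) * P'.map (algebraMap k K) + C (A 0 1) * Q'.map (algebraMap k K)))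
    (h2 : (hev Q d (C (A 0 0) * X + C (A 0 1)) (C (A 1 0) * X + C (A 1 1)) : K[X]) =
        C c * (C (A 1 0) * P'.map (algebraMap k K) + C (A 1 1) * Q'.map (algebraMap k K)))
    (v : Fin 2 → L) :
    ![MvPolynomial.aeval ((A.map (algebraMap K L)).mulVec v) (P.homogenize d),
      MvPolynomial.aeval ((A.map (algebraMap K L)).mulVec v) (Q.homogenize d)] =
    algebraMap K L c • (A.map (algebraMap K L)).mulVec
      ![MvPolynomial.aeval v (P'.homogenize d), MvPolynomial.aeval v (Q'.homogenize d)] := by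
  rw [aeval_homogenize, aeval_homogenize, aeval_homogenize, aeval_homogenize]
  have e0 : (A.map (algebraMap K L)).mulVec v 0 =
      algebraMap K L (A 0 0) * v 0 + algebraMap K L (A 0 1) * v 1 := by
    simp [Matrix.mulVec, dotProduct, Fin.sum_univ_two]
  have e1 : (A.map (algebraMap K L)).mulVec v 1 =
      algebraMap K L (A 1 0) * v 0 + algebraMap K L (A 1 1) * v 1 := by
    simp [Matrix.mulVec, dotProduct, Fin.sum_univ_two]
  have key : ∀ R : K[X], hev R d ((A.map (algebraMap K L)).mulVec v 0)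
      ((A.map (algebraMap K L)).mulVec v 1) =
      hev (hev R d (C (A 0 0) * X + C (A 0 1)) (C (A 1 0) * X + C (A 1 1)) : K[X]) d (v 0) (v 1) := by
    intro R
    have h3 := hev_comp R d (q := 1) (U := C (A 0 0) * X + C (A 0 1))
      (W := C (A 1 0) * X + C (A 1 1)) natDegree_linear_le natDegree_linear_le (v 0) (v 1)
    rw [mul_one] at h3
    rw [h3, hev_linear, hev_linear, e0, e1]
  rw [key, key, h1, h2]
  simp only [hev_C_mul, hev_add, hev_map_poly]
  ext i
  fin_cases i
  · simp [Matrix.mulVec, dotProduct, Fin.sum_univ_two]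
  · simp [Matrix.mulVec, dotProduct, Fin.sum_univ_two]

end iso

end Pool.Agent.Helper93.RatODE
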