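import Pool.Agent.Helper93.RatRiccati
import Pool.Agent.Helper93.RatIso

/-!
# Orbits satisfying a Riccati equation come from isotrivial maps
-/

set_option autoImplicit false

open Finset Polynomial

namespace Pool.Agent.Helper93.RatODE

/-- If the first points of an orbit satisfy a common Riccati equation (`ker D = k`), the map is conjugate
over `K` to a map over `k`. -/
theorem exists_conj_of_riccati {k K : Type*} [Field k] [Field K] [Algebra k K] {D : K → K}
    (hadd : ∀ x y, D (x + y) = D x + D y) (hmul : ∀ x y, D (x * y) = x * D y + y * D x)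
    (hker : ∀ y, D y = 0 → ∃ c : k, algebraMap k K c = y)
    {P Q : K[X]} {d : ℕ} (hd : 1 ≤ d) (hPQ : IsCoprime P Q)
    (hP : P.natDegree ≤ d) (hQ : Q.natDegree ≤ d) (htop : P.coeff d ≠ 0 ∨ Q.coeff d ≠ 0)
    (x : ℕ → K)
    (hx : ∀ i ≤ 2 * d, Q.eval (x i) ≠ 0 ∧ x (i + 1) = P.eval (x i) / Q.eval (x i))
    (hinj : ∀ i ≤ 2 * d, ∀ j ≤ 2 * d, x i = x j → i = j)
    {α β γ : K} (hric : ∀ i ≤ 2 * d + 1, D (x i) = α * x i ^ 2 + β * x i + γ) :
    ∃ (A : Matrix (Fin 2) (Fin 2) K) (P' Q' : k[X]) (c : K), A.det ≠ 0 ∧ c ≠ 0 ∧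
      P'.natDegree ≤ d ∧ Q'.natDegree ≤ d ∧
      IsCoprime (P'.map (algebraMap k K)) (Q'.map (algebraMap k K)) ∧
      (P'.coeff d ≠ 0 ∨ Q'.coeff d ≠ 0) ∧
      (hev P d (C (A 0 0) * X + C (A 0 1)) (C (A 1 0) * X + C (A 1 1)) : K[X]) =
        C c * (C (A 0 0) * P'.map (algebraMap k K) + C (A 0 1) * Q'.map (algebraMap k K)) ∧
      (hev Q d (C (A 0 0) * X + C (A 0 1)) (C (A 1 0) * X + C (A 1 1)) : K[X]) =
        C c * (C (A 1 0) * P'.map (algebraMap k K) + C (A 1 1) * Q'.map (algebraMap k K)) := by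
  apply exists_conj_of_cross hd hPQ hP hQ htop x hx hinj
  intro i hi
  exact hker _ (D_cross_eq_zero hadd hmul (hric i hi) (hric 1 (by omega)) (hric 0 (by omega))
    (hric 2 (by omega)))

end Pool.Agent.Helper93.RatODE
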