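import Pool.Agent.Helper93.RatHev
import Pool.Agent.Helper33.UB.ODE

/-!
# A rational differential equation along an orbit of a rational map is a Riccati equation
-/

set_option autoImplicit false

open Finset Polynomial

namespace Pool.Agent.Helper93.RatODE

open Pool.Agent.Helper33.UB (mapD mapD_natDegree D_eval)

variable {K : Type*} [Field K]

section derivation

variable {D : K → K}

lemma D_zero (hadd : ∀ x y, D (x + y) = D x + D y) : D 0 = 0 := by
  have h := hadd 0 0
  rw [add_zero] at h
  exact left_eq_add.mp h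

lemma D_sub (hadd : ∀ x y, D (x + y) = D x + D y) (x y : K) : D (x - y) = D x - D y := by
  have h := hadd (x - y) y
  rw [sub_add_cancel] at h
  rw [h]; ring

lemma D_div (hmul : ∀ x y, D (x * y) = x * D y + y * D x) {u w : K} (hw : w ≠ 0) :
    w ^ 2 * D (u / w) = w * D u - u * D w := by
  have h := hmul (u / w) w
  rw [div_mul_cancel₀ u hw] at h
  rw [h]
  field_simp
  ring

end derivation

variable [DecidableEq K]

/-- **A rational differential equation along an orbit is a Riccati equation.** -/
theorem riccati_of_ode {D : K → K} (hadd : ∀ x y, D (x + y) = D x + D y)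
    (hmul : ∀ x y, D (x * y) = x * D y + y * D x) {U W : K[X]} (hcop : IsCoprime U W) {q : ℕ}
    (hU : U.natDegree ≤ q) (hW : W.natDegree ≤ q) (hmax : U.coeff q ≠ 0 ∨ W.coeff q ≠ 0)
    (r : ℕ) (hr : r < q)
    (Y' : Finset K) (hW0 : ∀ y ∈ Y', W.eval y ≠ 0) (hY' : (r + 1) * q + r < Y'.card)
    (hY : r + 1 < (Y'.image fun y => U.eval y / W.eval y).card)
    {A Cp A' C' : K[X]} (h0 : A ≠ 0 ∨ Cp ≠ 0) (hA : A.natDegree ≤ r - 1) (hAr : A ≠ 0 → 1 ≤ r)
    (hC : Cp.natDegree ≤ r + 1)
    (hrel : ∀ y ∈ Y', A.eval (U.eval y / W.eval y) * D (U.eval y / W.eval y) =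
      Cp.eval (U.eval y / W.eval y))
    (h0' : A' ≠ 0 ∨ C' ≠ 0) (hA' : A'.natDegree ≤ r - 1) (hC' : C'.natDegree ≤ r + 1)
    (hrel' : ∀ y ∈ Y', A'.eval y * D y = C'.eval y) :
    ∃ α β γ : K, ((Y'.image fun y => U.eval y / W.eval y).filter
      fun y => D y ≠ α * y ^ 2 + β * y + γ).card ≤ r := by
  set F : K → K := fun y => U.eval y / W.eval y with hF
  set Y := Y'.image F with hYdef
  have hrel2 : ∀ y ∈ Y, A.eval y * D y = Cp.eval y := by
    intro y hy
    obtain ⟨z, hz, rfl⟩ := mem_image.mp hy
    exact hrel z hz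
  have hA0' : A' ≠ 0 := by
    rintro rfl
    have hC0 : C' ≠ 0 := by
      rcases h0' with h | h
      · exact absurd rfl h
      · exact h
    apply hC0
    apply eq_zero_of_natDegree_lt_card_of_eval_eq_zero' C' Y'
    · intro y hy
      have := hrel' y hy
      rw [eval_zero, zero_mul] at this
      exact this.symm
    · have : r + 1 ≤ (r + 1) * q := Nat.le_mul_of_pos_right _ (by omega)
      omega
  have hA0 : A ≠ 0 := by
    rintro rfl
    have hC0 : Cp ≠ 0 := by
      rcases h0 with h | h
      · exact absurd rfl h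
      · exact h
    apply hC0
    apply eq_zero_of_natDegree_lt_card_of_eval_eq_zero' Cp Y
    · intro y hy
      have := hrel2 y hy
      rw [eval_zero, zero_mul] at this
      exact this.symm
    · omega
  have hr1 := hAr hA0
  -- remove the gcd
  set G := EuclideanDomain.gcd A Cp with hG
  have hG0 : G ≠ 0 := by
    rw [hG, Ne, EuclideanDomain.gcd_eq_zero_iff]
    exact fun h => hA0 h.1
  obtain ⟨A1, hA1⟩ := EuclideanDomain.gcd_dvd_left A Cp
  obtain ⟨C1, hC1⟩ := EuclideanDomain.gcd_dvd_right A Cp
  rw [← hG] at hA1 hC1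
  have hcop1 : IsCoprime A1 C1 := by
    have h1 := EuclideanDomain.gcd_eq_gcd_ab A Cp
    rw [← hG] at h1
    refine ⟨EuclideanDomain.gcdA A Cp, EuclideanDomain.gcdB A Cp, ?_⟩
    apply mul_left_cancel₀ hG0
    calc G * (EuclideanDomain.gcdA A Cp * A1 + EuclideanDomain.gcdB A Cp * C1)
        = (G * A1) * EuclideanDomain.gcdA A Cp + (G * C1) * EuclideanDomain.gcdB A Cp := by ring
      _ = A * EuclideanDomain.gcdA A Cp + Cp * EuclideanDomain.gcdB A Cp := by rw [← hA1, ← hC1]
      _ = G * 1 := by rw [← h1, mul_one]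
  have hA10 : A1 ≠ 0 := by
    rintro rfl; rw [mul_zero] at hA1; exact hA0 hA1
  set g := G.natDegree with hg
  set a := max A1.natDegree (C1.natDegree - 2) with ha
  have hgA : g + A1.natDegree ≤ r - 1 := by
    have := natDegree_mul hG0 hA10
    rw [← hA1] at this
    omega
  have hgC : g + C1.natDegree ≤ r + 1 := by
    by_cases hC10 : C1 = 0
    · rw [hC10, natDegree_zero]; omega
    have := natDegree_mul hG0 hC10
    rw [← hC1] at this
    omega
  have hga : g + a ≤ r - 1 := by
    rw [ha]; omega
  have hA1a : A1.natDegree ≤ a := le_max_left _ _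
  have hC1a : C1.natDegree ≤ a + 2 := by
    have : C1.natDegree - 2 ≤ a := le_max_right _ _
    omega
  have htop : A1.coeff a ≠ 0 ∨ C1.coeff (a + 2) ≠ 0 := by
    rcases le_total (C1.natDegree - 2) A1.natDegree with h | h
    · left
      have : a = A1.natDegree := max_eq_left h
      rw [this]
      exact leadingCoeff_ne_zero.mpr hA10
    · have h3 : a = C1.natDegree - 2 := max_eq_right h
      by_cases h2 : A1.natDegree = a
      · left
        rw [← h2]
        exact leadingCoeff_ne_zero.mpr hA10
      · right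
        have h4 : a + 2 = C1.natDegree := by omega
        rw [h4]
        refine leadingCoeff_ne_zero.mpr ?_
        rintro rfl
        simp at h4
  -- the forms
  set Ah := hev A1 a U W with hAh
  set Ch := hev C1 (a + 2) U W with hCh
  set Γ := hev G g U W with hΓ
  set Ω := W * mapD D U - U * mapD D W with hΩ
  set Δ := W * derivative U - U * derivative W with hΔ
  set E := A' * Ω + Δ * C' with hE
  have hcop2 : IsCoprime Ah Ch := hev_isCoprime hcop1 hA1a hC1a htop hcop
  have dAh : Ah.natDegree ≤ a * q := hev_natDegree A1 a hU hW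
  have dCh : Ch.natDegree ≤ (a + 2) * q := hev_natDegree C1 (a + 2) hU hW
  have dΓ : Γ.natDegree ≤ g * q := hev_natDegree G g hU hW
  have dΩ : Ω.natDegree ≤ 2 * q := by
    refine (natDegree_sub_le_of_le (m := 2 * q) (n := 2 * q) ?_ ?_).trans (max_self _).le
    · refine natDegree_mul_le.trans ?_
      have := mapD_natDegree D U
      omega
    · refine natDegree_mul_le.trans ?_
      have := mapD_natDegree D W
      omega
  have dΔ : Δ.natDegree ≤ 2 * q - 1 := by
    refine (natDegree_sub_le_of_le (m := 2 * q - 1) (n := 2 * q - 1) ?_ ?_).trans (max_self _).le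
    · refine natDegree_mul_le.trans ?_
      have := natDegree_derivative_le U
      omega
    · refine natDegree_mul_le.trans ?_
      have := natDegree_derivative_le W
      omega
  have dE : E.natDegree ≤ max (A'.natDegree + 2 * q) (2 * q + r) := by
    apply natDegree_add_le_of_le
    · exact natDegree_mul_le.trans (Nat.add_le_add_left dΩ _)
    · refine natDegree_mul_le.trans ?_
      omega
  -- values
  have hval : ∀ y ∈ Y', E.eval y = A'.eval y * (W.eval y ^ 2 * D (F y)) := by
    intro y hy
    have h1 := D_div hmul (u := U.eval y) (hW0 y hy)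
    rw [D_eval hadd hmul, D_eval hadd hmul] at h1
    have h2 := hrel' y hy
    simp only [hE, hΩ, hΔ, eval_add, eval_mul, eval_sub]
    rw [← h2]
    simp only [hF]
    rw [h1]
    ring
  have hΓval : ∀ y ∈ Y', Γ.eval y = W.eval y ^ g * G.eval (F y) := by
    intro y hy
    rw [hΓ, hev_eval, hev_eq_eval G g le_rfl _ _ (hW0 y hy)]
  have hΓ0 : Γ ≠ 0 := by
    intro h
    apply hG0
    apply eq_zero_of_natDegree_lt_card_of_eval_eq_zero' G Y
    · intro y hy
      obtain ⟨z, hz, rfl⟩ := mem_image.mp hy
      have h1 := hΓval z hz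
      rw [h, eval_zero] at h1
      rcases mul_eq_zero.mp h1.symm with h2 | h2
      · exact absurd h2 (pow_ne_zero _ (hW0 z hz))
      · exact h2
    · omega
  have hid : Ah * E = A' * Ch := by
    have h1 : (Ah * E - A' * Ch) * Γ = 0 := by
      apply eq_zero_of_natDegree_lt_card_of_eval_eq_zero' _ Y'
      · intro y hy
        rw [eval_mul, eval_sub, eval_mul, eval_mul, hval y hy, hΓval y hy]
        have hWy := hW0 y hy
        have e1 : Ah.eval y = W.eval y ^ a * A1.eval (F y) := by
          rw [hAh, hev_eval, hev_eq_eval A1 a hA1a _ _ hWy]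
        have e2 : Ch.eval y = W.eval y ^ (a + 2) * C1.eval (F y) := by
          rw [hCh, hev_eval, hev_eq_eval C1 (a + 2) hC1a _ _ hWy]
        have h3 := hrel y hy
        change A.eval (F y) * D (F y) = Cp.eval (F y) at h3
        rw [hA1, hC1, eval_mul, eval_mul] at h3
        rw [e1, e2, pow_add]
        linear_combination (W.eval y ^ a * W.eval y ^ 2 * A'.eval y * W.eval y ^ g) * h3
      · refine lt_of_le_of_lt ?_ hY'
        refine natDegree_mul_le.trans ?_
        have e1 : (Ah * E - A' * Ch).natDegree ≤ (a + 2) * q + r := by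
          refine (natDegree_sub_le_of_le (m := (a + 2) * q + r) (n := (a + 2) * q + r)
            ?_ ?_).trans (max_self _).le
          · refine natDegree_mul_le.trans ?_
            have : (a + 2) * q = a * q + 2 * q := by ring
            have h5 : E.natDegree ≤ 2 * q + r := dE.trans (max_le (by omega) le_rfl)
            omega
          · refine natDegree_mul_le.trans ?_
            omega
        have e2 : (a + 2) * q + r + g * q ≤ (r + 1) * q + r := by
          have : (a + 2) * q + g * q ≤ (r + 1) * q := by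
            rw [← add_mul]
            exact Nat.mul_le_mul_right _ (by omega)
          omega
        omega
    rcases mul_eq_zero.mp h1 with h2 | h2
    · exact sub_eq_zero.mp h2
    · exact absurd h2 hΓ0
  have hdvd : Ah ∣ A' := by
    apply hcop2.dvd_of_dvd_mul_right
    exact ⟨_, hid.symm⟩
  have hAh0 : Ah ≠ 0 := fun h => hA0' (zero_dvd_iff.mp (h ▸ hdvd))
  have hdeg1 : Ah.natDegree ≤ A'.natDegree := natDegree_le_of_dvd hdvd hA0'
  have haq : a * q ≤ r := by
    by_cases ht : Ah.natDegree = a * q
    · omega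
    · have ht' : Ah.natDegree < a * q := lt_of_le_of_ne dAh ht
      have h1 := hev_coeff_ne hcop1 hA1a hC1a htop hU hW hmax
      have h2 : Ah.coeff (a * q) = 0 := coeff_eq_zero_of_natDegree_lt ht'
      have h3 : Ch.coeff ((a + 2) * q) ≠ 0 := by
        rcases h1 with h | h
        · exact absurd h2 h
        · exact h
      have h4 : Ch.natDegree = (a + 2) * q := natDegree_eq_of_le_of_coeff_ne_zero dCh h3
      have hCh0 : Ch ≠ 0 := by
        rintro h; rw [h, coeff_zero] at h3; exact h3 rfl
      have h5 : (A' * Ch).natDegree = A'.natDegree + (a + 2) * q := by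
        rw [natDegree_mul hA0' hCh0, h4]
      have h6 : (Ah * E).natDegree ≤ Ah.natDegree + max (A'.natDegree + 2 * q) (2 * q + r) :=
        natDegree_mul_le.trans (Nat.add_le_add_left dE _)
      rw [hid, h5] at h6
      have h7 : (a + 2) * q = a * q + 2 * q := by ring
      rcases le_total (A'.natDegree + 2 * q) (2 * q + r) with h8 | h8
      · rw [max_eq_right h8] at h6; omega
      · rw [max_eq_left h8] at h6; omega
  have ha0 : a = 0 := by
    by_contra h
    have : q ≤ a * q := Nat.le_mul_of_pos_left _ (Nat.pos_of_ne_zero h)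
    omega
  have hA1deg : A1.natDegree = 0 := by omega
  have hC1deg : C1.natDegree ≤ 2 := by omega
  obtain ⟨c, hc⟩ : ∃ c, A1 = C c := ⟨A1.coeff 0, eq_C_of_natDegree_eq_zero hA1deg⟩
  have hc0 : c ≠ 0 := by
    rintro rfl; rw [hc, C_0] at hA10; exact hA10 rfl
  refine ⟨C1.coeff 2 / c, C1.coeff 1 / c, C1.coeff 0 / c, ?_⟩
  have hsub : (Y.filter fun y => D y ≠ C1.coeff 2 / c * y ^ 2 + C1.coeff 1 / c * y + C1.coeff 0 / c) ⊆
      G.roots.toFinset := by
    intro y hy
    rw [mem_filter] at hy
    rw [Multiset.mem_toFinset, mem_roots hG0, IsRoot.def]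
    by_contra hGy
    apply hy.2
    have h1 := hrel2 y hy.1
    rw [hA1, hC1, hc, eval_mul, eval_mul, eval_C, mul_assoc] at h1
    have h2 := mul_left_cancel₀ hGy h1
    have h3 : C1.eval y = C1.coeff 2 * y ^ 2 + C1.coeff 1 * y + C1.coeff 0 := by
      rw [eval_eq_sum_range' (n := 3) (by omega), sum_range_succ, sum_range_succ, sum_range_one]
      ring
    rw [h3] at h2
    field_simp
    linear_combination h2
  refine (card_le_card hsub).trans ((Multiset.toFinset_card_le _).trans ((card_roots' _).trans ?_))
  omega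

omit [DecidableEq K] in
/-- **Solutions of a Riccati equation have constant cross ratios.** -/
theorem D_cross_eq_zero {D : K → K} (hadd : ∀ x y, D (x + y) = D x + D y)
    (hmul : ∀ x y, D (x * y) = x * D y + y * D x) {α β γ a b c e : K}
    (ha : D a = α * a ^ 2 + β * a + γ) (hb : D b = α * b ^ 2 + β * b + γ)
    (hc : D c = α * c ^ 2 + β * c + γ) (he : D e = α * e ^ 2 + β * e + γ) :
    D ((a - c) * (b - e) / ((a - e) * (b - c))) = 0 := by
  by_cases hw : (a - e) * (b - c) = 0
  · rw [hw, div_zero]; exact D_zero hadd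
  have h1 := D_div hmul (u := (a - c) * (b - e)) hw
  rw [hmul, hmul, D_sub hadd, D_sub hadd, D_sub hadd, D_sub hadd, ha, hb, hc, he] at h1
  have h2 : ((a - e) * (b - c)) ^ 2 * D ((a - c) * (b - e) / ((a - e) * (b - c))) = 0 := by
    rw [h1]; ring
  rcases mul_eq_zero.mp h2 with h | h
  · exact absurd h (pow_ne_zero _ hw)
  · exact h

end Pool.Agent.Helper93.RatODE
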