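import Pool.Agent.Helper93.GateauxMain

open Topology Filter Set TopologicalSpace

namespace Pool.Agent.Helper93.GateauxChar

variable {X : Type*} [NormedAddCommGroup X] [NormedSpace ℝ X]

lemma bounded_of_compact [CompleteSpace X] {K : Set (StrongDual ℝ X)} (hK : IsWeakStarCompact K) :
    ∃ R : ℝ, 0 ≤ R ∧ ∀ k ∈ K, ‖k‖ ≤ R := by
  have hpt : ∀ x : X, ∃ C, ∀ k : K, ‖(k : StrongDual ℝ X) x‖ ≤ C := by
    intro x
    obtain ⟨C, hC⟩ := (hK.image (WeakDual.eval_continuous x)).isBounded.exists_norm_le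
    exact ⟨C, fun k => hC _ ⟨StrongDual.toWeakDual (k : StrongDual ℝ X), ⟨k, k.2, rfl⟩, rfl⟩⟩
  obtain ⟨C, hC⟩ := banach_steinhaus hpt
  exact ⟨max C 0, le_max_right _ _, fun k hk => (hC ⟨k, hk⟩).trans (le_max_left _ _)⟩

lemma dualNorm_smul {N : Seminorm ℝ X} (hN : IsEquivNorm N) (f : StrongDual ℝ X) {c : ℝ} (hc : 0 < c) :
    dualNorm N (c • f) = c * dualNorm N f := by
  have hd : ∀ g : StrongDual ℝ X, 0 ≤ dualNorm N g := fun g =>
    le_csSup (dual_bddAbove hN g) ⟨0, by simp, by simp⟩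
  have h1 : ∀ (g : StrongDual ℝ X) {a : ℝ}, 0 < a → dualNorm N (a • g) ≤ a * dualNorm N g := by
    intro g a ha
    refine dualNorm_le (mul_nonneg ha.le (hd g)) fun x => ?_
    have : (a • g) x = a * g x := rfl
    rw [this, abs_mul, abs_of_pos ha, mul_assoc]
    exact mul_le_mul_of_nonneg_left (le_dualNorm hN g x) ha.le
  refine le_antisymm (h1 f hc) ?_
  have h2 := h1 (c • f) (inv_pos.mpr hc)
  rw [smul_smul, inv_mul_cancel₀ hc.ne', one_smul] at h2
  calc c * dualNorm N f ≤ c * (c⁻¹ * dualNorm N (c • f)) := mul_le_mul_of_nonneg_left h2 hc.le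
    _ = dualNorm N (c • f) := by field_simp

/-- A weak-star compact convex set without points of weak-star to weak continuity among its support
points gives a norm as in the definition of the class `𝒞`. -/
theorem backward [CompleteSpace X] [SeparableSpace X] {K : Set (StrongDual ℝ X)} (hne : K.Nonempty)
    (hconv : Convex ℝ K) (hK : IsWeakStarCompact K)
    (h : ∀ k, IsSupportPoint K k → ¬ IsWeakStarWeakPC K k) : InClassC X := by
  obtain ⟨R, hR0, hR⟩ := bounded_of_compact hK
  set N := NN K hne hR0 hR with hN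
  have hNe : IsEquivNorm N := NN_equiv hne hR0 hR
  have hNx : ∀ x, N x = nn K x := fun x => rfl
  have hmaxi : ∀ x, N x = 1 → ∃ f ∈ CC K, f x = nn K x := by
    intro x hx
    obtain ⟨f, hf, hmax⟩ := CC.exists_max hK hne hR0 hR x
    exact ⟨f, hf, le_antisymm (le_nn hR0 hR hf x) (nn_le hne hmax)⟩
  refine ⟨N, hNe, ?_, ?_⟩
  · intro x hx
    obtain ⟨f, hf, hfx⟩ := hmaxi x hx
    exact ⟨f, gateaux hK hne hconv hR0 hR hf hfx (by rw [← hNx, hx]; norm_num)⟩
  · rintro x hx ⟨φ, hφ, hstr⟩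
    obtain ⟨f, hf, hfx⟩ := hmaxi x hx
    have hnx : nn K x = 1 := by rw [← hNx, hx]
    have hG := gateaux hK hne hconv hR0 hR hf hfx (by rw [hnx]; norm_num)
    have hφf : φ = f := by
      ext y
      exact tendsto_nhds_unique (hφ y) (hG y)
    subst hφf
    obtain ⟨r, hr, ⟨b, k, l, hb, hk, hl, hfe⟩, hq⟩ := hf
    rw [hfe] at hq
    obtain ⟨hr0, hq1, hsup⟩ := support_of_max hconv hR0 hR hnx hr hb hk hl hq
      (by rw [← hfe, hfx, hnx])
    obtain ⟨g, hgK, hglim, u, hu⟩ := seq_of_not_pc hK hk (h k hsup)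
    -- the perturbed functionals
    set F : ℕ → StrongDual ℝ X := fun n => r • (b + g n - l) with hF
    have hFB : ∀ n, F n ∈ Bd K r := fun n => ⟨b, g n, l, hb, hgK n, hl, rfl⟩
    have hFlim : ∀ y, Tendsto (fun n => F n y) atTop (𝓝 (φ y)) := by
      intro y
      have h1 : ∀ n, F n y = r * (b y + g n y - l y) := fun n => rfl
      have h2 : φ y = r * (b y + k y - l y) := by rw [hfe]; rfl
      rw [h2]
      simp only [h1]
      exact (((hglim y).const_add (b y)).sub_const (l y)).const_mul r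
    have hQ : Tendsto (fun n => QQ (F n)) atTop (𝓝 (QQ φ)) :=
      QQ_tendsto (fun n => Bd.norm_le hR hr (hFB n))
        (Bd.norm_le hR hr (f := φ) ⟨b, k, l, hb, hk, hl, hfe⟩) hFlim
    have hsq : Tendsto (fun n => Real.sqrt (r ^ 2 + QQ (F n))) atTop (𝓝 1) := by
      have h1 := (hQ.const_add (r ^ 2)).sqrt
      have h2 : r ^ 2 + QQ φ = 1 := by rw [hfe]; exact hq1
      rwa [h2, Real.sqrt_one] at h1
    have hpos : ∀ n, 0 < r ^ 2 + QQ (F n) := fun n =>
      add_pos_of_pos_of_nonneg (by positivity) (QQ_nonneg _)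
    have hd1 : ∀ n, dualNorm N (F n) ≤ Real.sqrt (r ^ 2 + QQ (F n)) := by
      intro n
      refine dualNorm_le (Real.sqrt_nonneg _) fun y => ?_
      rw [abs_le]
      have h1 := CC.smul_inv_mem hR0 hR hr (hFB n) y (hpos n)
      have h2 := CC.smul_inv_mem hR0 hR hr (hFB n) (-y) (hpos n)
      rw [← hNx] at h1 h2
      rw [map_neg, map_neg_eq_map] at h2
      constructor <;> linarith
    have hd2 : ∀ n, F n x ≤ dualNorm N (F n) := by
      intro n
      have h1 := le_dualNorm hNe (F n) x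
      rw [hx, mul_one] at h1
      exact (le_abs_self _).trans h1
    have hx1 : Tendsto (fun n => F n x) atTop (𝓝 1) := by
      have := hFlim x
      rwa [hfx, hnx] at this
    have hd : Tendsto (fun n => dualNorm N (F n)) atTop (𝓝 1) :=
      tendsto_of_tendsto_of_tendsto_of_le_of_le hx1 hsq hd2 hd1
    obtain ⟨n0, hn0⟩ := eventually_atTop.mp (hd.eventually_const_lt (show (0 : ℝ) < 1 by norm_num))
    have hpos2 : ∀ n, 0 < dualNorm N (F (n + n0)) := fun n => hn0 _ (Nat.le_add_left _ _)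
    set G : ℕ → StrongDual ℝ X := fun n => (dualNorm N (F (n + n0)))⁻¹ • F (n + n0) with hGdef
    have hG1 : ∀ n, dualNorm N (G n) = 1 := by
      intro n
      rw [hGdef]
      simp only
      rw [dualNorm_smul hNe _ (inv_pos.mpr (hpos2 n)), inv_mul_cancel₀ (hpos2 n).ne']
    have hds : Tendsto (fun n => dualNorm N (F (n + n0))) atTop (𝓝 1) :=
      (tendsto_add_atTop_iff_nat n0).mpr hd
    have hG2 : Tendsto (fun n => G n x) atTop (𝓝 1) := by
      have h1 : ∀ n, G n x = (dualNorm N (F (n + n0)))⁻¹ * F (n + n0) x := fun n => rfl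
      simp only [h1]
      have h2 : Tendsto (fun n => F (n + n0) x) atTop (𝓝 1) := (tendsto_add_atTop_iff_nat n0).mpr hx1
      have h3 := (hds.inv₀ one_ne_zero).mul h2
      simpa using h3
    have hG3 := hstr G hG1 hG2 u
    have hF3 : Tendsto (fun n => u (F (n + n0))) atTop (𝓝 (u φ)) := by
      have h1 := hds.mul hG3
      rw [one_mul] at h1
      refine h1.congr fun n => ?_
      have h2 : G n = (dualNorm N (F (n + n0)))⁻¹ • F (n + n0) := rfl
      rw [h2, map_smul, smul_eq_mul, mul_inv_cancel_left₀ (hpos2 n).ne']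
    have hF4 : Tendsto (fun n => u (F n)) atTop (𝓝 (u φ)) := (tendsto_add_atTop_iff_nat n0).mp hF3
    apply hu
    have h5 : Tendsto (fun n => r⁻¹ * u (F n) - u b + u l) atTop (𝓝 (r⁻¹ * u φ - u b + u l)) :=
      ((hF4.const_mul r⁻¹).sub_const _).add_const _
    have h6 : r⁻¹ * u φ - u b + u l = u k := by
      rw [hfe, map_smul, map_sub, map_add, smul_eq_mul, inv_mul_cancel_left₀ hr0.ne']
      ring
    rw [h6] at h5
    refine h5.congr fun n => ?_
    have h7 : F n = r • (b + g n - l) := rfl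
    rw [h7, map_smul, map_sub, map_add, smul_eq_mul, inv_mul_cancel_left₀ hr0.ne']
    ring

end Pool.Agent.Helper93.GateauxChar
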