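import Pool.Agent.Helper93.GateauxForward

open Topology Filter Set TopologicalSpace

namespace Pool.Agent.Helper93.GateauxChar

variable {X : Type*} [NormedAddCommGroup X] [NormedSpace ℝ X]

/-! ### the quadratic form -/

section Quad

variable [SeparableSpace X]

variable (X) in
/-- a sequence in the unit ball separating the points of the dual -/
noncomputable def ee (n : ℕ) : X := (1 + ‖denseSeq X n‖)⁻¹ • denseSeq X n

lemma norm_ee_le (n : ℕ) : ‖ee X n‖ ≤ 1 := by
  unfold ee
  have h : (0 : ℝ) < 1 + ‖denseSeq X n‖ := by positivity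
  rw [norm_smul, norm_inv, Real.norm_eq_abs, abs_of_pos h, inv_mul_le_iff₀ h]
  linarith

lemma eq_zero_of_ee {f : StrongDual ℝ X} (h : ∀ n, f (ee X n) = 0) : f = 0 := by
  have h1 : ∀ n, f (denseSeq X n) = 0 := fun n => by
    have h2 := h n
    unfold ee at h2
    have h3 : (0 : ℝ) < 1 + ‖denseSeq X n‖ := by positivity
    rw [map_smul, smul_eq_mul] at h2
    rcases mul_eq_zero.mp h2 with h4 | h4
    · exact absurd h4 (inv_ne_zero h3.ne')
    · exact h4
  ext x
  have := (denseRange_denseSeq X).equalizer f.continuous (continuous_const (y := (0 : ℝ)))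
    (funext fun n => h1 n)
  exact congrFun this x

/-- weights -/
noncomputable def wt (n : ℕ) : ℝ := (1 / 2) ^ (n + 1)

lemma wt_pos (n : ℕ) : 0 < wt n := by unfold wt; positivity

lemma wt_summable : Summable wt := by
  unfold wt
  exact (summable_nat_add_iff 1).mpr summable_geometric_two

lemma wt_tsum : ∑' n, wt n = 1 := by
  unfold wt
  have := tsum_geometric_two
  have h2 : (∑' n : ℕ, ((1 : ℝ) / 2) ^ (n + 1)) = (1 / 2) * ∑' n : ℕ, ((1 : ℝ) / 2) ^ n := by
    rw [← tsum_mul_left]
    congr 1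
    ext n
    rw [pow_succ]; ring
  rw [h2, this]; norm_num

/-- the bilinear form -/
noncomputable def BB (f g : StrongDual ℝ X) : ℝ := ∑' n, wt n * (f (ee X n) * g (ee X n))

lemma abs_apply_ee_le (f : StrongDual ℝ X) (n : ℕ) : |f (ee X n)| ≤ ‖f‖ := by
  have := f.le_opNorm (ee X n)
  rw [Real.norm_eq_abs] at this
  exact this.trans (mul_le_of_le_one_right (norm_nonneg f) (norm_ee_le n))

lemma bb_term_le (f g : StrongDual ℝ X) (n : ℕ) :
    ‖wt n * (f (ee X n) * g (ee X n))‖ ≤ wt n * (‖f‖ * ‖g‖) := by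
  rw [norm_mul, Real.norm_eq_abs, abs_of_pos (wt_pos n), Real.norm_eq_abs, abs_mul]
  have h1 := abs_apply_ee_le f n
  have h2 := abs_apply_ee_le g n
  have h3 : |f (ee X n)| * |g (ee X n)| ≤ ‖f‖ * ‖g‖ := by gcongr
  exact mul_le_mul_of_nonneg_left h3 (wt_pos n).le

lemma bb_summable (f g : StrongDual ℝ X) : Summable fun n => wt n * (f (ee X n) * g (ee X n)) :=
  Summable.of_norm_bounded (wt_summable.mul_right _) (bb_term_le f g)

lemma BB_add_left (f g h : StrongDual ℝ X) : BB (f + g) h = BB f h + BB g h := by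
  unfold BB
  rw [← (bb_summable f h).tsum_add (bb_summable g h)]
  congr 1; ext n
  change wt n * ((f (ee X n) + g (ee X n)) * h (ee X n)) = _
  ring

lemma BB_smul_left (c : ℝ) (f h : StrongDual ℝ X) : BB (c • f) h = c * BB f h := by
  unfold BB
  rw [← tsum_mul_left]
  congr 1; ext n
  change wt n * ((c * f (ee X n)) * h (ee X n)) = _
  ring

lemma BB_comm (f h : StrongDual ℝ X) : BB f h = BB h f := by
  unfold BB
  congr 1; ext n; ring

lemma BB_add_right (f g h : StrongDual ℝ X) : BB h (f + g) = BB h f + BB h g := by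
  rw [BB_comm, BB_add_left, BB_comm f, BB_comm g]

lemma BB_smul_right (c : ℝ) (f h : StrongDual ℝ X) : BB h (c • f) = c * BB h f := by
  rw [BB_comm, BB_smul_left, BB_comm]

/-- the quadratic form -/
noncomputable def QQ (f : StrongDual ℝ X) : ℝ := BB f f

lemma QQ_nonneg (f : StrongDual ℝ X) : 0 ≤ QQ f := by
  unfold QQ BB
  exact tsum_nonneg fun n => mul_nonneg (wt_pos n).le (mul_self_nonneg _)

lemma QQ_pos {f : StrongDual ℝ X} (hf : f ≠ 0) : 0 < QQ f := by
  have : ∃ n, f (ee X n) ≠ 0 := by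
    by_contra h
    push Not at h
    exact hf (eq_zero_of_ee h)
  obtain ⟨n, hn⟩ := this
  unfold QQ BB
  refine (bb_summable f f).tsum_pos (fun n => mul_nonneg (wt_pos n).le (mul_self_nonneg _)) n ?_
  exact mul_pos (wt_pos n) (mul_self_pos.mpr hn)

lemma QQ_le (f : StrongDual ℝ X) : QQ f ≤ ‖f‖ ^ 2 := by
  unfold QQ BB
  have h1 : (∑' n, wt n * (f (ee X n) * f (ee X n))) ≤ ∑' n, wt n * (‖f‖ * ‖f‖) := by
    refine (bb_summable f f).tsum_le_tsum (fun n => ?_) (wt_summable.mul_right _)
    exact (le_abs_self _).trans (bb_term_le f f n)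
  refine h1.trans (le_of_eq ?_)
  rw [tsum_mul_right, wt_tsum]; ring

lemma QQ_smul (c : ℝ) (f : StrongDual ℝ X) : QQ (c • f) = c ^ 2 * QQ f := by
  unfold QQ; rw [BB_smul_left, BB_smul_right]; ring

lemma QQ_add (f g : StrongDual ℝ X) : QQ (f + g) = QQ f + 2 * BB f g + QQ g := by
  unfold QQ; rw [BB_add_left, BB_add_right, BB_add_right, BB_comm g f]; ring

lemma QQ_neg (f : StrongDual ℝ X) : QQ (-f) = QQ f := by
  have : -f = (-1 : ℝ) • f := (neg_one_smul ℝ f).symm
  rw [this, QQ_smul]; norm_num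

/-- the quadratic form is weak-star continuous on bounded sets -/
lemma QQ_continuousOn (M : ℝ) :
    ContinuousOn (fun f : WeakDual ℝ X => QQ (WeakDual.toStrongDual f))
      (WeakDual.toStrongDual ⁻¹' Metric.closedBall 0 M) := by
  unfold QQ BB
  refine continuousOn_tsum (u := fun n => wt n * (M * M)) (fun n => ?_) (wt_summable.mul_right _) ?_
  · exact (continuous_const.mul ((WeakDual.eval_continuous (ee X n)).mul
      (WeakDual.eval_continuous (ee X n)))).continuousOn
  · intro n f hf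
    have hf' : ‖WeakDual.toStrongDual f‖ ≤ M := by simpa using hf
    refine (bb_term_le _ _ n).trans ?_
    have := norm_nonneg (WeakDual.toStrongDual f)
    exact mul_le_mul_of_nonneg_left (mul_le_mul hf' hf' this (this.trans hf')) (wt_pos n).le

lemma QQ_tendsto {ι : Type*} {l : Filter ι} {g : ι → StrongDual ℝ X} {k : StrongDual ℝ X} {M : ℝ}
    (hg : ∀ n, ‖g n‖ ≤ M) (hk : ‖k‖ ≤ M) (h : ∀ x, Tendsto (fun n => g n x) l (𝓝 (k x))) :
    Tendsto (fun n => QQ (g n)) l (𝓝 (QQ k)) := by
  have h1 := QQ_continuousOn (X := X) M (StrongDual.toWeakDual k) (by simpa using hk)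
  have h2 : Tendsto (fun n => StrongDual.toWeakDual (g n)) l
      (𝓝[WeakDual.toStrongDual ⁻¹' Metric.closedBall 0 M] (StrongDual.toWeakDual k)) := by
    rw [tendsto_nhdsWithin_iff]
    refine ⟨tendsto_weakDual_iff.mpr h, Eventually.of_forall fun n => ?_⟩
    simpa using hg n
  exact Tendsto.comp h1 h2

end Quad

end Pool.Agent.Helper93.GateauxChar
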