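import Pool.Agent.Helper93.GateauxBackward

open Topology Filter Set TopologicalSpace

namespace Pool.Agent.Helper93.GateauxChar

variable {X : Type*} [NormedAddCommGroup X] [NormedSpace ℝ X]

/-- the body `r (B + K - K)` -/
def Bd (K : Set (StrongDual ℝ X)) (r : ℝ) : Set (StrongDual ℝ X) :=
  {f | ∃ b k l, ‖b‖ ≤ 1 ∧ k ∈ K ∧ l ∈ K ∧ f = r • (b + k - l)}

lemma Bd.smul {K : Set (StrongDual ℝ X)} {r : ℝ} {f : StrongDual ℝ X} (h : f ∈ Bd K r) (c : ℝ) :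
    c • f ∈ Bd K (c * r) := by
  obtain ⟨b, k, l, hb, hk, hl, rfl⟩ := h
  exact ⟨b, k, l, hb, hk, hl, by rw [smul_smul]⟩

lemma Bd.neg {K : Set (StrongDual ℝ X)} {r : ℝ} {f : StrongDual ℝ X} (h : f ∈ Bd K r) :
    -f ∈ Bd K r := by
  obtain ⟨b, k, l, hb, hk, hl, rfl⟩ := h
  refine ⟨-b, l, k, by rwa [norm_neg], hl, hk, ?_⟩
  module

lemma Bd.comb {K : Set (StrongDual ℝ X)} (hK : Convex ℝ K) {r r' s t : ℝ}
    (hr : 0 ≤ r) (hr' : 0 ≤ r') (hs : 0 ≤ s) (ht : 0 ≤ t)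
    {f g : StrongDual ℝ X} (hf : f ∈ Bd K r) (hg : g ∈ Bd K r') :
    s • f + t • g ∈ Bd K (s * r + t * r') := by
  obtain ⟨b, k, l, hb, hk, hl, rfl⟩ := hf
  obtain ⟨b', k', l', hb', hk', hl', rfl⟩ := hg
  set ρ := s * r + t * r' with hρ
  have h1 : 0 ≤ s * r := mul_nonneg hs hr
  have h2 : 0 ≤ t * r' := mul_nonneg ht hr'
  rcases (add_nonneg h1 h2).eq_or_lt with h0 | h0
  · have h3 : s * r = 0 := by linarith
    have h4 : t * r' = 0 := by linarith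
    refine ⟨b, k, l, hb, hk, hl, ?_⟩
    rw [smul_smul, smul_smul, h3, h4, hρ, h3, h4]
    simp
  · set α := s * r / ρ
    set β := t * r' / ρ
    have hρ0 : 0 < ρ := h0
    have hα : 0 ≤ α := div_nonneg h1 hρ0.le
    have hβ : 0 ≤ β := div_nonneg h2 hρ0.le
    have hαβ : α + β = 1 := by
      rw [← add_div]; exact div_self hρ0.ne'
    have e1 : ρ * α = s * r := by
      change ρ * (s * r / ρ) = _
      field_simp
    have e2 : ρ * β = t * r' := by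
      change ρ * (t * r' / ρ) = _
      field_simp
    refine ⟨α • b + β • b', α • k + β • k', α • l + β • l', ?_, hK hk hk' hα hβ hαβ,
      hK hl hl' hα hβ hαβ, ?_⟩
    · calc ‖α • b + β • b'‖ ≤ ‖α • b‖ + ‖β • b'‖ := norm_add_le _ _
        _ = α * ‖b‖ + β * ‖b'‖ := by
          rw [norm_smul, norm_smul, Real.norm_eq_abs, Real.norm_eq_abs, abs_of_nonneg hα,
            abs_of_nonneg hβ]
        _ ≤ α * 1 + β * 1 := by gcongr
        _ = 1 := by linarith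
    · have : ρ • (α • b + β • b' + (α • k + β • k') - (α • l + β • l')) =
          (ρ * α) • (b + k - l) + (ρ * β) • (b' + k' - l') := by
        module
      rw [this, e1, e2, smul_smul, smul_smul]

lemma Bd.norm_le {K : Set (StrongDual ℝ X)} {R : ℝ} (hR : ∀ k ∈ K, ‖k‖ ≤ R) {r : ℝ} (hr : 0 ≤ r)
    {f : StrongDual ℝ X} (h : f ∈ Bd K r) : ‖f‖ ≤ r * (1 + 2 * R) := by
  obtain ⟨b, k, l, hb, hk, hl, rfl⟩ := h
  rw [norm_smul, Real.norm_eq_abs, abs_of_nonneg hr]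
  have h1 : ‖b + k - l‖ ≤ ‖b‖ + ‖k‖ + ‖l‖ := by
    refine (norm_sub_le _ _).trans ?_
    gcongr
    exact norm_add_le _ _
  have h2 := hR k hk
  have h3 := hR l hl
  exact mul_le_mul_of_nonneg_left (by linarith) hr

section

variable [SeparableSpace X]

/-- the dual ball of the smoothed norm -/
def CC (K : Set (StrongDual ℝ X)) : Set (StrongDual ℝ X) :=
  {f | ∃ r, 0 ≤ r ∧ f ∈ Bd K r ∧ r ^ 2 + QQ f ≤ 1}

variable {K : Set (StrongDual ℝ X)}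

lemma CC.r_le {r : ℝ} {f : StrongDual ℝ X} (h : r ^ 2 + QQ f ≤ 1) : r ≤ 1 := by
  have := QQ_nonneg f
  nlinarith [sq_nonneg (r - 1)]

lemma CC.neg {f : StrongDual ℝ X} (h : f ∈ CC K) : -f ∈ CC K := by
  obtain ⟨r, hr, hf, hq⟩ := h
  exact ⟨r, hr, Bd.neg hf, by rwa [QQ_neg]⟩

lemma CC.norm_le {R : ℝ} (hR0 : 0 ≤ R) (hR : ∀ k ∈ K, ‖k‖ ≤ R) {f : StrongDual ℝ X} (h : f ∈ CC K) :
    ‖f‖ ≤ 1 + 2 * R := by
  obtain ⟨r, hr, hf, hq⟩ := h
  refine (Bd.norm_le hR hr hf).trans ?_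
  have := CC.r_le hq
  exact mul_le_of_le_one_left (by linarith) this

/-- If `f ∈ Bd K r` then `f / √(r² + Q f) ∈ CC K`. -/
lemma CC.scale {r s : ℝ} (hr : 0 ≤ r) {f : StrongDual ℝ X} (hf : f ∈ Bd K r) (hs : 0 < s)
    (h : r ^ 2 + QQ f ≤ s ^ 2) : s⁻¹ • f ∈ CC K := by
  refine ⟨s⁻¹ * r, mul_nonneg (inv_pos.mpr hs).le hr, Bd.smul hf _, ?_⟩
  rw [QQ_smul, mul_pow, ← mul_add]
  have : (s⁻¹) ^ 2 * (r ^ 2 + QQ f) ≤ (s⁻¹) ^ 2 * s ^ 2 :=
    mul_le_mul_of_nonneg_left h (sq_nonneg _)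
  refine this.trans (le_of_eq ?_)
  field_simp

lemma half_mem {f : StrongDual ℝ X} (hne : K.Nonempty) (hf : ‖f‖ ≤ 1) : (1 / 2 : ℝ) • f ∈ CC K := by
  obtain ⟨k, hk⟩ := hne
  refine ⟨1 / 2, by norm_num, ⟨f, k, k, hf, hk, hk, by rw [add_sub_cancel_right]⟩, ?_⟩
  rw [QQ_smul]
  have h1 := QQ_le f
  have h2 : ‖f‖ ^ 2 ≤ 1 := by
    have := norm_nonneg f
    nlinarith
  nlinarith

lemma CC.compact (hK : IsWeakStarCompact K) {R : ℝ} (hR0 : 0 ≤ R) (hR : ∀ k ∈ K, ‖k‖ ≤ R) :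
    IsCompact (StrongDual.toWeakDual '' (CC K)) := by
  -- the parameter space
  let Bw : Set (WeakDual ℝ X) := WeakDual.toStrongDual ⁻¹' Metric.closedBall 0 1
  have hB : IsCompact Bw := WeakDual.isCompact_closedBall 0 1
  let Kw : Set (WeakDual ℝ X) := StrongDual.toWeakDual '' K
  have hKw : IsCompact Kw := hK
  let P : Set (ℝ × WeakDual ℝ X × WeakDual ℝ X × WeakDual ℝ X) :=
    Icc (0 : ℝ) 1 ×ˢ Bw ×ˢ Kw ×ˢ Kw
  have hP : IsCompact P := isCompact_Icc.prod (hB.prod (hKw.prod hKw))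
  let Φ : ℝ × WeakDual ℝ X × WeakDual ℝ X × WeakDual ℝ X → WeakDual ℝ X :=
    fun p => p.1 • (p.2.1 + p.2.2.1 - p.2.2.2)
  have hΦ : Continuous Φ := by
    refine continuous_fst.smul ?_
    exact ((continuous_fst.comp continuous_snd).add
      (continuous_fst.comp (continuous_snd.comp continuous_snd))).sub
      (continuous_snd.comp (continuous_snd.comp continuous_snd))
  have hmaps : ∀ p ∈ P, Φ p ∈ WeakDual.toStrongDual ⁻¹' Metric.closedBall (0 : StrongDual ℝ X) (1 + 2 * R) := by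
    rintro ⟨r, b, k, l⟩ ⟨⟨hr0, hr1⟩, hb, ⟨k', hk', rfl⟩, ⟨l', hl', rfl⟩⟩
    have hb' : ‖WeakDual.toStrongDual b‖ ≤ 1 := by simpa [Bw] using hb
    have hmem : WeakDual.toStrongDual (Φ (r, b, StrongDual.toWeakDual k', StrongDual.toWeakDual l')) ∈ Bd K r :=
      ⟨WeakDual.toStrongDual b, k', l', hb', hk', hl', rfl⟩
    have h1 := Bd.norm_le hR hr0 hmem
    have h2 : r * (1 + 2 * R) ≤ 1 + 2 * R := mul_le_of_le_one_left (by linarith) hr1
    simpa using h1.trans h2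
  have hcont : ContinuousOn (fun p => p.1 ^ 2 + QQ (WeakDual.toStrongDual (Φ p))) P := by
    refine (continuous_fst.pow 2).continuousOn.add ?_
    exact (QQ_continuousOn (1 + 2 * R)).comp hΦ.continuousOn hmaps
  have hT : IsCompact (P ∩ (fun p => p.1 ^ 2 + QQ (WeakDual.toStrongDual (Φ p))) ⁻¹' Iic 1) := by
    exact hP.of_isClosed_subset (hcont.preimage_isClosed_of_isClosed hP.isClosed isClosed_Iic)
      inter_subset_left
  have himg : StrongDual.toWeakDual '' (CC K) =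
      Φ '' (P ∩ (fun p => p.1 ^ 2 + QQ (WeakDual.toStrongDual (Φ p))) ⁻¹' Iic 1) := by
    ext f
    constructor
    · rintro ⟨g, ⟨r, hr, ⟨b, k, l, hb, hk, hl, rfl⟩, hq⟩, rfl⟩
      refine ⟨(r, StrongDual.toWeakDual b, StrongDual.toWeakDual k, StrongDual.toWeakDual l),
        ⟨⟨⟨hr, CC.r_le hq⟩, ?_, ⟨k, hk, rfl⟩, ⟨l, hl, rfl⟩⟩, hq⟩, rfl⟩
      simpa [Bw] using hb
    · rintro ⟨⟨r, b, k, l⟩, ⟨⟨⟨hr0, hr1⟩, hb, ⟨k', hk', rfl⟩, ⟨l', hl', rfl⟩⟩, hq⟩, rfl⟩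
      have hb' : ‖WeakDual.toStrongDual b‖ ≤ 1 := by simpa [Bw] using hb
      exact ⟨r • (WeakDual.toStrongDual b + k' - l'), ⟨r, hr0, ⟨_, k', l', hb', hk', hl', rfl⟩, hq⟩, rfl⟩
  rw [himg]
  exact hT.image hΦ

lemma CC.nonempty (hne : K.Nonempty) : (CC K).Nonempty := ⟨_, half_mem hne (f := 0) (by simp)⟩

lemma CC.exists_max (hK : IsWeakStarCompact K) (hne : K.Nonempty) {R : ℝ} (hR0 : 0 ≤ R)
    (hR : ∀ k ∈ K, ‖k‖ ≤ R) (x : X) : ∃ f ∈ CC K, ∀ g ∈ CC K, g x ≤ f x := by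
  obtain ⟨f, ⟨g, hg, rfl⟩, hmax⟩ := (CC.compact hK hR0 hR).exists_isMaxOn
    ((CC.nonempty hne).image _) (WeakDual.eval_continuous x).continuousOn
  exact ⟨g, hg, fun h hh => hmax (mem_image_of_mem _ hh)⟩

/-- The function `sup over CC K`. -/
noncomputable def nn (K : Set (StrongDual ℝ X)) (x : X) : ℝ := sSup ((fun f : StrongDual ℝ X => f x) '' (CC K))

lemma nn_bdd {R : ℝ} (hR0 : 0 ≤ R) (hR : ∀ k ∈ K, ‖k‖ ≤ R) (x : X) :
    BddAbove ((fun f : StrongDual ℝ X => f x) '' (CC K)) := by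
  refine ⟨(1 + 2 * R) * ‖x‖, ?_⟩
  rintro _ ⟨f, hf, rfl⟩
  have h1 := f.le_opNorm x
  rw [Real.norm_eq_abs] at h1
  have h2 := CC.norm_le hR0 hR hf
  exact ((le_abs_self _).trans h1).trans (by gcongr)

lemma le_nn {R : ℝ} (hR0 : 0 ≤ R) (hR : ∀ k ∈ K, ‖k‖ ≤ R) {f : StrongDual ℝ X} (hf : f ∈ CC K)
    (x : X) : f x ≤ nn K x := le_csSup (nn_bdd hR0 hR x) ⟨f, hf, rfl⟩

lemma nn_le (hne : K.Nonempty) {x : X} {c : ℝ} (h : ∀ f ∈ CC K, f x ≤ c) : nn K x ≤ c := by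
  apply csSup_le ((CC.nonempty hne).image _)
  rintro _ ⟨f, hf, rfl⟩
  exact h f hf

lemma nn_nonneg (hne : K.Nonempty) {R : ℝ} (hR0 : 0 ≤ R) (hR : ∀ k ∈ K, ‖k‖ ≤ R) (x : X) :
    0 ≤ nn K x := by
  have := le_nn hR0 hR (half_mem hne (f := 0) (by simp)) x
  simpa using this

/-- the smoothed norm -/
noncomputable def NN (K : Set (StrongDual ℝ X)) (hne : K.Nonempty) {R : ℝ} (hR0 : 0 ≤ R)
    (hR : ∀ k ∈ K, ‖k‖ ≤ R) : Seminorm ℝ X :=
  Seminorm.ofSMulLE (nn K)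
    (by
      apply le_antisymm
      · exact nn_le hne fun f _ => by simp
      · exact nn_nonneg hne hR0 hR 0)
    (fun x y => nn_le hne fun f hf => by
      rw [map_add]
      exact add_le_add (le_nn hR0 hR hf x) (le_nn hR0 hR hf y))
    (fun c x => nn_le hne fun f hf => by
      rw [map_smul, smul_eq_mul, Real.norm_eq_abs]
      rcases le_total 0 c with hc | hc
      · rw [abs_of_nonneg hc]
        exact mul_le_mul_of_nonneg_left (le_nn hR0 hR hf x) hc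
      · rw [abs_of_nonpos hc]
        have h1 := le_nn hR0 hR (CC.neg hf) x
        have h2 : (-f) x = -(f x) := rfl
        rw [h2] at h1
        have h3 : (-c) * (-(f x)) ≤ (-c) * nn K x := mul_le_mul_of_nonneg_left h1 (by linarith)
        linarith)

end

end Pool.Agent.Helper93.GateauxChar
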