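import Mathlib

/-!
# Gateaux norms which are nowhere strongly Gateaux differentiable: definitions
-/

open Topology Filter Set

namespace Pool.Agent.Helper93.GateauxChar

variable {X : Type*} [NormedAddCommGroup X] [NormedSpace ℝ X]

/-- The seminorm `N` is an equivalent norm on the real normed space `X`. -/
def IsEquivNorm (N : Seminorm ℝ X) : Prop :=
  ∃ a b : ℝ, 0 < a ∧ ∀ x, a * ‖x‖ ≤ N x ∧ N x ≤ b * ‖x‖

/-- `φ ∈ X*` is the Gateaux derivative of `N` at `x`. -/
def HasGateauxDeriv (N : Seminorm ℝ X) (x : X) (φ : StrongDual ℝ X) : Prop :=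
  ∀ h : X, Tendsto (fun t : ℝ => (N (x + t • h) - N x) / t) (𝓝[≠] 0) (𝓝 (φ h))

/-- The dual norm of the functional `f` with respect to the norm `N` of `X`. -/
noncomputable def dualNorm (N : Seminorm ℝ X) (f : StrongDual ℝ X) : ℝ :=
  sSup ((fun x => |f x|) '' {x | N x ≤ 1})

/-- `N` is strongly Gateaux differentiable at `x` (`N x = 1`): it is Gateaux differentiable at `x`
with derivative `φ`, and every sequence `f n` in the dual unit sphere with `f n x → 1` converges to
`φ` in the weak topology `σ(X*, X**)` of `X*`. -/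
def StronglyGateauxAt (N : Seminorm ℝ X) (x : X) : Prop :=
  ∃ φ : StrongDual ℝ X, HasGateauxDeriv N x φ ∧
    ∀ f : ℕ → StrongDual ℝ X, (∀ n, dualNorm N (f n) = 1) →
      Tendsto (fun n => f n x) atTop (𝓝 1) →
      ∀ u : StrongDual ℝ (StrongDual ℝ X), Tendsto (fun n => u (f n)) atTop (𝓝 (u φ))

variable (X) in
/-- The class `𝒞`: `X` has an equivalent norm which is Gateaux differentiable at all points of its
unit sphere, and strongly Gateaux differentiable at none of them. -/
def InClassC : Prop :=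
  ∃ N : Seminorm ℝ X, IsEquivNorm N ∧ (∀ x, N x = 1 → ∃ φ, HasGateauxDeriv N x φ) ∧
    ∀ x, N x = 1 → ¬ StronglyGateauxAt N x

/-- `K ⊆ X*` is compact in the weak-star topology `σ(X*, X)`. -/
def IsWeakStarCompact (K : Set (StrongDual ℝ X)) : Prop :=
  IsCompact (StrongDual.toWeakDual '' K)

/-- `k` is a point of weak-star to weak continuity of `K ⊆ X*`: the identity map
`(K, σ(X*, X)) → (K, σ(X*, X**))` is continuous at `k`. -/
def IsWeakStarWeakPC (K : Set (StrongDual ℝ X)) (k : StrongDual ℝ X) : Prop :=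
  ContinuousWithinAt
    (fun f : WeakDual ℝ X => toWeakSpace ℝ (StrongDual ℝ X) (WeakDual.toStrongDual f))
    (StrongDual.toWeakDual '' K) (StrongDual.toWeakDual k)

/-- `k` is a support point of `K ⊆ X*`: some `x ∈ X`, `x ≠ 0`, attains its maximum over `K`
at `k`. -/
def IsSupportPoint (K : Set (StrongDual ℝ X)) (k : StrongDual ℝ X) : Prop :=
  k ∈ K ∧ ∃ x : X, x ≠ 0 ∧ ∀ l ∈ K, l x ≤ k x

end Pool.Agent.Helper93.GateauxChar
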