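import Pool.Agent.Helper93.GateauxBack

open Topology Filter Set TopologicalSpace
open scoped ENNReal

namespace Pool.Agent.Helper93.GateauxChar

variable {X : Type*} [NormedAddCommGroup X] [NormedSpace ℝ X]

/-- all bounded sequences of values can be prescribed on a sequence equivalent to the basis
of `ℓ₁` -/
lemma exists_prescribed {e : ℕ → X} {c : ℝ} (hc : 0 < c)
    (he : ∀ a : ℕ →₀ ℝ, c * (a.sum fun _ t => |t|) ≤ ‖a.sum fun n t => t • e n‖)
    (b : ℕ → ℝ) (hb : ∀ n, |b n| ≤ 1) :
    ∃ f : StrongDual ℝ X, ‖f‖ ≤ 1 / c ∧ ∀ n, f (e n) = b n := by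
  let L : (ℕ →₀ ℝ) →ₗ[ℝ] X := Finsupp.linearCombination ℝ e
  let B : (ℕ →₀ ℝ) →ₗ[ℝ] ℝ := Finsupp.linearCombination ℝ b
  have hL : ∀ a, L a = a.sum fun n t => t • e n := fun a => Finsupp.linearCombination_apply ℝ a
  have hB : ∀ a, B a = a.sum fun n t => t * b n := fun a => Finsupp.linearCombination_apply ℝ a
  have hnn : ∀ a : ℕ →₀ ℝ, 0 ≤ a.sum fun _ t => |t| := fun a =>
    Finset.sum_nonneg fun _ _ => abs_nonneg _
  have hbd : ∀ a, |B a| ≤ 1 / c * ‖L a‖ := by
    intro a
    have h1 : |B a| ≤ a.sum fun _ t => |t| := by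
      rw [hB]
      refine (Finset.abs_sum_le_sum_abs _ _).trans ?_
      refine Finset.sum_le_sum fun n _ => ?_
      rw [abs_mul]
      exact mul_le_of_le_one_right (abs_nonneg _) (hb n)
    have h2 := he a
    rw [← hL] at h2
    calc |B a| ≤ a.sum fun _ t => |t| := h1
      _ = 1 / c * (c * a.sum fun _ t => |t|) := by field_simp
      _ ≤ 1 / c * ‖L a‖ := mul_le_mul_of_nonneg_left h2 (by positivity)
  have hinj : Function.Injective L := by
    rw [← LinearMap.ker_eq_bot, LinearMap.ker_eq_bot']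
    intro a ha
    have h2 := he a
    rw [← hL, ha, norm_zero] at h2
    have h3 : (a.sum fun _ t => |t|) = 0 := by
      have := hnn a
      nlinarith
    ext n
    by_contra hne
    have h4 := (Finset.sum_eq_zero_iff_of_nonneg (fun _ _ => abs_nonneg _)).mp h3 n
      (Finsupp.mem_support_iff.mpr hne)
    exact hne (abs_eq_zero.mp h4)
  let E := LinearEquiv.ofInjective L hinj
  let φ0 : LinearMap.range L →ₗ[ℝ] ℝ := B ∘ₗ (E.symm : LinearMap.range L →ₗ[ℝ] (ℕ →₀ ℝ))
  have hφ0 : ∀ a, φ0 ⟨L a, LinearMap.mem_range_self L a⟩ = B a := by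
    intro a
    have : E.symm ⟨L a, LinearMap.mem_range_self L a⟩ = a := by
      rw [LinearEquiv.symm_apply_eq]
      rfl
    change B (E.symm _) = B a
    rw [this]
  have hφb : ∀ y : LinearMap.range L, ‖φ0 y‖ ≤ 1 / c * ‖y‖ := by
    rintro ⟨y, a, rfl⟩
    rw [hφ0, Real.norm_eq_abs]
    exact hbd a
  let φ1 : StrongDual ℝ (LinearMap.range L) := φ0.mkContinuous (1 / c) hφb
  obtain ⟨g, hg1, hg2⟩ := exists_extension_norm_eq (LinearMap.range L) φ1
  refine ⟨g, ?_, fun n => ?_⟩
  · rw [hg2]
    exact LinearMap.mkContinuous_norm_le _ (by positivity) _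
  · have h1 : L (Finsupp.single n 1) = e n := by
      rw [hL]; simp
    have h2 := hg1 ⟨L (Finsupp.single n 1), LinearMap.mem_range_self L _⟩
    change g (L (Finsupp.single n 1)) = φ0 _ at h2
    rw [hφ0, hB, h1] at h2
    simpa using h2

/-- the sets considered in the minimality argument -/
def Fam (e : ℕ → X) : Set (Set (WeakDual ℝ X)) :=
  {K | Convex ℝ K ∧ IsCompact K ∧ ∀ b : ℕ → ℝ, (∀ n, |b n| ≤ 1) → ∃ k ∈ K, ∀ n, k (e n) = b n}

lemma exists_minimal {e : ℕ → X} {K0 : Set (WeakDual ℝ X)} (h0 : K0 ∈ Fam e) :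
    ∃ K, Minimal (· ∈ Fam e) K := by
  obtain ⟨K, -, hK⟩ := zorn_superset_nonempty (Fam e) (fun c hc hchain hne => by
    refine ⟨⋂₀ c, ⟨?_, ?_, ?_⟩, fun s hs => sInter_subset_of_mem hs⟩
    · exact convex_sInter fun s hs => (hc hs).1
    · obtain ⟨s, hs⟩ := hne
      exact (hc hs).2.1.of_isClosed_subset
        (isClosed_sInter fun t ht => (hc ht).2.1.isClosed) (sInter_subset_of_mem hs)
    · intro b hb
      let fib : Set (WeakDual ℝ X) := ⋂ n, {k | k (e n) = b n}
      have hfib : IsClosed fib := isClosed_iInter fun n =>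
        isClosed_eq (WeakDual.eval_continuous (e n)) continuous_const
      have : Nonempty c := hne.to_subtype
      have hint : (⋂ s : c, (s : Set (WeakDual ℝ X)) ∩ fib).Nonempty := by
        refine IsCompact.nonempty_iInter_of_directed_nonempty_isCompact_isClosed _ ?_ ?_ ?_ ?_
        · intro s t
          rcases hchain.total s.2 t.2 with h | h
          · exact ⟨s, subset_rfl, inter_subset_inter_left _ h⟩
          · exact ⟨t, inter_subset_inter_left _ h, subset_rfl⟩
        · intro s
          obtain ⟨k, hk, hkb⟩ := (hc s.2).2.2 b hb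
          exact ⟨k, hk, mem_iInter.mpr hkb⟩
        · exact fun s => (hc s.2).2.1.inter_right hfib
        · exact fun s => (hc s.2).2.1.isClosed.inter hfib
      obtain ⟨k, hk⟩ := hint
      rw [mem_iInter] at hk
      obtain ⟨s, hs⟩ := hne
      exact ⟨k, fun t ht => (hk ⟨t, ht⟩).1, fun n => mem_iInter.mp (hk ⟨s, hs⟩).2 n⟩) K0 h0
  exact ⟨K, hK⟩

/-- If `X` contains a sequence equivalent to the basis of `ℓ₁`, then some weak-star compact convex
subset of `X*` has no point of weak-star to weak continuity. -/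
theorem noPC_of_ell1_seq {e : ℕ → X} {c C : ℝ} (hc : 0 < c) (hC : ∀ n, ‖e n‖ ≤ C)
    (he : ∀ a : ℕ →₀ ℝ, c * (a.sum fun _ t => |t|) ≤ ‖a.sum fun n t => t • e n‖) :
    ∃ K : Set (StrongDual ℝ X), K.Nonempty ∧ Convex ℝ K ∧ IsWeakStarCompact K ∧
      ∀ k ∈ K, ¬ IsWeakStarWeakPC K k := by
  -- a minimal set
  have h0 : (WeakDual.toStrongDual ⁻¹' Metric.closedBall (0 : StrongDual ℝ X) (1 / c)) ∈ Fam e := by
    refine ⟨?_, WeakDual.isCompact_closedBall 0 (1 / c), fun b hb => ?_⟩
    · exact (convex_closedBall (0 : StrongDual ℝ X) (1 / c)).linear_preimage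
        (WeakDual.toStrongDual (𝕜 := ℝ) (E := X)).toLinearMap
    · obtain ⟨f, hf1, hf2⟩ := exists_prescribed hc he b hb
      refine ⟨StrongDual.toWeakDual f, ?_, hf2⟩
      simpa using hf1
  obtain ⟨K, ⟨hKconv, hKcomp, hKfib⟩, hKmin⟩ := exists_minimal h0
  -- the bidual functional
  obtain ⟨u, hu⟩ : ∃ u : StrongDual ℝ (StrongDual ℝ X),
      ∀ f : StrongDual ℝ X, Tendsto (fun n => f (e n)) (hyperfilter ℕ) (𝓝 (u f)) := by
    have hcomp : IsCompact (WeakDual.toStrongDual ⁻¹'
        Metric.closedBall (0 : StrongDual ℝ (StrongDual ℝ X)) C) := WeakDual.isCompact_closedBall 0 C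
    let ev : ℕ → WeakDual ℝ (StrongDual ℝ X) := fun n =>
      StrongDual.toWeakDual (NormedSpace.inclusionInDoubleDual ℝ X (e n))
    have hev : ∀ n, ev n ∈ WeakDual.toStrongDual ⁻¹'
        Metric.closedBall (0 : StrongDual ℝ (StrongDual ℝ X)) C := by
      intro n
      have h1 : ‖NormedSpace.inclusionInDoubleDual ℝ X (e n)‖ ≤ C :=
        (NormedSpace.double_dual_bound ℝ X (e n)).trans (hC n)
      have key : ∀ (W : Type _) [SeminormedAddCommGroup W] (w : W), ‖w‖ ≤ C →
          w ∈ Metric.closedBall (0 : W) C := fun W _ w hw => by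
        rwa [Metric.mem_closedBall, dist_zero_right]
      exact key (StrongDual ℝ (StrongDual ℝ X)) _ h1
    obtain ⟨u, -, hu⟩ := hcomp.ultrafilter_le_nhds ((hyperfilter ℕ).map ev)
      (by
        rw [le_principal_iff]
        exact Filter.mem_map.mpr (Filter.univ_mem' hev))
    refine ⟨WeakDual.toStrongDual u, fun f => ?_⟩
    have h2 : Tendsto ev (hyperfilter ℕ) (𝓝 u) := hu
    exact ((WeakDual.eval_continuous f).tendsto u).comp h2
  -- for each sign the set where `u = sign` is dense in `K`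
  have hdense : ∀ s : ℝ, |s| ≤ 1 → ∀ k ∈ K, k ∈ closure {k' ∈ K | u (WeakDual.toStrongDual k') = s} := by
    intro s hs k hk
    by_contra hcon
    have hA : Convex ℝ {k' ∈ K | u (WeakDual.toStrongDual k') = s} := by
      rintro f ⟨hf, hfs⟩ g ⟨hg, hgs⟩ a b ha hb hab
      refine ⟨hKconv hf hg ha hb hab, ?_⟩
      rw [map_add, map_smul, map_smul, map_add, map_smul, map_smul, hfs, hgs, ← add_smul, hab,
        one_smul]
    have : LocallyConvexSpace ℝ (WeakDual ℝ X) :=
      inferInstanceAs (LocallyConvexSpace ℝ (WeakBilin (topDualPairing ℝ X)))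
    obtain ⟨φ, r, hφ1, hφ2⟩ := geometric_hahn_banach_closed_point hA.closure isClosed_closure hcon
    -- the smaller set
    have hnot : ¬ (K ∩ {f | φ f ≤ r}) ∈ Fam e := by
      intro hmem
      have := hKmin hmem inter_subset_left
      exact absurd (this hk).2 (not_le.mpr hφ2)
    have hcomp' : IsCompact (K ∩ {f | φ f ≤ r}) :=
      hKcomp.inter_right (isClosed_le φ.continuous continuous_const)
    have hconv' : Convex ℝ (K ∩ {f | φ f ≤ r}) := by
      refine hKconv.inter ?_
      exact convex_halfSpace_le φ.toLinearMap.isLinear r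
    have : ∃ b : ℕ → ℝ, (∀ n, |b n| ≤ 1) ∧ ∀ k ∈ K ∩ {f | φ f ≤ r}, ¬ ∀ n, k (e n) = b n := by
      by_contra h
      push Not at h
      refine hnot ⟨hconv', hcomp', fun b hb => ?_⟩
      obtain ⟨k, hk1, hk2⟩ := h b hb
      exact ⟨k, hk1, hk2⟩
    obtain ⟨b, hb, hbK⟩ := this
    -- the image in the product is closed
    let q : WeakDual ℝ X → ℕ → ℝ := fun k n => k (e n)
    have hq : Continuous q := continuous_pi fun n => WeakDual.eval_continuous (e n)
    have hqc : IsClosed (q '' (K ∩ {f | φ f ≤ r})) := (hcomp'.image hq).isClosed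
    have hbq : b ∉ q '' (K ∩ {f | φ f ≤ r}) := by
      rintro ⟨k, hk, hkb⟩
      exact hbK k hk fun n => congrFun hkb n
    let b' : ℕ → ℕ → ℝ := fun N n => if n < N then b n else s
    have hb' : Tendsto b' atTop (𝓝 b) := by
      rw [tendsto_pi_nhds]
      intro n
      refine tendsto_const_nhds.congr' ?_
      filter_upwards [eventually_gt_atTop n] with N hN
      simp [b', hN]
    obtain ⟨N, hN⟩ := (hb'.eventually (hqc.isOpen_compl.mem_nhds hbq)).exists
    obtain ⟨k2, hk2, hk2b⟩ := hKfib (b' N) (fun n => by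
      change |if n < N then b n else s| ≤ 1
      split_ifs
      · exact hb n
      · exact hs)
    have huk : u (WeakDual.toStrongDual k2) = s := by
      refine tendsto_nhds_unique (hu (WeakDual.toStrongDual k2)) ?_
      refine Tendsto.congr' ?_ tendsto_const_nhds
      have : ∀ᶠ n in (hyperfilter ℕ : Filter ℕ), N ≤ n := by
        have h1 : ∀ᶠ n in (cofinite : Filter ℕ), N ≤ n := by
          rw [Nat.cofinite_eq_atTop]
          exact eventually_ge_atTop N
        exact Filter.Tendsto.eventually tendsto_id (hyperfilter_le_cofinite h1)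
      filter_upwards [this] with n hn
      have h1 : k2 (e n) = b' N n := hk2b n
      change s = k2 (e n)
      rw [h1]
      simp [b', not_lt.mpr hn]
    have h1 := hφ1 k2 (subset_closure ⟨hk2, huk⟩)
    exact hN ⟨k2, ⟨hk2, h1.le⟩, funext fun n => hk2b n⟩
  -- conclusion
  refine ⟨WeakDual.toStrongDual '' K, ?_, ?_, ?_, ?_⟩
  · obtain ⟨k, hk, -⟩ := hKfib (fun _ => 0) (fun _ => by simp)
    exact ⟨_, k, hk, rfl⟩
  · exact hKconv.linear_image (WeakDual.toStrongDual (𝕜 := ℝ) (E := X)).toLinearMap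
  · have : StrongDual.toWeakDual '' (WeakDual.toStrongDual '' K) = K := by
      rw [← image_comp]
      exact image_id K
    unfold IsWeakStarCompact
    rw [this]
    exact hKcomp
  · rintro _ ⟨k, hk, rfl⟩ hpc
    have himg : StrongDual.toWeakDual '' (WeakDual.toStrongDual '' K) = K := by
      rw [← image_comp]
      exact image_id K
    unfold IsWeakStarWeakPC at hpc
    rw [himg] at hpc
    have hcont : ContinuousWithinAt (fun f : WeakDual ℝ X => u (WeakDual.toStrongDual f)) K k :=
      (tendsto_weakSpace_iff (g := fun f : WeakDual ℝ X => WeakDual.toStrongDual f)).mp hpc u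
    have key : ∀ s : ℝ, |s| ≤ 1 → u (WeakDual.toStrongDual k) = s := by
      intro s hs
      have h1 := (hcont.mono (s := {k' ∈ K | u (WeakDual.toStrongDual k') = s})
        (fun _ h => h.1)).mem_closure_image (hdense s hs k hk)
      have h2 : (fun f : WeakDual ℝ X => u (WeakDual.toStrongDual f)) ''
          {k' ∈ K | u (WeakDual.toStrongDual k') = s} ⊆ {s} := by
        rintro _ ⟨f, hf, rfl⟩
        exact hf.2
      have h3 := closure_mono h2 h1
      rwa [closure_singleton] at h3
    have h1 := key 1 (by simp)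
    have h2 := key 0 (by simp)
    rw [h1] at h2
    exact one_ne_zero h2

/-- The same when `X` contains an isomorphic copy of `ℓ₁`. -/
theorem noPC_of_ell1 (T : lp (fun _ : ℕ => ℝ) 1 →L[ℝ] X) {c : ℝ} (hc : 0 < c)
    (hT : ∀ v, c * ‖v‖ ≤ ‖T v‖) :
    ∃ K : Set (StrongDual ℝ X), K.Nonempty ∧ Convex ℝ K ∧ IsWeakStarCompact K ∧
      ∀ k ∈ K, ¬ IsWeakStarWeakPC K k := by
  refine noPC_of_ell1_seq (e := fun n => T (lp.single 1 n (1 : ℝ))) (C := ‖T‖) hc (fun n => ?_)
    (fun a => ?_)
  · refine (T.le_opNorm _).trans ?_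
    rw [lp.norm_single (by norm_num)]
    simp
  · have h1 : (a.sum fun n t => t • T (lp.single 1 n (1 : ℝ))) =
        T (∑ n ∈ a.support, lp.single 1 n (a n)) := by
      rw [map_sum]
      refine Finset.sum_congr rfl fun n _ => ?_
      change a n • T (lp.single 1 n (1 : ℝ)) = T (lp.single 1 n (a n))
      rw [← map_smul]
      congr 1
      ext m
      by_cases h : m = n
      · subst h; simp
      · simp [h]
    have h2 : ‖∑ n ∈ a.support, (lp.single 1 n (a n) : lp (fun _ : ℕ => ℝ) 1)‖ =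
        ∑ n ∈ a.support, |a n| := by
      have := lp.norm_sum_single (E := fun _ : ℕ => ℝ) (p := 1) (by norm_num) (fun n => a n) a.support
      simpa using this
    rw [h1]
    refine le_trans (le_of_eq ?_) (hT _)
    rw [h2]
    rfl

end Pool.Agent.Helper93.GateauxChar
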