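import Pool.Agent.Helper93.GateauxSeq

open Topology Filter Set TopologicalSpace

namespace Pool.Agent.Helper93.GateauxChar

variable {X : Type*} [NormedAddCommGroup X] [NormedSpace ℝ X]

lemma IsEquivNorm.pos {N : Seminorm ℝ X} (hN : IsEquivNorm N) {x : X} (hx : x ≠ 0) : 0 < N x := by
  obtain ⟨a, b, ha, h⟩ := hN
  exact lt_of_lt_of_le (mul_pos ha (norm_pos_iff.mpr hx)) (h x).1

lemma dual_bddAbove {N : Seminorm ℝ X} (hN : IsEquivNorm N) (f : StrongDual ℝ X) :
    BddAbove ((fun x => |f x|) '' {x | N x ≤ 1}) := by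
  obtain ⟨a, b, ha, h⟩ := hN
  refine ⟨‖f‖ * (1 / a), ?_⟩
  rintro _ ⟨x, hx, rfl⟩
  have h1 : ‖x‖ ≤ 1 / a := by
    rw [le_div_iff₀ ha, mul_comm]
    exact (h x).1.trans hx
  calc |f x| = ‖f x‖ := (Real.norm_eq_abs _).symm
    _ ≤ ‖f‖ * ‖x‖ := f.le_opNorm x
    _ ≤ ‖f‖ * (1 / a) := by gcongr

lemma le_dualNorm {N : Seminorm ℝ X} (hN : IsEquivNorm N) (f : StrongDual ℝ X) (x : X) :
    |f x| ≤ dualNorm N f * N x := by
  rcases eq_or_ne x 0 with rfl | hx
  · simp
  have hp := hN.pos hx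
  have h1 : |f ((N x)⁻¹ • x)| ≤ dualNorm N f := by
    apply le_csSup (dual_bddAbove hN f)
    refine ⟨(N x)⁻¹ • x, ?_, rfl⟩
    change N ((N x)⁻¹ • x) ≤ 1
    rw [map_smul_eq_mul, Real.norm_eq_abs, abs_of_pos (inv_pos.mpr hp), inv_mul_cancel₀ hp.ne']
  rw [map_smul, smul_eq_mul, abs_mul, abs_of_pos (inv_pos.mpr hp), inv_mul_le_iff₀ hp] at h1
  linarith [mul_comm (N x) (dualNorm N f)]

lemma dualNorm_le {N : Seminorm ℝ X} {f : StrongDual ℝ X} {c : ℝ} (hc : 0 ≤ c)
    (h : ∀ x, |f x| ≤ c * N x) : dualNorm N f ≤ c := by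
  apply csSup_le
  · exact ⟨_, 0, by simp, rfl⟩
  · rintro _ ⟨x, hx, rfl⟩
    exact (h x).trans (by simpa using mul_le_mul_of_nonneg_left hx hc)

/-- the dual ball of an equivalent norm -/
def dualBall (N : Seminorm ℝ X) : Set (StrongDual ℝ X) := {f | ∀ x, f x ≤ N x}

lemma mem_dualBall_of_dualNorm_le {N : Seminorm ℝ X} (hN : IsEquivNorm N) {f : StrongDual ℝ X}
    (hf : dualNorm N f ≤ 1) : f ∈ dualBall N := fun x => by
  have h1 := le_dualNorm hN f x
  have h2 : dualNorm N f * N x ≤ 1 * N x := mul_le_mul_of_nonneg_right hf (apply_nonneg N x)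
  linarith [le_abs_self (f x)]

lemma dualBall_convex (N : Seminorm ℝ X) : Convex ℝ (dualBall N) := by
  intro f hf g hg s t hs ht hst x
  have h1 := hf x
  have h2 := hg x
  have : (s • f + t • g) x = s * f x + t * g x := rfl
  rw [this]
  have h3 : s * f x ≤ s * N x := mul_le_mul_of_nonneg_left h1 hs
  have h4 : t * g x ≤ t * N x := mul_le_mul_of_nonneg_left h2 ht
  calc s * f x + t * g x ≤ s * N x + t * N x := by linarith
    _ = (s + t) * N x := by ring
    _ = N x := by rw [hst, one_mul]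

lemma weakStarCompact_of_bdd_closed {K : Set (StrongDual ℝ X)} {R : ℝ} (hb : ∀ f ∈ K, ‖f‖ ≤ R)
    (hc : IsClosed (StrongDual.toWeakDual '' K)) : IsWeakStarCompact K := by
  refine WeakDual.isCompact_of_bounded_of_closed ?_ hc
  have : StrongDual.toWeakDual '' K ⊆ WeakDual.toStrongDual ⁻¹' Metric.closedBall 0 R := by
    rintro _ ⟨f, hf, rfl⟩
    simpa using hb f hf
  exact (WeakDual.isBounded_closedBall (0 : StrongDual ℝ X) R).subset this

lemma dualBall_compact {N : Seminorm ℝ X} (hN : IsEquivNorm N) : IsWeakStarCompact (dualBall N) := by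
  obtain ⟨a, b, ha, h⟩ := hN
  refine weakStarCompact_of_bdd_closed (R := |b|) (fun f hf => ?_) ?_
  · refine f.opNorm_le_bound (abs_nonneg b) fun x => ?_
    rw [Real.norm_eq_abs, abs_le]
    have h1 := hf x
    have h2 := hf (-x)
    rw [map_neg, map_neg_eq_map] at h2
    have h3 := (h x).2
    have h4 : b * ‖x‖ ≤ |b| * ‖x‖ := mul_le_mul_of_nonneg_right (le_abs_self b) (norm_nonneg x)
    constructor <;> linarith
  · have : StrongDual.toWeakDual '' (dualBall N) = ⋂ x : X, {f : WeakDual ℝ X | f x ≤ N x} := by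
      ext f
      constructor
      · rintro ⟨g, hg, rfl⟩
        exact mem_iInter.mpr fun x => hg x
      · intro hf
        exact ⟨WeakDual.toStrongDual f, fun x => mem_iInter.mp hf x, rfl⟩
    rw [this]
    exact isClosed_iInter fun x => isClosed_le (WeakDual.eval_continuous x) continuous_const

lemma HasGateauxDeriv.le {N : Seminorm ℝ X} {x : X} {φ : StrongDual ℝ X} (h : HasGateauxDeriv N x φ)
    (y : X) : φ y ≤ N y := by
  have h1 : Tendsto (fun t : ℝ => (N (x + t • y) - N x) / t) (𝓝[>] 0) (𝓝 (φ y)) :=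
    (h y).mono_left (nhdsWithin_mono _ fun t ht => ne_of_gt ht)
  refine le_of_tendsto h1 ?_
  filter_upwards [self_mem_nhdsWithin] with t ht
  have ht' : (0 : ℝ) < t := ht
  rw [div_le_iff₀ ht']
  have h2 := map_add_le_add N x (t • y)
  rw [map_smul_eq_mul, Real.norm_eq_abs, abs_of_pos ht'] at h2
  linarith [mul_comm t (N y)]

lemma HasGateauxDeriv.self {N : Seminorm ℝ X} {x : X} {φ : StrongDual ℝ X}
    (h : HasGateauxDeriv N x φ) : φ x = N x := by
  have h1 : Tendsto (fun t : ℝ => (N (x + t • x) - N x) / t) (𝓝[>] 0) (𝓝 (φ x)) :=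
    (h x).mono_left (nhdsWithin_mono _ fun t ht => ne_of_gt ht)
  refine tendsto_nhds_unique h1 ?_
  refine Tendsto.congr' ?_ tendsto_const_nhds
  filter_upwards [self_mem_nhdsWithin] with t ht
  have ht' : (0 : ℝ) < t := ht
  have h2 : x + t • x = (1 + t) • x := by rw [add_smul, one_smul]
  rw [h2, map_smul_eq_mul, Real.norm_eq_abs, abs_of_pos (by linarith)]
  field_simp
  ring

/-- if `f n` are in the dual ball and `f n x → N x`, then `f n` converges weak-star to the
Gateaux derivative -/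
lemma HasGateauxDeriv.tendsto {N : Seminorm ℝ X} {x : X} {φ : StrongDual ℝ X}
    (h : HasGateauxDeriv N x φ) {f : ℕ → StrongDual ℝ X} (hf : ∀ n, f n ∈ dualBall N)
    (hx : Tendsto (fun n => f n x) atTop (𝓝 (N x))) (y : X) :
    Tendsto (fun n => f n y) atTop (𝓝 (φ y)) := by
  -- upper estimate for all directions
  have key : ∀ z : X, ∀ ε > 0, ∀ᶠ n in atTop, f n z < φ z + ε := by
    intro z ε hε
    have h1 : Tendsto (fun t : ℝ => (N (x + t • z) - N x) / t) (𝓝[>] 0) (𝓝 (φ z)) :=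
      (h z).mono_left (nhdsWithin_mono _ fun t ht => ne_of_gt ht)
    have h2 : ∀ᶠ t in 𝓝[>] (0 : ℝ), (N (x + t • z) - N x) / t < φ z + ε / 2 :=
      h1.eventually_lt_const (by linarith)
    obtain ⟨t, ht1, ht2⟩ := (h2.and self_mem_nhdsWithin).exists
    have ht : (0 : ℝ) < t := ht2
    have h3 : ∀ᶠ n in atTop, N x - t * (ε / 2) < f n x :=
      hx.eventually_const_lt (by linarith [mul_pos ht (half_pos hε)])
    filter_upwards [h3] with n hn
    have h4 := hf n (x + t • z)
    rw [map_add, map_smul, smul_eq_mul] at h4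
    rw [div_lt_iff₀ ht] at ht1
    have h5 : t * f n z < t * (φ z + ε) := by linarith
    exact lt_of_mul_lt_mul_left h5 ht.le
  rw [Metric.tendsto_atTop']
  intro ε hε
  have h1 := key y ε hε
  have h2 := key (-y) ε hε
  obtain ⟨m, hm⟩ := eventually_atTop.mp (h1.and h2)
  refine ⟨m, fun n hn => ?_⟩
  obtain ⟨h3, h4⟩ := hm n hn.le
  rw [map_neg, map_neg] at h4
  rw [Real.dist_eq, abs_lt]
  constructor <;> linarith

/-- The dual ball of a norm as in the definition of the class `𝒞` has no point of weak-star to weak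
continuity among its support points. -/
theorem forward (h : InClassC X) :
    ∃ K : Set (StrongDual ℝ X), K.Nonempty ∧ Convex ℝ K ∧ IsWeakStarCompact K ∧
      ∀ k, IsSupportPoint K k → ¬ IsWeakStarWeakPC K k := by
  obtain ⟨N, hN, hG, hS⟩ := h
  refine ⟨dualBall N, ⟨0, fun x => by simp⟩, dualBall_convex N, dualBall_compact hN, ?_⟩
  rintro k ⟨hk, x, hx, hmax⟩ hpc
  have hp := hN.pos hx
  set y : X := (N x)⁻¹ • x with hy
  have hNy : N y = 1 := by
    rw [hy, map_smul_eq_mul, Real.norm_eq_abs, abs_of_pos (inv_pos.mpr hp), inv_mul_cancel₀ hp.ne']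
  obtain ⟨φ, hφ⟩ := hG y hNy
  have hmax' : ∀ l ∈ dualBall N, l y ≤ k y := fun l hl => by
    rw [hy, map_smul, map_smul, smul_eq_mul, smul_eq_mul]
    exact mul_le_mul_of_nonneg_left (hmax l hl) (inv_pos.mpr hp).le
  have hky : k y = 1 := by
    apply le_antisymm
    · rw [← hNy]; exact hk y
    · rw [← hNy, ← hφ.self]; exact hmax' φ fun z => hφ.le z
  have hkφ : k = φ := by
    ext z
    refine tendsto_nhds_unique (f := fun _ : ℕ => k z) (l := atTop) tendsto_const_nhds ?_
    exact hφ.tendsto (f := fun _ => k) (fun _ => hk) (by rw [hky, hNy]; exact tendsto_const_nhds) z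
  refine hS y hNy ⟨φ, hφ, fun f hf hfy u => ?_⟩
  rw [← hkφ]
  refine pc_seq hpc (fun n => mem_dualBall_of_dualNorm_le hN (hf n).le) (fun z => ?_) u
  rw [hkφ]
  exact hφ.tendsto (fun n => mem_dualBall_of_dualNorm_le hN (hf n).le) (by rw [hNy]; exact hfy) z

end Pool.Agent.Helper93.GateauxChar
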