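import Pool.Agent.Helper93.GateauxBody

open Topology Filter Set TopologicalSpace

namespace Pool.Agent.Helper93.GateauxChar

variable {X : Type*} [NormedAddCommGroup X] [NormedSpace ℝ X] [SeparableSpace X]
variable {K : Set (StrongDual ℝ X)}

lemma NN_equiv (hne : K.Nonempty) {R : ℝ} (hR0 : 0 ≤ R) (hR : ∀ k ∈ K, ‖k‖ ≤ R) :
    IsEquivNorm (NN K hne hR0 hR) := by
  refine ⟨1 / 2, 1 + 2 * R, by norm_num, fun x => ⟨?_, ?_⟩⟩
  · obtain ⟨g, hg1, hg2⟩ := exists_dual_vector'' ℝ x
    have h1 := le_nn hR0 hR (half_mem hne hg1) x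
    have h2 : ((1 / 2 : ℝ) • g) x = 1 / 2 * g x := rfl
    rw [h2, hg2] at h1
    exact h1
  · refine nn_le hne fun f hf => ?_
    have h1 := f.le_opNorm x
    rw [Real.norm_eq_abs] at h1
    have h2 := CC.norm_le hR0 hR hf
    exact ((le_abs_self _).trans h1).trans (by gcongr)

/-- if `f ∈ Bd K r` and `f x = nn K x > 0` and `r² + Q f ≤ 1` then there is equality -/
lemma eq_one_of_max {R : ℝ} (hR0 : 0 ≤ R) (hR : ∀ k ∈ K, ‖k‖ ≤ R) {x : X}
    {f : StrongDual ℝ X} {r : ℝ} (hr : 0 ≤ r) (hf : f ∈ Bd K r) (hq : r ^ 2 + QQ f ≤ 1)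
    (hx : f x = nn K x) (hpos : 0 < nn K x) : r ^ 2 + QQ f = 1 := by
  by_contra hne
  have hlt : r ^ 2 + QQ f < 1 := lt_of_le_of_ne hq hne
  have h0 : 0 ≤ r ^ 2 + QQ f := add_nonneg (sq_nonneg _) (QQ_nonneg f)
  -- choose s < 1 with r² + Q f ≤ s²
  set s := Real.sqrt ((1 + (r ^ 2 + QQ f)) / 2) with hs
  have hs2 : s ^ 2 = (1 + (r ^ 2 + QQ f)) / 2 := Real.sq_sqrt (by linarith)
  have hs0 : 0 < s := Real.sqrt_pos.mpr (by linarith)
  have hs1 : s < 1 := by
    by_contra hcon
    push Not at hcon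
    nlinarith
  have h1 := le_nn hR0 hR (CC.scale hr hf hs0 (by rw [hs2]; linarith)) x
  have h2 : (s⁻¹ • f) x = s⁻¹ * f x := rfl
  rw [h2, hx, inv_mul_le_iff₀ hs0] at h1
  nlinarith

lemma unique_max (hconv : Convex ℝ K) {R : ℝ} (hR0 : 0 ≤ R) (hR : ∀ k ∈ K, ‖k‖ ≤ R) {x : X}
    {f g : StrongDual ℝ X} (hf : f ∈ CC K) (hg : g ∈ CC K) (hfx : f x = nn K x)
    (hgx : g x = nn K x) (hpos : 0 < nn K x) : f = g := by
  obtain ⟨r, hr, hfB, hfq⟩ := hf
  obtain ⟨s, hs, hgB, hgq⟩ := hg
  by_contra hne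
  have hmid := Bd.comb hconv hr hs (show (0 : ℝ) ≤ 1 / 2 by norm_num) (show (0 : ℝ) ≤ 1 / 2 by norm_num)
    hfB hgB
  set m : StrongDual ℝ X := (1 / 2 : ℝ) • f + (1 / 2 : ℝ) • g with hm
  have hQ1 : QQ m = QQ f / 4 + BB f g / 2 + QQ g / 4 := by
    rw [hm, QQ_add, QQ_smul, QQ_smul, BB_smul_left, BB_smul_right]; ring
  have hQ2 : QQ (f - g) = QQ f - 2 * BB f g + QQ g := by
    have : f - g = f + (-1 : ℝ) • g := by module
    rw [this, QQ_add, QQ_smul, BB_smul_right]; ring
  have hQ3 : 0 < QQ (f - g) := QQ_pos (sub_ne_zero.mpr hne)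
  have hmx : m x = nn K x := by
    have : m x = 1 / 2 * f x + 1 / 2 * g x := rfl
    rw [this, hfx, hgx]; ring
  have hr' : 0 ≤ 1 / 2 * r + 1 / 2 * s := by positivity
  have hsq : (1 / 2 * r + 1 / 2 * s) ^ 2 ≤ (r ^ 2 + s ^ 2) / 2 := by nlinarith [sq_nonneg (r - s)]
  have hle : (1 / 2 * r + 1 / 2 * s) ^ 2 + QQ m < 1 := by
    rw [hQ1]
    nlinarith
  have := eq_one_of_max hR0 hR hr' hmid hle.le hmx hpos
  linarith

lemma gateaux (hK : IsWeakStarCompact K) (hne : K.Nonempty) (hconv : Convex ℝ K) {R : ℝ}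
    (hR0 : 0 ≤ R) (hR : ∀ k ∈ K, ‖k‖ ≤ R) {x : X} {f : StrongDual ℝ X} (hf : f ∈ CC K)
    (hfx : f x = nn K x) (hpos : 0 < nn K x) : HasGateauxDeriv (NN K hne hR0 hR) x f := by
  intro h
  choose g hg hgmax using fun t : ℝ => CC.exists_max hK hne hR0 hR (x + t • h)
  have hgv : ∀ t, g t (x + t • h) = nn K (x + t • h) := fun t =>
    le_antisymm (le_nn hR0 hR (hg t) _) (nn_le hne (hgmax t))
  -- the maximisers converge to `f` in the weak-star topology
  have hlim : Tendsto (fun t => StrongDual.toWeakDual (g t)) (𝓝 0) (𝓝 (StrongDual.toWeakDual f)) := by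
    refine (CC.compact hK hR0 hR).tendsto_nhds_of_unique_mapClusterPt
      (Eventually.of_forall fun t => mem_image_of_mem _ (hg t)) ?_
    rintro _ ⟨l, hl, rfl⟩ hcl
    congr 1
    refine unique_max hconv hR0 hR hl hf ?_ hfx hpos
    -- l x = nn x : along an ultrafilter
    obtain ⟨U, hU1, hU2⟩ := mapClusterPt_iff_ultrafilter.mp hcl
    have e1 : Tendsto (fun t => g t x) U (𝓝 (l x)) := tendsto_weakDual_iff.mp hU2 x
    have e2 : Tendsto (fun t => g t h) U (𝓝 (l h)) := tendsto_weakDual_iff.mp hU2 h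
    have e3 : Tendsto (fun t : ℝ => t) U (𝓝 0) := hU1
    have e4 : Tendsto (fun t => g t (x + t • h)) U (𝓝 (l x + 0 * l h)) := by
      refine (e1.add (e3.mul e2)).congr fun t => ?_
      rw [map_add, map_smul, smul_eq_mul]
    have e5 : Tendsto (fun t : ℝ => nn K (x + t • h)) U (𝓝 (nn K x)) := by
      rw [tendsto_iff_dist_tendsto_zero]
      have e6 : Tendsto (fun t : ℝ => |t| * nn K h) U (𝓝 0) := by
        have := (e3.abs).mul_const (nn K h)
        simpa using this
      refine squeeze_zero (fun t => dist_nonneg) (fun t => ?_) e6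
      rw [Real.dist_eq]
      have h1 := abs_sub_map_le_sub (NN K hne hR0 hR) (x + t • h) x
      have h2 : x + t • h - x = t • h := by abel
      rw [h2, map_smul_eq_mul, Real.norm_eq_abs] at h1
      exact h1
    have e6 : Tendsto (fun t => g t (x + t • h)) U (𝓝 (nn K x)) := by
      refine e5.congr fun t => (hgv t).symm
    have := tendsto_nhds_unique e4 e6
    rwa [zero_mul, add_zero] at this
  have hlim2 : Tendsto (fun t => g t h) (𝓝[≠] 0) (𝓝 (f h)) :=
    (tendsto_weakDual_iff.mp hlim h).mono_left nhdsWithin_le_nhds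
  have hconst : Tendsto (fun _ : ℝ => f h) (𝓝[≠] 0) (𝓝 (f h)) := tendsto_const_nhds
  have hmin : Tendsto (fun t => min (f h) (g t h)) (𝓝[≠] 0) (𝓝 (f h)) := by
    simpa using hconst.min hlim2
  have hmax : Tendsto (fun t => max (f h) (g t h)) (𝓝[≠] 0) (𝓝 (f h)) := by
    simpa using hconst.max hlim2
  refine tendsto_of_tendsto_of_tendsto_of_le_of_le' hmin hmax ?_ ?_
  all_goals
    filter_upwards [self_mem_nhdsWithin] with t ht
    have ht' : t ≠ 0 := ht
    have u1 : f x + t * f h ≤ nn K (x + t • h) := by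
      have := le_nn hR0 hR hf (x + t • h)
      rwa [map_add, map_smul, smul_eq_mul] at this
    have u2 : nn K (x + t • h) = g t x + t * g t h := by
      rw [← hgv t, map_add, map_smul, smul_eq_mul]
    have u3 : g t x ≤ nn K x := le_nn hR0 hR (hg t) x
    have u4 : t * f h ≤ nn K (x + t • h) - nn K x := by linarith
    have u5 : nn K (x + t • h) - nn K x ≤ t * g t h := by linarith
  · change min (f h) (g t h) ≤ (nn K (x + t • h) - nn K x) / t
    rcases lt_or_gt_of_ne ht' with h0 | h0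
    · refine (min_le_right _ _).trans ?_
      rw [le_div_iff_of_neg h0]
      linarith
    · refine (min_le_left _ _).trans ?_
      rw [le_div_iff₀ h0]
      linarith
  · change (nn K (x + t • h) - nn K x) / t ≤ max (f h) (g t h)
    rcases lt_or_gt_of_ne ht' with h0 | h0
    · refine le_trans ?_ (le_max_left _ _)
      rw [div_le_iff_of_neg h0]
      linarith
    · refine le_trans ?_ (le_max_right _ _)
      rw [div_le_iff₀ h0]
      linarith

lemma CC.smul_inv_mem {R : ℝ} (hR0 : 0 ≤ R) (hR : ∀ k ∈ K, ‖k‖ ≤ R) {r : ℝ} (hr : 0 ≤ r)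
    {f : StrongDual ℝ X} (hf : f ∈ Bd K r) (x : X) (hpos : 0 < r ^ 2 + QQ f) :
    f x ≤ Real.sqrt (r ^ 2 + QQ f) * nn K x := by
  have hs : 0 < Real.sqrt (r ^ 2 + QQ f) := Real.sqrt_pos.mpr hpos
  have h1 := le_nn hR0 hR (CC.scale hr hf hs (by rw [Real.sq_sqrt hpos.le])) x
  have h2 : ((Real.sqrt (r ^ 2 + QQ f))⁻¹ • f) x = (Real.sqrt (r ^ 2 + QQ f))⁻¹ * f x := rfl
  rw [h2, inv_mul_le_iff₀ hs] at h1
  exact h1

/-- The maximiser of `x` on the smoothed ball comes from a support point of `K`. -/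
lemma support_of_max [CompleteSpace X] (hconv : Convex ℝ K) {R : ℝ} (hR0 : 0 ≤ R) (hR : ∀ k ∈ K, ‖k‖ ≤ R) {x : X}
    (hx : nn K x = 1) {r : ℝ} (hr : 0 ≤ r) {b k l : StrongDual ℝ X} (hb : ‖b‖ ≤ 1) (hk : k ∈ K)
    (hl : l ∈ K) (hq : r ^ 2 + QQ (r • (b + k - l)) ≤ 1)
    (hmax : (r • (b + k - l)) x = 1) :
    0 < r ∧ r ^ 2 + QQ (r • (b + k - l)) = 1 ∧ IsSupportPoint K k := by
  set f : StrongDual ℝ X := r • (b + k - l) with hf
  have hfB : f ∈ Bd K r := ⟨b, k, l, hb, hk, hl, rfl⟩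
  have hr0 : 0 < r := by
    rcases hr.eq_or_lt with h | h
    · exfalso
      rw [hf, ← h, zero_smul] at hmax
      simp at hmax
    · exact h
  have heq : r ^ 2 + QQ f = 1 := eq_one_of_max hR0 hR hr hfB hq (by rw [hmax, hx]) (by rw [hx]; norm_num)
  refine ⟨hr0, heq, hk, ?_⟩
  -- the vector y₀
  set y0 : X := ∑' n, (wt n * f (ee X n)) • ee X n with hy0
  have hsum : Summable fun n => (wt n * f (ee X n)) • ee X n := by
    refine Summable.of_norm_bounded (wt_summable.mul_right ‖f‖) fun n => ?_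
    rw [norm_smul, norm_mul, Real.norm_eq_abs, Real.norm_eq_abs, abs_of_pos (wt_pos n), mul_assoc]
    refine mul_le_mul_of_nonneg_left ?_ (wt_pos n).le
    calc |f (ee X n)| * ‖ee X n‖ ≤ ‖f‖ * 1 := by
          gcongr
          · exact abs_apply_ee_le f n
          · exact norm_ee_le n
      _ = ‖f‖ := mul_one _
  have hgy : ∀ g : StrongDual ℝ X, g y0 = BB f g := by
    intro g
    rw [hy0, g.map_tsum hsum]
    unfold BB
    congr 1
    ext n
    rw [map_smul, smul_eq_mul]; ring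
  refine ⟨x - y0, ?_, ?_⟩
  · intro h0
    have h1 : f (x - y0) = 0 := by rw [h0, map_zero]
    rw [map_sub, hmax, hgy] at h1
    have h2 : QQ f = BB f f := rfl
    have h3 : 0 < r ^ 2 := by positivity
    linarith
  · intro m hm
    set g : StrongDual ℝ X := r • (b + m - l) with hg
    have hgB : g ∈ Bd K r := ⟨b, m, l, hb, hm, hl, rfl⟩
    set a : ℝ := (g - f) x with ha
    set β : ℝ := BB f (g - f) with hβ
    set γ : ℝ := QQ (g - f) with hγ
    have hγ0 : 0 ≤ γ := QQ_nonneg _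
    have key : ∀ t : ℝ, 0 < t → t ≤ 1 → 1 + t * a ≤ Real.sqrt (1 + 2 * t * β + t ^ 2 * γ) := by
      intro t ht ht1
      have hmem := Bd.comb hconv hr hr (show (0 : ℝ) ≤ 1 - t by linarith) ht.le hfB hgB
      have e1 : (1 - t) * r + t * r = r := by ring
      have e2 : (1 - t) • f + t • g = f + t • (g - f) := by module
      rw [e1, e2] at hmem
      have e3 : QQ (f + t • (g - f)) = QQ f + 2 * t * β + t ^ 2 * γ := by
        rw [QQ_add, QQ_smul t (g - f), BB_smul_right t (g - f) f]; ring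
      have e4 : 0 < r ^ 2 + QQ (f + t • (g - f)) :=
        add_pos_of_pos_of_nonneg (by positivity) (QQ_nonneg _)
      have e5 := CC.smul_inv_mem hR0 hR hr hmem x e4
      have e6 : (f + t • (g - f)) x = 1 + t * a := by
        have : (f + t • (g - f)) x = f x + t * (g - f) x := rfl
        rw [this, hmax]
      have e7 : r ^ 2 + QQ (f + t • (g - f)) = 1 + 2 * t * β + t ^ 2 * γ := by
        rw [e3]; linarith
      rw [e6, e7, hx, mul_one] at e5
      exact e5
    have hab : a ≤ β := by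
      by_contra hcon
      push Not at hcon
      set t : ℝ := min 1 (min ((a - β) / (γ + 1)) (1 / (|a| + 1))) with ht
      have hd : 0 < a - β := by linarith
      have ht0 : 0 < t := by
        refine lt_min one_pos (lt_min (by positivity) (by positivity))
      have ht1 : t ≤ 1 := min_le_left _ _
      have ht2 : t ≤ (a - β) / (γ + 1) := (min_le_right _ _).trans (min_le_left _ _)
      have ht3 : t ≤ 1 / (|a| + 1) := (min_le_right _ _).trans (min_le_right _ _)
      rw [le_div_iff₀ (by positivity)] at ht2 ht3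
      have h1 : 0 < 1 + t * a := by
        have : -(t * |a|) ≤ t * a := by
          rw [← mul_neg]
          exact mul_le_mul_of_nonneg_left (neg_abs_le a) ht0.le
        nlinarith
      have h2 := key t ht0 ht1
      have h3 : (1 + t * a) ^ 2 ≤ 1 + 2 * t * β + t ^ 2 * γ := by
        have h4 : 0 ≤ 1 + 2 * t * β + t ^ 2 * γ := by
          by_contra hneg
          push Not at hneg
          rw [Real.sqrt_eq_zero_of_nonpos hneg.le] at h2
          linarith
        calc (1 + t * a) ^ 2 ≤ (Real.sqrt (1 + 2 * t * β + t ^ 2 * γ)) ^ 2 := by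
              exact pow_le_pow_left₀ h1.le h2 2
          _ = _ := Real.sq_sqrt h4
      have h5 : 2 * t * (a - β) ≤ t * (t * γ) := by nlinarith [sq_nonneg (t * a)]
      have h6 : 2 * (a - β) ≤ t * γ := by
        have : t * (2 * (a - β)) ≤ t * (t * γ) := by linarith
        exact le_of_mul_le_mul_left this ht0
      nlinarith
    have h7 : (g - f) (x - y0) ≤ 0 := by
      rw [map_sub, hgy, ← ha]
      linarith
    have h8 : g - f = r • (m - k) := by rw [hg, hf]; module
    rw [h8] at h7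
    have h9 : (r • (m - k)) (x - y0) = r * (m (x - y0) - k (x - y0)) := rfl
    rw [h9] at h7
    have h10 : m (x - y0) - k (x - y0) ≤ 0 := by
      by_contra hcon
      push Not at hcon
      have := mul_pos hr0 hcon
      linarith
    linarith

end Pool.Agent.Helper93.GateauxChar
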