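import Pool.Agent.Helper93.GateauxDefs

open Topology Filter Set TopologicalSpace

namespace Pool.Agent.Helper93.GateauxChar

variable {X : Type*} [NormedAddCommGroup X] [NormedSpace ℝ X]

lemma tendsto_weakDual_iff {ι : Type*} {l : Filter ι} {g : ι → StrongDual ℝ X} {k : StrongDual ℝ X} :
    Tendsto (fun n => StrongDual.toWeakDual (g n)) l (𝓝 (StrongDual.toWeakDual k)) ↔
      ∀ x, Tendsto (fun n => g n x) l (𝓝 (k x)) := by
  rw [tendsto_iff_forall_eval_tendsto_topDualPairing]
  rfl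

lemma tendsto_weakSpace_iff {ι : Type*} {l : Filter ι} {g : ι → StrongDual ℝ X}
    {k : StrongDual ℝ X} :
    Tendsto (fun n => toWeakSpace ℝ (StrongDual ℝ X) (g n)) l
        (𝓝 (toWeakSpace ℝ (StrongDual ℝ X) k)) ↔
      ∀ u : StrongDual ℝ (StrongDual ℝ X), Tendsto (fun n => u (g n)) l (𝓝 (u k)) := by
  have h := WeakBilin.tendsto_iff_forall_eval_tendsto (B := (topDualPairing ℝ (StrongDual ℝ X)).flip)
    (l := l) (f := fun n => toWeakSpace ℝ (StrongDual ℝ X) (g n))
    (x := toWeakSpace ℝ (StrongDual ℝ X) k) (by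
      intro a b hab
      by_contra hne
      obtain ⟨u, hu⟩ := exists_dual_vector ℝ (a - b) (norm_ne_zero_iff.mpr (sub_ne_zero.mpr hne))
      have h1 : u a = u b := by
        have := congrArg (fun L : Module.Dual ℝ (StrongDual ℝ (StrongDual ℝ X)) => L u) hab
        exact this
      have h2 : u (a - b) = 0 := by rw [map_sub, h1, sub_self]
      rw [hu.2] at h2
      exact hne (sub_eq_zero.mp (norm_eq_zero.mp (by exact_mod_cast h2))))
  exact h

lemma pc_seq {K : Set (StrongDual ℝ X)} {k : StrongDual ℝ X} (h : IsWeakStarWeakPC K k)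
    {g : ℕ → StrongDual ℝ X} (hg : ∀ n, g n ∈ K) (hlim : ∀ x, Tendsto (fun n => g n x) atTop (𝓝 (k x)))
    (u : StrongDual ℝ (StrongDual ℝ X)) : Tendsto (fun n => u (g n)) atTop (𝓝 (u k)) := by
  have h1 : Tendsto (fun n => StrongDual.toWeakDual (g n)) atTop
      (𝓝[StrongDual.toWeakDual '' K] (StrongDual.toWeakDual k)) := by
    rw [tendsto_nhdsWithin_iff]
    exact ⟨tendsto_weakDual_iff.mpr hlim, Eventually.of_forall fun n => mem_image_of_mem _ (hg n)⟩
  have h2 : Tendsto (fun n => toWeakSpace ℝ (StrongDual ℝ X) (g n)) atTop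
      (𝓝 (toWeakSpace ℝ (StrongDual ℝ X) k)) := Tendsto.comp h h1
  exact tendsto_weakSpace_iff.mp h2 u

lemma seq_of_not_pc [SeparableSpace X] {K : Set (StrongDual ℝ X)} (hK : IsWeakStarCompact K)
    {k : StrongDual ℝ X} (hk : k ∈ K) (h : ¬ IsWeakStarWeakPC K k) :
    ∃ g : ℕ → StrongDual ℝ X, (∀ n, g n ∈ K) ∧ (∀ x, Tendsto (fun n => g n x) atTop (𝓝 (k x))) ∧
      ∃ u : StrongDual ℝ (StrongDual ℝ X), ¬ Tendsto (fun n => u (g n)) atTop (𝓝 (u k)) := by
  have hmet := WeakDual.metrizable_of_isCompact ℝ X (StrongDual.toWeakDual '' K) hK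
  have hcg : (𝓝[StrongDual.toWeakDual '' K] (StrongDual.toWeakDual k)).IsCountablyGenerated := by
    rw [nhdsWithin_eq_map_subtype_coe (mem_image_of_mem _ hk)]
    infer_instance
  by_contra hcon
  push Not at hcon
  apply h
  unfold IsWeakStarWeakPC ContinuousWithinAt
  rw [tendsto_iff_seq_tendsto]
  intro g hg
  rw [tendsto_nhdsWithin_iff] at hg
  obtain ⟨hg1, hg2⟩ := hg
  obtain ⟨N, hN⟩ := eventually_atTop.mp hg2
  have key : ∀ u : StrongDual ℝ (StrongDual ℝ X),
      Tendsto (fun n => u (WeakDual.toStrongDual (g (n + N)))) atTop (𝓝 (u k)) := by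
    refine hcon (fun n => WeakDual.toStrongDual (g (n + N))) (fun n => ?_) ?_
    · obtain ⟨l, hl, hlg⟩ := hN (n + N) (Nat.le_add_left _ _)
      change WeakDual.toStrongDual (g (n + N)) ∈ K
      rw [← hlg]
      exact hl
    · have := tendsto_weakDual_iff (l := atTop) (g := fun n => WeakDual.toStrongDual (g (n + N))) (k := k)
      rw [← this]
      exact hg1.comp (tendsto_add_atTop_nat N)
  have h3 := tendsto_weakSpace_iff.mpr key
  exact (tendsto_add_atTop_iff_nat N).mp h3

end Pool.Agent.Helper93.GateauxChar
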