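import Mathlib

/-!
# Quotients of Boolean algebras, Cantor-Bendixson ideals and cardinal sequences

The ideals of a Boolean algebra `B` are the ideals of the Boolean ring `AsBoolRing B` of `B`, and
the quotient algebra `B / J` is the Boolean algebra of the quotient ring.
-/

open Cardinal Ordinal

namespace Pool.Agent.Helper93.QuotBA

/-- The quotient of a Boolean ring by an ideal is a Boolean ring. -/
instance quotientBooleanRing {R : Type*} [BooleanRing R] (J : Ideal R) : BooleanRing (R ⧸ J) where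
  isIdempotentElem a := by
    obtain ⟨a, rfl⟩ := Ideal.Quotient.mk_surjective a
    show Ideal.Quotient.mk J a * Ideal.Quotient.mk J a = Ideal.Quotient.mk J a
    rw [← map_mul]
    exact congrArg _ (BooleanRing.isIdempotentElem a)

/-- The quotient Boolean algebra `B / J` of the Boolean algebra `B` by the ideal `J`. -/
abbrev QuotAlg (B : Type*) [BooleanAlgebra B] (J : Ideal (AsBoolRing B)) : Type _ :=
  AsBoolAlg (AsBoolRing B ⧸ J)

/-- The class `b / J` of `b` in the quotient Boolean algebra `B / J`. -/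
def quotMk {B : Type*} [BooleanAlgebra B] (J : Ideal (AsBoolRing B)) (b : B) : QuotAlg B J :=
  toBoolAlg (Ideal.Quotient.mk J (toBoolRing b))

/-- Property (P): `B / J ≅ B` for every ideal `J` of `B` such that `B / J` is uncountable. -/
def PropertyP (B : Type*) [BooleanAlgebra B] : Prop :=
  ∀ J : Ideal (AsBoolRing B), Uncountable (QuotAlg B J) → Nonempty (QuotAlg B J ≃o B)

/-- The element `c` of a Boolean algebra is a finite join of atoms. -/
def IsFiniteJoinOfAtoms {C : Type*} [BooleanAlgebra C] (c : C) : Prop :=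
  ∃ s : Finset C, (∀ a ∈ s, IsAtom a) ∧ c = s.sup id

theorem IsFiniteJoinOfAtoms.bot {C : Type*} [BooleanAlgebra C] :
    IsFiniteJoinOfAtoms (⊥ : C) := ⟨∅, by simp, by simp⟩

theorem IsFiniteJoinOfAtoms.sup {C : Type*} [BooleanAlgebra C] {a b : C}
    (ha : IsFiniteJoinOfAtoms a) (hb : IsFiniteJoinOfAtoms b) : IsFiniteJoinOfAtoms (a ⊔ b) := by
  classical
  obtain ⟨s, hs, rfl⟩ := ha
  obtain ⟨t, ht, rfl⟩ := hb
  refine ⟨s ∪ t, fun a ha => ?_, by rw [Finset.sup_union]⟩
  rcases Finset.mem_union.1 ha with h | h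
  · exact hs a h
  · exact ht a h

theorem IsFiniteJoinOfAtoms.mono {C : Type*} [BooleanAlgebra C] {a b : C}
    (hb : IsFiniteJoinOfAtoms b) (hab : a ≤ b) : IsFiniteJoinOfAtoms a := by
  classical
  obtain ⟨s, hs, rfl⟩ := hb
  refine ⟨s.filter (· ≤ a), fun x hx => hs x (Finset.mem_filter.1 hx).1, ?_⟩
  have h1 : a = a ⊓ s.sup id := (inf_eq_left.2 hab).symm
  rw [Finset.sup_inf_distrib_left] at h1
  refine le_antisymm ?_ (Finset.sup_le fun x hx => (Finset.mem_filter.1 hx).2)
  conv_lhs => rw [h1]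
  refine Finset.sup_le fun x hx => ?_
  rcases (hs x hx).le_iff.1 (inf_le_right : a ⊓ id x ≤ x) with h | h
  · rw [h]
    exact bot_le
  · rw [h]
    exact Finset.le_sup (f := id) (Finset.mem_filter.2 ⟨hx, h ▸ inf_le_left⟩)

/-- The ideal of all `b` in `B` such that `b / J` is a finite join of atoms of `B / J`. -/
def succIdeal {B : Type*} [BooleanAlgebra B] (J : Ideal (AsBoolRing B)) :
    Ideal (AsBoolRing B) where
  carrier := {b | IsFiniteJoinOfAtoms (quotMk J (ofBoolRing b))}
  zero_mem' := by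
    show IsFiniteJoinOfAtoms (toBoolAlg (Ideal.Quotient.mk J 0))
    rw [map_zero, toBoolAlg_zero]
    exact IsFiniteJoinOfAtoms.bot
  add_mem' := by
    intro a b ha hb
    show IsFiniteJoinOfAtoms (toBoolAlg (Ideal.Quotient.mk J (a + b)))
    rw [map_add, toBoolAlg_add]
    exact (ha.sup hb).mono symmDiff_le_sup
  smul_mem' := by
    intro a b hb
    show IsFiniteJoinOfAtoms (toBoolAlg (Ideal.Quotient.mk J (a * b)))
    rw [map_mul, toBoolAlg_mul]
    exact hb.mono inf_le_right

/-- The Cantor-Bendixson ideals: `I 0 = 0`, `I (β + 1)` is the set of all `b` such that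
`b / I β` is a finite join of atoms of `B / I β`, and `I l` is the union of the `I β`, `β < l`,
for limit `l`. -/
noncomputable def cbIdeal (B : Type) [BooleanAlgebra B] (β : Ordinal.{0}) :
    Ideal (AsBoolRing B) :=
  Ordinal.limitRecOn β ⊥ (fun _ I => succIdeal I) (fun l _ I => ⨆ γ : Set.Iio l, I γ.1 γ.2)

/-- `B` is superatomic and its cardinal sequence is `⟨κ, κ, ..., 1⟩` of length `δ`: `δ` is the
least ordinal with `B / I δ` finite, `B / I β` has `κ` atoms for all `β < δ`, and `B / I δ` has one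
atom. -/
def HasCardinalSequence (B : Type) [BooleanAlgebra B] (κ : Cardinal.{0}) (δ : Ordinal.{0}) :
    Prop :=
  (∃ β, cbIdeal B β = ⊤) ∧ IsLeast {ρ | Finite (QuotAlg B (cbIdeal B ρ))} δ ∧
    (∀ β < δ, #{a : QuotAlg B (cbIdeal B β) // IsAtom a} = κ) ∧
    #{a : QuotAlg B (cbIdeal B δ) // IsAtom a} = 1

end Pool.Agent.Helper93.QuotBA
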