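import Pool.Agent.Helper93.QuotBAStone

/-!
# The space `ω₁ + 1`
-/

open Cardinal Ordinal TopologicalSpace Set Topology
open scoped symmDiff

namespace Pool.Agent.Helper93.QuotBA

/-- The properties of the well-order `ω₁ + 1` used below. -/
structure IsOm (X : Type) [LinearOrder X] [OrderTop X] : Prop where
  countable : ∀ a : X, a ≠ ⊤ → (Iio a).Countable
  not_countable : ¬ (Iio (⊤ : X)).Countable

theorem typeLT_eq {α : Type} [LinearOrder α] [WellFoundedLT α] [OrderTop α] (h : IsOm α) :
    typeLT α = ω₁ + 1 := by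
  have hcard : ∀ a : α, (typein (α := α) (· < ·) a).card = #(Iio a) := fun a => rfl
  have hτ : typein (α := α) (· < ·) (⊤ : α) = ω₁ := by
    apply le_antisymm
    · by_contra hlt
      rw [not_le] at hlt
      have hlt2 : ω₁ < typeLT α := hlt.trans (typein_lt_type _ _)
      obtain ⟨a, ha⟩ := typein_surj (α := α) (· < ·) hlt2
      have hne : a ≠ ⊤ := by
        rintro rfl
        rw [ha] at hlt
        exact lt_irrefl _ hlt
      have h1 := hcard a
      rw [ha, Ordinal.card_omega] at h1
      have h2 : #(Iio a) ≤ ℵ₀ := mk_le_aleph0_iff.2 (h.countable a hne)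
      rw [← h1] at h2
      exact absurd h2 (not_le.2 (by simp))
    · by_contra hlt
      rw [not_le] at hlt
      apply h.not_countable
      have h1 := hcard ⊤
      have h2 : (typein (α := α) (· < ·) (⊤ : α)).card < ℵ₁ := by
        rw [← Cardinal.lt_ord]
        simpa using hlt
      rw [h1, ← succ_aleph0, Order.lt_succ_iff] at h2
      exact mk_le_aleph0_iff.1 h2
  apply le_antisymm
  · rw [← hτ, ← Order.succ_eq_add_one]
    refine le_of_forall_lt fun o ho => ?_
    obtain ⟨a, rfl⟩ := typein_surj (α := α) (· < ·) ho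
    rw [Order.lt_succ_iff]
    exact (typein_le_typein (α := α) (· < ·)).2 (not_lt.2 le_top)
  · rw [← hτ, ← Order.succ_eq_add_one, Order.succ_le_iff]
    exact typein_lt_type _ _

section

variable {X : Type} [LinearOrder X] [WellFoundedLT X] [OrderTop X]

theorem IsOm.Iic_countable (h : IsOm X) {a : X} (ha : a ≠ ⊤) : (Iic a).Countable := by
  rw [← Iio_union_right]
  exact (h.countable a ha).union (countable_singleton a)

theorem IsOm.bounded (h : IsOm X) {S : Set X} (hS : S.Countable) (hT : ⊤ ∉ S) :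
    ∃ ξ : X, ξ < ⊤ ∧ ∀ s ∈ S, s ≤ ξ := by
  by_contra hcon
  push Not at hcon
  apply h.not_countable
  refine (hS.biUnion (t := fun s _ => Iio s) fun s hs => h.countable s ?_).mono ?_
  · rintro rfl
    exact hT hs
  · intro ξ hξ
    obtain ⟨s, hs, hlt⟩ := hcon ξ hξ
    exact mem_iUnion₂.2 ⟨s, hs, hlt⟩

theorem IsOm.unbounded (h : IsOm X) {F : Set X} (hF : ¬ F.Countable) {ξ : X} (hξ : ξ < ⊤) :
    ∃ x ∈ F, ξ < x ∧ x < ⊤ := by
  by_contra hcon
  push Not at hcon
  apply hF
  refine ((h.Iic_countable hξ.ne).union (countable_singleton ⊤)).mono fun x hx => ?_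
  by_cases hx2 : ξ < x
  · right
    exact top_le_iff.1 (hcon x hx hx2)
  · left
    exact not_lt.1 hx2

theorem IsOm.not_countable_of_unbounded (h : IsOm X) {F : Set X}
    (hF : ∀ ξ : X, ξ < ⊤ → ∃ x ∈ F, ξ < x ∧ x < ⊤) : ¬ F.Countable := by
  intro hc
  obtain ⟨ξ, hξ, hb⟩ := h.bounded (S := F ∩ Iio ⊤) (hc.mono inter_subset_left)
    (fun h => lt_irrefl _ h.2)
  obtain ⟨x, hx, h1, h2⟩ := hF ξ hξ
  exact absurd (hb x ⟨hx, h2⟩) (not_le.2 h1)

/-- The interleaving lemma. -/
theorem IsOm.exists_seq (h : IsOm X) {G : ℕ → Set X} (hG : ∀ n, ¬ (G n).Countable) {ξ : X}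
    (hξ : ξ < ⊤) : ∃ (x : ℕ → X) (s : X), StrictMono x ∧ (∀ n, x n ∈ G n) ∧ ξ < s ∧ s < ⊤ ∧
      IsLUB (range x) s := by
  have hstep : ∀ (n : ℕ) (y : {y : X // y < ⊤}), ∃ z : {y : X // y < ⊤},
      z.1 ∈ G n ∧ y.1 < z.1 := by
    intro n y
    obtain ⟨x, hx, h1, h2⟩ := h.unbounded (hG n) y.2
    exact ⟨⟨x, h2⟩, hx, h1⟩
  choose f hf hlt using hstep
  let x : ℕ → {y : X // y < ⊤} := fun n => Nat.rec (f 0 ⟨ξ, hξ⟩) (fun n y => f (n + 1) y) n
  have hx0 : x 0 = f 0 ⟨ξ, hξ⟩ := rfl
  have hxs : ∀ n, x (n + 1) = f (n + 1) (x n) := fun n => rfl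
  have hmono : StrictMono (fun n : ℕ => (x n).1) := by
    apply strictMono_nat_of_lt_succ
    intro n
    show (x n).1 < (x (n + 1)).1
    rw [hxs]
    exact hlt _ _
  obtain ⟨η, hη, hb⟩ := h.bounded (S := range fun n : ℕ => (x n).1) (countable_range _) (by
    rintro ⟨n, hn⟩
    exact (x n).2.ne hn)
  have hne : (upperBounds (range fun n : ℕ => (x n).1)).Nonempty :=
    ⟨η, fun y hy => hb y hy⟩
  let s := WellFounded.min (wellFounded_lt (α := X)) _ hne
  have hs : IsLUB (range fun n : ℕ => (x n).1) s :=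
    ⟨WellFounded.min_mem _ _ hne, fun y hy => not_lt.1 (WellFounded.not_lt_min _ _ hy)⟩
  refine ⟨fun n => (x n).1, s, hmono, ?_, ?_, lt_of_le_of_lt (hs.2 fun y hy => hb y hy) hη, hs⟩
  · intro n
    cases n with
    | zero => exact hf _ _
    | succ n => exact hf _ _
  · have h1 : ξ < (x 0).1 := hlt 0 ⟨ξ, hξ⟩
    exact h1.trans_le (hs.1 ⟨0, rfl⟩)

variable [TopologicalSpace X] [OrderTopology X]

omit [WellFoundedLT X] in
theorem lub_mem {x : ℕ → X} {s : X} (hx : StrictMono x) (hs : IsLUB (range x) s) {F : Set X}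
    (hF : IsClosed F) (hFx : ∀ n, ∃ m ≥ n, x m ∈ F) : s ∈ F := by
  have h1 : IsLUB (range x ∩ F) s := by
    refine ⟨fun y hy => hs.1 hy.1, fun y hy => hs.2 ?_⟩
    rintro _ ⟨n, rfl⟩
    obtain ⟨m, hm, hmF⟩ := hFx n
    exact (hx.monotone hm).trans (hy ⟨⟨m, rfl⟩, hmF⟩)
  have h2 : (range x ∩ F).Nonempty := by
    obtain ⟨m, -, hm⟩ := hFx 0
    exact ⟨x m, ⟨m, rfl⟩, hm⟩
  exact hF.closure_subset_iff.2 inter_subset_right (h1.mem_closure h2)

omit [WellFoundedLT X] in
theorem lub_not_isolated {x : ℕ → X} {s : X} (hx : StrictMono x) (hs : IsLUB (range x) s)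
    {F : Set X} (hFx : ∀ n, x n ∈ F) : s ∉ isolated F := by
  rintro ⟨U, hU, hUs⟩
  have hsU : s ∈ U := by
    have : s ∈ F ∩ U := by rw [hUs]; rfl
    exact this.2
  obtain ⟨_, hy, ⟨n, rfl⟩⟩ := mem_closure_iff.1 (hs.mem_closure (range_nonempty x)) U hU hsU
  have h1 : x n ∈ F ∩ U := ⟨hFx n, hy⟩
  rw [hUs] at h1
  have h2 : x n < s := lt_of_lt_of_le (hx (Nat.lt_succ_self n)) (hs.1 ⟨n + 1, rfl⟩)
  exact h2.ne h1

theorem isOpen_Iic' (a : X) : IsOpen (Iic a) := by
  by_cases ha : a = ⊤
  · rw [ha, Iic_top]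
    exact isOpen_univ
  · have hne : (Ioi a).Nonempty := ⟨⊤, lt_top_iff_ne_top.2 ha⟩
    have h1 : Iic a = Iio (WellFounded.min (wellFounded_lt (α := X)) _ hne) := by
      ext y
      constructor
      · intro hy
        exact lt_of_le_of_lt hy (WellFounded.min_mem _ _ hne)
      · intro hy
        by_contra h2
        exact WellFounded.not_lt_min _ _ (not_le.1 h2 : y ∈ Ioi a) hy
    rw [h1]
    exact isOpen_Iio

instance : TotallySeparatedSpace X where
  isTotallySeparated_univ := by
    intro x _ y _ hxy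
    rcases lt_or_gt_of_ne hxy with h | h
    · refine ⟨Iic x, Ioi x, isOpen_Iic' x, isOpen_Ioi, le_rfl, h, ?_, ?_⟩
      · rw [Iic_union_Ioi]
      · exact Iic_disjoint_Ioi le_rfl
    · refine ⟨Ioi y, Iic y, isOpen_Ioi, isOpen_Iic' y, h, le_rfl, ?_, ?_⟩
      · rw [union_comm, Iic_union_Ioi]
      · exact (Iic_disjoint_Ioi le_rfl).symm

theorem IsOm.top_mem (h : IsOm X) {F : Set X} (hF : IsClosed F) (hFc : ¬ F.Countable) :
    ⊤ ∈ F := by
  have h1 : IsLUB (F ∩ Iio ⊤) ⊤ := by
    refine ⟨fun y _ => le_top, fun y hy => ?_⟩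
    by_contra hlt
    rw [not_le] at hlt
    obtain ⟨x, hx, h2, h3⟩ := h.unbounded hFc hlt
    exact absurd (hy ⟨hx, h3⟩) (not_le.2 h2)
  have h2 : (F ∩ Iio ⊤).Nonempty := by
    by_contra hne
    rw [not_nonempty_iff_eq_empty] at hne
    apply hFc
    refine (countable_singleton (⊤ : X)).mono fun x hx => ?_
    by_contra hx2
    have : x ∈ F ∩ Iio ⊤ := ⟨hx, lt_top_iff_ne_top.2 hx2⟩
    rw [hne] at this
    exact this
  exact hF.closure_subset_iff.2 inter_subset_left (h1.mem_closure h2)

/-- Every uncountable closed subset of `ω₁ + 1` is homeomorphic to `ω₁ + 1`. -/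
theorem IsOm.homeo [CompactSpace X] (h : IsOm X) {F : Set X} (hF : IsClosed F)
    (hFc : ¬ F.Countable) : Nonempty (F ≃ₜ X) := by
  have htop := h.top_mem hF hFc
  let inst : OrderTop F := { top := ⟨⊤, htop⟩, le_top := fun x => le_top (a := (x : X)) }
  have hFO : IsOm F := by
    constructor
    · intro a ha
      have ha' : (a : X) ≠ ⊤ := fun h1 => ha (Subtype.ext h1)
      have := (h.countable a ha').preimage (Subtype.val_injective (p := (· ∈ F)))
      exact this
    · intro hc
      apply hFc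
      have h1 : F ⊆ Subtype.val '' (Iio (⊤ : F)) ∪ {⊤} := by
        intro x hx
        by_cases hx2 : x = ⊤
        · right
          exact hx2
        · left
          exact ⟨⟨x, hx⟩, lt_top_iff_ne_top.2 hx2, rfl⟩
      exact ((hc.image _).union (countable_singleton _)).mono h1
  have h1 : typeLT F = typeLT X := by rw [typeLT_eq hFO, typeLT_eq h]
  obtain ⟨e⟩ := type_eq.1 h1
  let e' : F ≃o X := OrderIso.ofRelIsoLT e
  have hcont : Continuous e' := by
    refine OrderTopology.continuous_iff.2 fun a => ⟨?_, ?_⟩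
    · have h2 : e' ⁻¹' Ioi a = Subtype.val ⁻¹' Ioi (e'.symm a : X) := by
        ext x
        show a < e' x ↔ e'.symm a < x
        exact (e'.symm_apply_lt).symm
      rw [h2]
      exact isOpen_Ioi.preimage continuous_subtype_val
    · have h2 : e' ⁻¹' Iio a = Subtype.val ⁻¹' Iio (e'.symm a : X) := by
        ext x
        show e' x < a ↔ x < e'.symm a
        exact (e'.lt_symm_apply).symm
      rw [h2]
      exact isOpen_Iio.preimage continuous_subtype_val
  have : CompactSpace F := isCompact_iff_compactSpace.1 hF.isCompact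
  exact ⟨hcont.homeoOfEquivCompactToT2 (f := e'.toEquiv)⟩

/-- A countable closed subset of `ω₁ + 1` has countably many clopen subsets. -/
theorem IsOm.countable_clopens [CompactSpace X] (h : IsOm X) {F : Set X} (hF : IsClosed F)
    (hFc : F.Countable) : Countable (Clopens F) := by
  have : CompactSpace F := isCompact_iff_compactSpace.1 hF.isCompact
  have : Countable F := hFc.to_subtype
  rw [Clopens.countable_iff_secondCountable]
  have hfc : FirstCountableTopology F := by
    refine ⟨fun x => ?_⟩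
    by_cases hx : (x : X) = ⊤
    · obtain ⟨ξ, hξ, hb⟩ := h.bounded (S := F ∩ Iio ⊤) (hFc.mono inter_subset_left)
        (fun h => lt_irrefl _ h.2)
      have h1 : 𝓝 x = pure x := by
        rw [← isOpen_singleton_iff_nhds_eq_pure]
        have h2 : ({x} : Set F) = Subtype.val ⁻¹' Ioi ξ := by
          ext y
          constructor
          · rintro rfl
            show ξ < (y : X)
            rw [hx]
            exact hξ
          · intro hy
            by_contra hne
            have h3 : (y : X) < ⊤ := lt_top_iff_ne_top.2 fun h4 =>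
              hne (Subtype.ext (h4.trans hx.symm))
            exact absurd (hb y ⟨y.2, h3⟩) (not_le.2 hy)
        rw [h2]
        exact isOpen_Ioi.preimage continuous_subtype_val
      rw [h1]
      infer_instance
    · have h1 : (𝓝 (x : X)).IsCountablyGenerated := by
        have h2 : 𝓝 (x : X) = (⨅ b ∈ Iio (x : X), Filter.principal (Ioi b)) ⊓
            Filter.principal (Iic (x : X)) := by
          rw [nhds_eq_order]
          apply le_antisymm
          · refine inf_le_inf_left _ ?_
            have h3 : Iic (x : X) ∈ 𝓝 (x : X) := (isOpen_Iic' (x : X)).mem_nhds le_rfl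
            have hne : (Ioi (x : X)).Nonempty := ⟨⊤, lt_top_iff_ne_top.2 hx⟩
            refine (iInf₂_le (WellFounded.min (wellFounded_lt (α := X)) _ hne)
              (WellFounded.min_mem _ _ hne)).trans ?_
            rw [Filter.le_principal_iff, Filter.mem_principal]
            intro y hy
            by_contra h4
            exact WellFounded.not_lt_min _ _ (not_le.1 h4 : y ∈ Ioi (x : X)) hy
          · refine inf_le_inf_left _ (le_iInf₂ fun b hb => ?_)
            rw [Filter.principal_mono]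
            exact fun y hy => lt_of_le_of_lt hy hb
        rw [h2, iInf_subtype']
        have : Countable (Iio (x : X)) := (h.countable x hx).to_subtype
        infer_instance
      rw [nhds_induced]
      infer_instance
  infer_instance

end

end Pool.Agent.Helper93.QuotBA
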