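import Pool.Agent.Helper93.QuotBADefs

/-!
# Stone duality for quotients of clopen algebras
-/

open Cardinal Ordinal TopologicalSpace Set
open scoped symmDiff

namespace Pool.Agent.Helper93.QuotBA

section Ring

/-- A ring isomorphism of Boolean rings as an order isomorphism. -/
def orderIsoOfRingEquiv {R S : Type*} [BooleanRing R] [BooleanRing S] (e : R ≃+* S) :
    AsBoolAlg R ≃o AsBoolAlg S where
  toEquiv := (ofBoolAlg.trans e.toEquiv).trans toBoolAlg
  map_rel_iff' := by
    intro a b
    rw [← ofBoolAlg_mul_ofBoolAlg_eq_left_iff, ← ofBoolAlg_mul_ofBoolAlg_eq_left_iff]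
    show e (ofBoolAlg a) * e (ofBoolAlg b) = e (ofBoolAlg a) ↔ _
    rw [← map_mul]
    exact e.injective.eq_iff

end Ring

section Stone

variable {X : Type*} [TopologicalSpace X]

/-- The closed set of the ideal `J` of `Clopens X`. -/
def zeroSet (J : Ideal (AsBoolRing (Clopens X))) : Set X :=
  {x | ∀ b : Clopens X, toBoolRing b ∈ J → x ∉ b}

theorem isClosed_zeroSet (J : Ideal (AsBoolRing (Clopens X))) : IsClosed (zeroSet J) := by
  have : zeroSet J = ⋂ b : {b : Clopens X // toBoolRing b ∈ J}, ((b : Clopens X) : Set X)ᶜ := by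
    ext x
    simp [zeroSet]
  rw [this]
  exact isClosed_iInter fun b => b.1.isOpen.isClosed_compl

/-- Restriction of clopen sets to a subspace. -/
def res (F : Set X) : BoundedLatticeHom (Clopens X) (Clopens F) where
  toFun b := ⟨Subtype.val ⁻¹' (b : Set X), b.isClopen.preimage continuous_subtype_val⟩
  map_sup' _ _ := rfl
  map_inf' _ _ := rfl
  map_top' := rfl
  map_bot' := rfl

theorem mem_res {F : Set X} {b : Clopens X} {x : F} : x ∈ res F b ↔ (x : X) ∈ b := Iff.rfl

theorem res_eq_bot {F : Set X} {b : Clopens X} : res F b = ⊥ ↔ ∀ x ∈ F, x ∉ b := by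
  constructor
  · intro h x hx hxb
    have h1 : (⟨x, hx⟩ : F) ∈ res F b := hxb
    rw [h] at h1
    exact h1
  · intro h
    ext x
    constructor
    · intro hx
      exact absurd hx (h x.1 x.2)
    · intro hx
      exact absurd hx (by simp)

theorem mem_of_le {J : Ideal (AsBoolRing (Clopens X))} {b c : Clopens X} (hc : toBoolRing c ∈ J)
    (h : b ≤ c) : toBoolRing b ∈ J := by
  have : toBoolRing b = toBoolRing b * toBoolRing c := by
    rw [← toBoolRing_inf, inf_eq_left.2 h]
  rw [this]
  exact J.mul_mem_left _ hc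

theorem sup_mem {J : Ideal (AsBoolRing (Clopens X))} {b c : Clopens X} (hb : toBoolRing b ∈ J)
    (hc : toBoolRing c ∈ J) : toBoolRing (b ⊔ c) ∈ J := by
  have h1 : b ⊔ c = (b ∆ c) ∆ (b ⊓ c) := by
    rw [symmDiff_symmDiff_inf]
  rw [h1, toBoolRing_symmDiff, toBoolRing_symmDiff, toBoolRing_inf]
  exact J.add_mem (J.add_mem hb hc) (J.mul_mem_left _ hc)

theorem finset_sup_mem {J : Ideal (AsBoolRing (Clopens X))} (s : Finset (Clopens X))
    (h : ∀ b ∈ s, toBoolRing b ∈ J) : toBoolRing (s.sup id) ∈ J := by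
  classical
  induction s using Finset.induction_on with
  | empty => simp
  | insert a s ha ih =>
    rw [Finset.sup_insert]
    exact sup_mem (h a (Finset.mem_insert_self a s))
      (ih fun b hb => h b (Finset.mem_insert_of_mem hb))

variable [CompactSpace X]

theorem mem_ideal_iff {J : Ideal (AsBoolRing (Clopens X))} {b : Clopens X} :
    toBoolRing b ∈ J ↔ ∀ x ∈ zeroSet J, x ∉ b := by
  constructor
  · intro h x hx
    exact hx b h
  · intro h
    have h1 : ∀ x : (b : Set X), ∃ c : Clopens X, toBoolRing c ∈ J ∧ (x : X) ∈ c := by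
      rintro ⟨x, hx⟩
      by_contra h2
      push Not at h2
      exact h x (fun c hc => h2 c hc) hx
    choose c hcJ hc using h1
    obtain ⟨t, ht⟩ := b.isClosed.isCompact.elim_finite_subcover
      (fun x : (b : Set X) => ((c x : Clopens X) : Set X)) (fun x => (c x).isOpen)
      (fun x hx => Set.mem_iUnion.2 ⟨⟨x, hx⟩, hc ⟨x, hx⟩⟩)
    classical
    refine mem_of_le (finset_sup_mem (t.image c) ?_) (?_ : b ≤ (t.image c).sup id)
    · intro d hd
      obtain ⟨x, -, rfl⟩ := Finset.mem_image.1 hd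
      exact hcJ x
    · intro x hx
      have h3 := ht hx
      simp only [Set.mem_iUnion] at h3
      obtain ⟨y, hy, hxy⟩ := h3
      exact (Finset.le_sup (f := id) (Finset.mem_image_of_mem c hy) : c y ≤ _) hxy

variable [T2Space X] [TotallyDisconnectedSpace X]

/-- In a compact totally disconnected Hausdorff space, a compact set inside an open set is
separated by a clopen set. -/
theorem exists_clopen_between {K U : Set X} (hK : IsCompact K) (hU : IsOpen U) (hKU : K ⊆ U) :
    ∃ b : Clopens X, K ⊆ b ∧ (b : Set X) ⊆ U := by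
  have h1 : ∀ x : K, ∃ V : Set X, IsClopen V ∧ (x : X) ∈ V ∧ V ⊆ U := fun x =>
    compact_exists_isClopen_in_isOpen hU (hKU x.2)
  choose V hV hxV hVU using h1
  obtain ⟨t, ht⟩ := hK.elim_finite_subcover V (fun x => (hV x).isOpen)
    (fun x hx => Set.mem_iUnion.2 ⟨⟨x, hx⟩, hxV ⟨x, hx⟩⟩)
  refine ⟨⟨⋃ x ∈ t, V x, t.finite_toSet.isClopen_biUnion fun x _ => hV x⟩, ht, ?_⟩
  exact Set.iUnion₂_subset fun x _ => hVU x

theorem res_surjective {F : Set X} (hF : IsClosed F) : Function.Surjective (res F) := by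
  intro c
  obtain ⟨U, hU, hUc⟩ := isOpen_induced_iff.1 c.isOpen
  have hK : IsCompact (Subtype.val '' (c : Set F)) :=
    (hF.isClosedEmbedding_subtypeVal.isClosedMap _ c.isClosed).isCompact
  obtain ⟨b, hb, hbU⟩ := exists_clopen_between hK hU (by
    rintro _ ⟨x, hx, rfl⟩
    have : x ∈ Subtype.val ⁻¹' U := by rw [hUc]; exact hx
    exact this)
  refine ⟨b, ?_⟩
  ext x
  constructor
  · intro hx
    have : x ∈ Subtype.val ⁻¹' U := hbU hx
    rw [hUc] at this
    exact this
  · intro hx
    exact hb ⟨x, hx, rfl⟩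

theorem ker_res (J : Ideal (AsBoolRing (Clopens X))) :
    J = RingHom.ker (res (zeroSet J)).asBoolRing := by
  ext b
  rw [RingHom.mem_ker]
  show toBoolRing (ofBoolRing b) ∈ J ↔ toBoolRing (res (zeroSet J) (ofBoolRing b)) = 0
  rw [mem_ideal_iff, ← toBoolRing_bot, toBoolRing_inj, res_eq_bot]

/-- The quotient of `Clopens X` by `J` is `Clopens (zeroSet J)`. -/
noncomputable def quotIso (J : Ideal (AsBoolRing (Clopens X))) :
    QuotAlg (Clopens X) J ≃o Clopens (zeroSet J) :=
  (orderIsoOfRingEquiv ((Ideal.quotEquivOfEq (ker_res J)).trans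
    (RingHom.quotientKerEquivOfSurjective (f := (res (zeroSet J)).asBoolRing)
      (res_surjective (isClosed_zeroSet J))))).trans
    (OrderIso.asBoolAlgAsBoolRing _)

theorem quotIso_quotMk (J : Ideal (AsBoolRing (Clopens X))) (b : Clopens X) :
    quotIso J (quotMk J b) = res (zeroSet J) b := rfl

omit [CompactSpace X] [T2Space X] [TotallyDisconnectedSpace X] in
theorem isAtom_singleton {x : X} (h : IsClopen {x}) : IsAtom (⟨{x}, h⟩ : Clopens X) := by
  refine ⟨fun h0 => ?_, fun b hb => ?_⟩
  · have : x ∈ (⊥ : Clopens X) := h0 ▸ Set.mem_singleton x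
    exact this
  · ext y
    constructor
    · intro hy
      have h1 : y ∈ ({x} : Set X) := hb.1 hy
      rw [Set.mem_singleton_iff] at h1
      subst h1
      refine absurd ?_ hb.2
      intro z hz
      have : z = y := hz
      rw [this]
      exact hy
    · intro hy
      exact absurd hy (by simp)

theorem isAtom_iff {a : Clopens X} : IsAtom a ↔ ∃ x, (a : Set X) = {x} := by
  constructor
  · intro ha
    have hne : (a : Set X).Nonempty := by
      by_contra h
      rw [Set.not_nonempty_iff_eq_empty] at h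
      exact ha.1 (Clopens.ext h)
    obtain ⟨x, hx⟩ := hne
    refine ⟨x, Set.eq_singleton_iff_unique_mem.2 ⟨hx, fun y hy => ?_⟩⟩
    by_contra hyx
    obtain ⟨V, hV, hxV, hVy⟩ := compact_exists_isClopen_in_isOpen
      (isOpen_compl_singleton (x := y)) (show x ∈ ({y} : Set X)ᶜ from fun h => hyx h.symm)
    have h1 : a ⊓ ⟨V, hV⟩ = a := by
      rcases ha.le_iff.1 (inf_le_left : a ⊓ ⟨V, hV⟩ ≤ a) with h | h
      · exfalso
        have : x ∈ a ⊓ (⟨V, hV⟩ : Clopens X) := ⟨hx, hxV⟩
        rw [h] at this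
        exact this
      · exact h
    have h2 : y ∈ a ⊓ (⟨V, hV⟩ : Clopens X) := by rw [h1]; exact hy
    exact hVy h2.2 rfl
  · rintro ⟨x, hx⟩
    have h1 : a = ⟨{x}, hx ▸ a.isClopen⟩ := Clopens.ext hx
    rw [h1]
    exact isAtom_singleton _

theorem isFiniteJoinOfAtoms_iff {c : Clopens X} : IsFiniteJoinOfAtoms c ↔ (c : Set X).Finite := by
  classical
  constructor
  · rintro ⟨s, hs, rfl⟩
    rw [Clopens.coe_finset_sup]
    refine s.finite_toSet.biUnion fun a ha => ?_
    obtain ⟨x, hx⟩ := isAtom_iff.1 (hs a ha)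
    show ((a : Clopens X) : Set X).Finite
    rw [hx]
    exact Set.finite_singleton x
  · intro hc
    have h1 : ∀ x ∈ (c : Set X), IsClopen ({x} : Set X) := by
      intro x hx
      refine ⟨isClosed_singleton, ?_⟩
      have h2 : ({x} : Set X) = (c : Set X) \ ((c : Set X) \ {x}) := by
        ext y
        simp only [Set.mem_singleton_iff, Set.mem_sdiff, not_and, not_not]
        constructor
        · rintro rfl
          exact ⟨hx, fun _ => rfl⟩
        · rintro ⟨h3, h4⟩
          exact h4 h3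
      rw [h2]
      exact c.isOpen.sdiff (hc.subset Set.sdiff_subset).isClosed
    refine ⟨hc.toFinset.attach.image fun x =>
      ⟨{x.1}, h1 x.1 (hc.mem_toFinset.1 x.2)⟩, ?_, ?_⟩
    · intro a ha
      obtain ⟨x, -, rfl⟩ := Finset.mem_image.1 ha
      exact isAtom_singleton _
    · apply Clopens.ext
      rw [Clopens.coe_finset_sup]
      ext y
      simp only [Finset.mem_image, Finset.mem_attach, true_and, Subtype.exists, id, Set.mem_iUnion,
        exists_prop, SetLike.mem_coe]
      constructor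
      · intro hy
        exact ⟨_, ⟨y, hc.mem_toFinset.2 hy, rfl⟩, rfl⟩
      · rintro ⟨_, ⟨z, hz, rfl⟩, h⟩
        have : y = z := h
        rw [this]
        exact hc.mem_toFinset.1 hz

omit [TopologicalSpace X] [CompactSpace X] [T2Space X] [TotallyDisconnectedSpace X] in
theorem isFiniteJoinOfAtoms_map {C D : Type*} [BooleanAlgebra C] [BooleanAlgebra D] (e : C ≃o D)
    {c : C} (h : IsFiniteJoinOfAtoms c) : IsFiniteJoinOfAtoms (e c) := by
  classical
  obtain ⟨s, hs, rfl⟩ := h
  refine ⟨s.image e, fun a ha => ?_, ?_⟩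
  · obtain ⟨b, hb, rfl⟩ := Finset.mem_image.1 ha
    exact (e.isAtom_iff b).2 (hs b hb)
  · rw [Finset.sup_image, map_finset_sup]
    rfl

omit [TopologicalSpace X] [CompactSpace X] [T2Space X] [TotallyDisconnectedSpace X] in
theorem isFiniteJoinOfAtoms_map_iff {C D : Type*} [BooleanAlgebra C] [BooleanAlgebra D]
    (e : C ≃o D) {c : C} : IsFiniteJoinOfAtoms (e c) ↔ IsFiniteJoinOfAtoms c := by
  refine ⟨fun h => ?_, isFiniteJoinOfAtoms_map e⟩
  have := isFiniteJoinOfAtoms_map e.symm h
  rwa [e.symm_apply_apply] at this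

theorem mem_succIdeal_iff {J : Ideal (AsBoolRing (Clopens X))} {b : Clopens X} :
    toBoolRing b ∈ succIdeal J ↔ ((b : Set X) ∩ zeroSet J).Finite := by
  have : CompactSpace (zeroSet J) := isCompact_iff_compactSpace.1 (isClosed_zeroSet J).isCompact
  have h1 : toBoolRing b ∈ succIdeal J ↔ IsFiniteJoinOfAtoms (quotMk J b) := Iff.rfl
  rw [h1, ← isFiniteJoinOfAtoms_map_iff (quotIso J), quotIso_quotMk, isFiniteJoinOfAtoms_iff]
  have h2 : (b : Set X) ∩ zeroSet J =
      Subtype.val '' ((res (zeroSet J) b : Clopens (zeroSet J)) : Set (zeroSet J)) := by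
    ext x
    constructor
    · rintro ⟨h3, h4⟩
      exact ⟨⟨x, h4⟩, h3, rfl⟩
    · rintro ⟨y, h3, rfl⟩
      exact ⟨h3, y.2⟩
  rw [h2, Set.finite_image_iff Subtype.val_injective.injOn]

/-- The isolated points of `F`. -/
def isolated (F : Set X) : Set X := {x | ∃ U, IsOpen U ∧ F ∩ U = {x}}

theorem zeroSet_succIdeal (J : Ideal (AsBoolRing (Clopens X))) :
    zeroSet (succIdeal J) = zeroSet J \ isolated (zeroSet J) := by
  ext x
  constructor
  · intro hx
    have hxJ : x ∈ zeroSet J := by
      intro b hb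
      apply hx b
      rw [mem_succIdeal_iff]
      convert Set.finite_empty (α := X)
      rw [Set.eq_empty_iff_forall_notMem]
      rintro y ⟨hy, hyJ⟩
      exact hyJ b hb hy
    refine ⟨hxJ, ?_⟩
    rintro ⟨U, hU, hUx⟩
    have hxU : x ∈ U := by
      have : x ∈ zeroSet J ∩ U := by rw [hUx]; rfl
      exact this.2
    obtain ⟨V, hV, hxV, hVU⟩ := compact_exists_isClopen_in_isOpen hU hxU
    refine hx ⟨V, hV⟩ ?_ hxV
    rw [mem_succIdeal_iff]
    refine (Set.finite_singleton x).subset ?_
    rintro y ⟨hy, hyJ⟩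
    rw [← hUx]
    exact ⟨hyJ, hVU hy⟩
  · rintro ⟨hxJ, hx⟩ b hb hxb
    rw [mem_succIdeal_iff] at hb
    apply hx
    refine ⟨(b : Set X) \ (((b : Set X) ∩ zeroSet J) \ {x}), b.isOpen.sdiff
      (hb.subset Set.sdiff_subset).isClosed, ?_⟩
    ext y
    simp only [Set.mem_inter_iff, Set.mem_sdiff, Set.mem_singleton_iff, SetLike.mem_coe]
    constructor
    · rintro ⟨h1, h2, h3⟩
      by_contra h4
      exact h3 ⟨⟨h2, h1⟩, h4⟩
    · rintro rfl
      exact ⟨hxJ, hxb, fun h => h.2 rfl⟩

omit [CompactSpace X] [T2Space X] [TotallyDisconnectedSpace X] in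
/-- Homeomorphic spaces have isomorphic clopen algebras. -/
def clopensCongr {Y : Type*} [TopologicalSpace Y] (e : X ≃ₜ Y) : Clopens X ≃o Clopens Y where
  toFun b := ⟨e.symm ⁻¹' b, b.isClopen.preimage e.symm.continuous⟩
  invFun b := ⟨e ⁻¹' b, b.isClopen.preimage e.continuous⟩
  left_inv b := by
    apply Clopens.ext
    show e ⁻¹' (e.symm ⁻¹' (b : Set X)) = b
    rw [← Set.preimage_comp]
    simp
  right_inv b := by
    apply Clopens.ext
    show e.symm ⁻¹' (e ⁻¹' (b : Set Y)) = b
    rw [← Set.preimage_comp]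
    simp
  map_rel_iff' := by
    intro a b
    constructor
    · intro h x hx
      have : e x ∈ e.symm ⁻¹' (b : Set X) := h (show e x ∈ e.symm ⁻¹' (a : Set X) by simpa using hx)
      simpa using this
    · intro h x hx
      exact h hx

end Stone

end Pool.Agent.Helper93.QuotBA
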